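import Pool.Agent.X133.LL.Main

/-! The theorem on the eigenfunctions of a finite box, from any profile of the resolvent. -/

set_option autoImplicit false
set_option linter.unusedSectionVars false

open scoped BigOperators Topology
open MeasureTheory Filter Set

namespace Pool.Agent.X133.LL

open Pool.Agent.W788.BK
open Pool.Agent.H4R2.LO (Zd)
open Pool.Agent.W788.BK.Num
open Pool.Agent.TH794.QD
open Pool.Agent.TH794.QE
open Pool.Agent.TH794.HK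
open Finset (range)

/-- the shift of the Green function -/
theorem rs_unshift {d : ℕ} {c : ℝ} {ω : Zd d → ℝ} {x : Zd d} {e η : ℝ} {g : Zd d → ℂ}
    (h : Rs d (fun y => 2 * d + c * sh x ω y) 0 e η g) :
    Rs d (fun y => 2 * d + c * ω y) x e η (fun y => g (y - x)) := by
  refine ⟨?_, fun y => ?_⟩
  · exact ((Equiv.subRight x).summable_iff (f := fun y => ‖g y‖ ^ 2)).2 h.sq
  · have h1 := h.eq (y - x)
    have h2 : Pool.Agent.W788.LD.Spec.S (fun y => g (y - x)) y =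
        Pool.Agent.W788.LD.Spec.S g (y - x) := by
      unfold Pool.Agent.W788.LD.Spec.S
      refine Finset.sum_congr rfl fun i _ => ?_
      dsimp only
      rw [add_sub_right_comm, sub_right_comm]
    have h3 : sh x ω (y - x) = ω y := by
      unfold sh
      rw [sub_add_cancel]
    rw [h3] at h1
    rw [h2, h1]
    by_cases hy : y = x
    · rw [if_pos hy, if_pos (by rw [hy, sub_self])]
    · rw [if_neg hy, if_neg (sub_ne_zero.2 hy)]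

/-- **from the profile of the resolvent to the eigenfunctions of all boxes** -/
theorem abs_main (d : ℕ) (hd1 : 1 ≤ d) (m C ε Vb : ℝ) (hm : 0 < m) (hC0 : 0 ≤ C) (hε : 0 < ε)
    (hVb0 : 0 < Vb) :
    ∃ (N : ℕ) (c1 err0 lam0 : ℝ), 1 ≤ N ∧ 0 < c1 ∧ 0 < err0 ∧ 0 < lam0 ∧
    ∀ c : ℝ, 0 < c → c ≤ lam0 → ∀ (μ : Measure ℝ) [IsProbabilityMeasure μ], ∀ Mn V : ℝ,
      0 < V → V ≤ Vb ^ 2 → ∀ (Bd : ℝ → Prop) (γ0 γ1 : ℝ → ℂ),
      (∀ E, Bd E → m ≤ (γ1 E).im ∧ (γ1 E).im ≤ (γ0 E).im ∧ (γ0 E).im ≤ C) →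
      ∀ lo hi err : ℝ, c ^ (81 / 40 : ℝ) ≤ lo → hi ≤ 1 → 0 ≤ err → err ≤ err0 →
      ∀ G1 : Set (Zd d → ℝ), MeasurableSet G1 →
      (∀ ω ∈ G1, ∀ e : ℝ, Bd (2 * d + c * Mn - e) → ∀ η : ℝ, lo ≤ η → η ≤ hi →
        (∃ u, Rs d (fun x => 2 * d + c * ω x) 0 e η u) ∧
        ∀ u, Rs d (fun x => 2 * d + c * ω x) 0 e η u →
        ∀ p : Fin d → ℝ, ∑ i, p i ^ 2 ≤ (N : ℝ) ^ 2 * (η * (c ^ 2 * V)) →
          ‖((η : ℝ) : ℂ) * ∑' y, ph p (y - 0) * ((‖u y‖ ^ 2 : ℝ) : ℂ) -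
            ((Tg γ0 γ1 η (c ^ 2 * V) (2 * d + c * Mn - e) p : ℝ) : ℂ)‖ ≤ err) →
      ∃ G : Set (Zd d → ℝ), MeasurableSet G ∧
        1 - 10 ^ d * (Measure.infinitePi fun _ : Zd d => μ).real G1ᶜ / c ^ 3 ≤
          (Measure.infinitePi fun _ : Zd d => μ).real G ∧
        ∀ ω ∈ G, ∀ L : ℕ, 1 / c ^ 9 ≤ (L : ℝ) → ∀ e : ℝ, Bd (2 * d + c * Mn - e) →
          ∀ s : ℝ, 16 * lo ≤ s → s ≤ hi →
          (∀ (ι : Type) [Fintype ι] (u : ι → Zd d → ℂ) (En : ι → ℝ),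
            EF (Bx 0 L) (fun x => 2 * d + c * ω x) u En →
            Fintype.card ι = (Bx (0 : Zd d) L).card →
            m / 512 * s * (Bx (0 : Zd d) L).card ≤ (Nat.card {n : ι // |En n - e| ≤ s} : ℝ)) ∧
          (∀ (ι : Type) [Fintype ι] (u : ι → Zd d → ℂ) (En : ι → ℝ),
            EF (Bx 0 L) (fun x => 2 * d + c * ω x) u En → (∀ n, |En n - e| ≤ s) →
            (∀ n, lc (Bx 0 L) (c1 / (Real.sqrt s * c)) (u n) ≤ c1 / Real.sqrt s) →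
            (Fintype.card ι : ℝ) ≤ ε * s * (Bx (0 : Zd d) L).card) ∧
          (∀ (ι : Type) [Fintype ι] (u : ι → Zd d → ℂ) (En : ι → ℝ),
            EF (Bx 0 L) (fun x => 2 * d + c * ω x) u En → (∀ n, |En n - e| ≤ s) →
            (∀ n, ∃ xc : Zd d, ∀ x ∈ Bx (0 : Zd d) L, ‖u n x‖ ≤
              Real.exp (c ^ (-(1 / 2000) : ℝ)) *
                Real.exp (-(‖x - xc‖ / (c ^ (1 / 1000 : ℝ) / (Real.sqrt s * c))))) →
            (Fintype.card ι : ℝ) ≤ ε * s * (Bx (0 : Zd d) L).card) := by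
  have hd0 : (0 : ℝ) < d := by
    have : 0 < d := by omega
    exact_mod_cast this
  obtain ⟨ε1, hε1d⟩ : ∃ ε1, ε1 = ε / (128 * (C + 1)) := ⟨_, rfl⟩
  obtain ⟨r, hrd⟩ : ∃ r, r = ε / (64 * (C + 1)) := ⟨_, rfl⟩
  obtain ⟨D0, hD0d⟩ : ∃ D0, D0 = m / (C + 1) ^ 2 := ⟨_, rfl⟩
  have hε1 : 0 < ε1 := by rw [hε1d]; positivity
  have hr : 0 < r := by rw [hrd]; positivity
  have hD0 : 0 < D0 := by rw [hD0d]; positivity
  obtain ⟨N, hN, hFE⟩ := fejer_small D0 ε1 hD0 hε1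
  have hN0 : (0 : ℝ) < N := by
    have : 0 < N := by omega
    exact_mod_cast this
  obtain ⟨c1, hc1d⟩ : ∃ c1, c1 = min (1 / (16 * (1 + 1 / r) * (Real.sqrt (C + 1) + 1)))
    (1 / (Vb * N)) := ⟨_, rfl⟩
  have hc1 : 0 < c1 := by
    rw [hc1d]
    exact lt_min (by positivity) (by positivity)
  have hc1a : 16 * (1 + 1 / r) * (Real.sqrt (C + 1) + 1) * c1 ≤ 1 := by
    have h1 : c1 ≤ 1 / (16 * (1 + 1 / r) * (Real.sqrt (C + 1) + 1)) := by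
      rw [hc1d]
      exact min_le_left _ _
    rw [le_div_iff₀ (by positivity)] at h1
    linarith
  have hc1b : Vb * N * c1 ≤ 1 := by
    have h1 : c1 ≤ 1 / (Vb * N) := by
      rw [hc1d]
      exact min_le_right _ _
    rw [le_div_iff₀ (by positivity)] at h1
    linarith
  have hev : ∀ᶠ c in 𝓝[>] (0 : ℝ),
      ((12 + 8 / r) * (16 * (d : ℝ) ^ 3) * c ^ (15 / 8 : ℝ) ≤ ε / 16) ∧
      (16 * (d : ℝ) ^ 3 * c ^ (15 / 8 : ℝ) ≤ 1) ∧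
      (256 * 16 ^ 5 * (d : ℝ) ^ 3 * c ^ (15 / 8 : ℝ) ≤ m) ∧
      ((1 + 2 * (d : ℝ)) * c ^ (39 / 40 : ℝ) ≤ ε / 4) ∧
      ((1 + 2 * (d : ℝ)) * c ^ (3 : ℝ) ≤ 1 / 2) ∧
      (Real.exp (c ^ (-(1 / 2000) : ℝ)) ^ 2 * Real.exp (-(c1 * c ^ (-(1 / 1000) : ℝ) / 2)) *
        ((2 * (1 + d * (2 * c ^ (-4 : ℝ)))) ^ d) ^ 2 ≤ c1) ∧
      (1 * c ^ (1 : ℝ) ≤ 1 / 2) := by
    filter_upwards [ev_pow ((12 + 8 / r) * (16 * (d : ℝ) ^ 3)) (ε / 16) (15 / 8) (by positivity) (by norm_num),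
      ev_pow (16 * (d : ℝ) ^ 3) 1 (15 / 8) one_pos (by norm_num),
      ev_pow (256 * 16 ^ 5 * (d : ℝ) ^ 3) m (15 / 8) hm (by norm_num),
      ev_pow (1 + 2 * (d : ℝ)) (ε / 4) (39 / 40) (by positivity) (by norm_num),
      ev_pow (1 + 2 * (d : ℝ)) (1 / 2) 3 (by norm_num) (by norm_num),
      ev_loc d c1 hc1, ev_pow 1 (1 / 2) 1 (by norm_num) one_pos]
      with c h2 h3 h4 h6 h7 h9 h10
    exact ⟨h2, h3, h4, h6, h7, h9, h10⟩
  obtain ⟨lam0, hlam0, hev2⟩ := mem_nhdsGT_iff_exists_Ioc_subset.1 hev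
  refine ⟨N, c1, min 1 (min (ε / 128) (m / 24)), lam0, hN, hc1, by positivity, hlam0, ?_⟩
  intro c hc hcl μ hμ Mn V hVpos hVb Bd γ0 γ1 hl lo hi err hlo hhi herr0 herr G1 hG1m hG1
  obtain ⟨n2, n3, n4, n6, n7, n9, n10⟩ := hev2 ⟨hc, hcl⟩
  rw [one_mul, Real.rpow_one] at n10
  have hc12 : c ≤ 1 / 2 := n10
  have hcle : c ≤ 1 := by linarith
  have herr1 : err ≤ 1 := herr.trans (min_le_left _ _)
  have herr2 : err ≤ ε / 128 := herr.trans ((min_le_right _ _).trans (min_le_left _ _))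
  have herr3 : err ≤ m / 24 := herr.trans ((min_le_right _ _).trans (min_le_right _ _))
  obtain ⟨hm1, hm2⟩ := maximal (d := d) μ G1ᶜ hG1m.compl (c ^ 3) (by positivity)
  refine ⟨{ω | ∃ L : ℕ, c ^ 3 * ((Bx (0 : Fin d → ℤ) L).card : ℝ) <
      (bad G1ᶜ ω (Bx 0 L)).card}ᶜ, hm1.compl, ?_, ?_⟩
  · rw [probReal_compl_eq_one_sub hm1]
    linarith
  intro ω hω L hL e he s hs hs2
  have hbadL : ((bad G1ᶜ ω (Bx 0 L)).card : ℝ) ≤ c ^ 3 * ((Bx (0 : Fin d → ℤ) L).card : ℝ) := by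
    by_contra hcon
    exact hω ⟨L, not_le.1 hcon⟩
  -- the scale
  have hlo16 : lo ≤ s / 16 := by linarith
  have hlo0 : 0 < lo := lt_of_lt_of_le (by positivity) hlo
  have hs0 : 0 < s := by linarith
  have hlos : lo ≤ s := hlo16.trans (by linarith)
  have hs81' : c ^ (81 / 40 : ℝ) ≤ s := hlo.trans hlos
  have hs1 : s ≤ 1 := hs2.trans hhi
  have hs162 : s / 16 ≤ hi := by linarith
  -- the radius
  obtain ⟨R, hR⟩ : ∃ R : ℕ, R = ⌈(c ^ 6)⁻¹⌉₊ := ⟨_, rfl⟩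
  obtain ⟨hR1, hR2, hR3⟩ := radius c hc hcle
  rw [← hR] at hR1 hR2 hR3
  have hc9 : (0 : ℝ) < c ^ 9 := by positivity
  have hL0 : (0 : ℝ) < L := lt_of_lt_of_le (by positivity) hL
  have hRL1 : (R : ℝ) ≤ 2 * c ^ 3 * L := by
    have h1 : 2 * (c ^ 6)⁻¹ = 2 * c ^ 3 * (1 / c ^ 9) := by
      field_simp
    calc (R : ℝ) ≤ 2 * (c ^ 6)⁻¹ := hR2
      _ = 2 * c ^ 3 * (1 / c ^ 9) := h1
      _ ≤ 2 * c ^ 3 * L := by gcongr
  have hc3 : c ^ 3 ≤ 1 / 8 := by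
    have : c ^ 3 ≤ (1 / 2) ^ 3 := pow_le_pow_left₀ hc.le hc12 3
    linarith
  have hRL : R ≤ L := by
    have h1 : (R : ℝ) ≤ L := by
      have := mul_le_mul_of_nonneg_right hc3 hL0.le
      linarith
    exact_mod_cast h1
  have hLpos : 0 < L := by exact_mod_cast hL0
  -- the bad set
  obtain ⟨B, hBd⟩ : ∃ B, B = bad G1ᶜ ω (Bx 0 L) ∪ (Bx (0 : Zd d) L \ Bx 0 (L - R)) := ⟨_, rfl⟩
  have hB : B ⊆ Bx 0 L := by
    rw [hBd]
    apply Finset.union_subset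
    · intro y hy
      exact (mem_bad.1 hy).1
    · exact Finset.sdiff_subset
  obtain ⟨Lc, hLc⟩ : ∃ Lc : ℝ, Lc = ((Bx (0 : Zd d) L).card : ℝ) := ⟨_, rfl⟩
  have hLc0 : 0 ≤ Lc := by rw [hLc]; exact Nat.cast_nonneg _
  have hBc : (B.card : ℝ) ≤ (1 + 2 * d) * c ^ 3 * Lc := by
    have h1 : (B.card : ℝ) ≤ (bad G1ᶜ ω (Bx 0 L)).card +
        ((Bx (0 : Zd d) L \ Bx 0 (L - R)).card : ℝ) := by
      rw [hBd]
      exact_mod_cast Finset.card_union_le _ _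
    have h2 := shallow (d := d) L R hRL hLpos
    have h3 : (d : ℝ) * R / L ≤ d * (2 * c ^ 3) := by
      rw [div_le_iff₀ hL0, mul_assoc]
      gcongr
    have h4 : (d : ℝ) * R / L * (Bx (0 : Zd d) L).card ≤ d * (2 * c ^ 3) * Lc := by
      rw [← hLc]
      gcongr
    rw [← hLc] at hbadL
    linarith
  have hdeep : ∀ x0 ∈ Bx (0 : Zd d) L \ B, ∀ y, y ∉ Bx (0 : Zd d) L → (R : ℝ) ≤ ‖y - x0‖ := by
    intro x0 hx0 y hy
    rw [Finset.mem_sdiff, hBd, Finset.mem_union, not_or] at hx0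
    have h1 : x0 ∈ Bx (0 : Zd d) (L - R) := by
      by_contra hcon
      exact hx0.2.2 (Finset.mem_sdiff.2 ⟨hx0.1, hcon⟩)
    exact deep L R hRL x0 h1 y hy
  have hgood : ∀ x0 ∈ Bx (0 : Zd d) L \ B, sh x0 ω ∈ G1 := by
    intro x0 hx0
    rw [Finset.mem_sdiff, hBd, Finset.mem_union, not_or] at hx0
    by_contra hcon
    exact hx0.2.1 (mem_bad.2 ⟨hx0.1, hcon⟩)
  -- the profile
  obtain ⟨E, hEd⟩ : ∃ E : ℝ, E = 2 * d + c * Mn - e := ⟨_, rfl⟩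
  rw [← hEd] at he
  obtain ⟨hl1, hl2, hl3⟩ := hl E he
  obtain ⟨i0⟩ : Nonempty (Fin d) := ⟨⟨0, by omega⟩⟩
  obtain ⟨G0, hG0d⟩ : ∃ G0, G0 = (γ0 E).im := ⟨_, rfl⟩
  obtain ⟨Dd, hDd⟩ : ∃ Dd, Dd = (γ1 E).im / (γ0 E).im ^ 2 := ⟨_, rfl⟩
  have hmG0 : m ≤ G0 := by rw [hG0d]; exact hl1.trans hl2
  have hG0C : G0 ≤ C := by rw [hG0d]; exact hl3
  have hG0pos : 0 < G0 := hm.trans_le hmG0
  have hDD : D0 ≤ Dd := by
    rw [hDd, hD0d, ← hG0d]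
    apply div_le_div₀ (hm.le.trans hl1) hl1 (by positivity)
    exact pow_le_pow_left₀ hG0pos.le (by linarith) 2
  have hFE2 := (fejer_mono D0 Dd hD0 hDD N).trans hFE
  have hprof : ∀ x0 ∈ Bx (0 : Zd d) L \ B, ∀ η : ℝ, lo ≤ η →
      η ≤ hi → ∃ g, Pf (fun x => 2 * d + c * ω x) i0 x0 e η G0 Dd
        (Real.sqrt (η * (c ^ 2 * V))) err N g := by
    intro x0 hx0 η hη1 hη2
    have hη0 : 0 < η := hlo0.trans_le hη1
    obtain ⟨⟨g, hg⟩, hprf⟩ := hG1 _ (hgood x0 hx0) e (by rw [← hEd]; exact he) η hη1 hη2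
    refine ⟨fun y => g (y - x0), ?_⟩
    rw [hG0d, hDd]
    apply pf_of (γ0 := γ0) (γ1 := γ1) i0 hη0 (by positivity) le_rfl (rs_unshift hg)
    intro u hu p hp
    have h1 := hprf u hu p hp
    rw [← hEd] at h1
    exact h1
  have hsc := scale c s hc hs81'
  have hKd : 16 * (d : ℝ) ^ 3 * (s⁻¹) ^ 4 / (R : ℝ) ^ 2 ≤
      16 * (d : ℝ) ^ 3 * (s * c ^ (15 / 8 : ℝ)) := by
    have h1 : 1 / (R : ℝ) ^ 2 ≤ c ^ 12 := by
      have h2 : ((c ^ 6)⁻¹) ^ 2 ≤ (R : ℝ) ^ 2 := pow_le_pow_left₀ (by positivity) hR1 2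
      rw [div_le_iff₀ (by positivity)]
      calc (1 : ℝ) = c ^ 12 * ((c ^ 6)⁻¹) ^ 2 := by
            field_simp
        _ ≤ c ^ 12 * (R : ℝ) ^ 2 := by gcongr
    calc 16 * (d : ℝ) ^ 3 * (s⁻¹) ^ 4 / (R : ℝ) ^ 2 =
          16 * (d : ℝ) ^ 3 * ((s⁻¹) ^ 4 * (1 / (R : ℝ) ^ 2)) := by ring
      _ ≤ 16 * (d : ℝ) ^ 3 * ((s⁻¹) ^ 4 * c ^ 12) := by gcongr
      _ ≤ _ := by gcongr
  have hBs : (B.card : ℝ) ≤ ε * s / 4 * Lc := by
    refine hBc.trans ?_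
    apply mul_le_mul_of_nonneg_right _ hLc0
    have h1 : c ^ 3 = c ^ (39 / 40 : ℝ) * c ^ (81 / 40 : ℝ) := by
      rw [← Real.rpow_add hc, ← Real.rpow_natCast]
      congr 1
      norm_num
    have h2 : 0 < c ^ (81 / 40 : ℝ) := by positivity
    calc (1 + 2 * (d : ℝ)) * c ^ 3 = (1 + 2 * (d : ℝ)) * c ^ (39 / 40 : ℝ) *
          c ^ (81 / 40 : ℝ) := by rw [h1]; ring
      _ ≤ ε / 4 * c ^ (81 / 40 : ℝ) := by gcongr
      _ ≤ ε / 4 * s := by gcongr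
      _ = _ := by ring
  have hB2 : (B.card : ℝ) ≤ 1 / 2 * Lc := by
    refine hBc.trans ?_
    apply mul_le_mul_of_nonneg_right _ hLc0
    rw [← Real.rpow_natCast c 3]
    exact_mod_cast n7
  have hup : ∀ (ι : Type) [Fintype ι] (u : ι → Zd d → ℂ) (En : ι → ℝ),
      EF (Bx 0 L) (fun x => 2 * d + c * ω x) u En → (∀ n, |En n - e| ≤ s) →
      (∀ n, lc (Bx 0 L) (c1 / (Real.sqrt s * c)) (u n) ≤ c1 / Real.sqrt s) →
      (Fintype.card ι : ℝ) ≤ ε * s * (Bx (0 : Zd d) L).card := by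
    intro ι _ u En hEF hwin hloc
    have hℓ : (N : ℝ) * (Real.sqrt (s * (c ^ 2 * V)) * (c1 / (Real.sqrt s * c))) ≤ 1 := by
      have h1 : Real.sqrt (s * (c ^ 2 * V)) = Real.sqrt s * c * Real.sqrt V := by
        rw [Real.sqrt_mul hs0.le, Real.sqrt_mul (sq_nonneg c), Real.sqrt_sq hc.le]
        ring
      have h2 : 0 < Real.sqrt s := Real.sqrt_pos.2 hs0
      have h3 : Real.sqrt V ≤ Vb := by
        rw [← Real.sqrt_sq hVb0.le]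
        exact Real.sqrt_le_sqrt hVb
      have h4 : (N : ℝ) * (Real.sqrt (s * (c ^ 2 * V)) * (c1 / (Real.sqrt s * c))) =
          N * Real.sqrt V * c1 := by
        rw [h1]
        field_simp
      rw [h4]
      calc (N : ℝ) * Real.sqrt V * c1 ≤ N * Vb * c1 := by gcongr
        _ ≤ 1 := by linarith
    refine up_final (i0 := i0) (R := R) (K := 16 * (d : ℝ) ^ 3 * (s * c ^ (15 / 8 : ℝ)))
      (ε := ε) (ε1 := ε1) (r := r) (c2 := c1) hEF B hB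
      hs0 hs1 hN (fun x0 hx0 => hprof x0 hx0 s hlos hs2) hdeep hwin hR3 hG0pos.le hG0C
      herr1 herr0 hFE2 hε1.le (Real.sqrt_nonneg _) hℓ hr hKd ?_ ?_ ?_ hloc hc1a
    · calc 16 * (d : ℝ) ^ 3 * (s * c ^ (15 / 8 : ℝ)) =
            (16 * (d : ℝ) ^ 3 * c ^ (15 / 8 : ℝ)) * s := by ring
        _ ≤ 1 * s := by gcongr
        _ = s := one_mul s
    · have h1 : (12 + 8 / r) * (16 * (d : ℝ) ^ 3 * (s * c ^ (15 / 8 : ℝ))) ≤ ε / 16 * s := by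
        calc (12 + 8 / r) * (16 * (d : ℝ) ^ 3 * (s * c ^ (15 / 8 : ℝ))) =
            ((12 + 8 / r) * (16 * (d : ℝ) ^ 3) * c ^ (15 / 8 : ℝ)) * s := by ring
          _ ≤ ε / 16 * s := by gcongr
      have h2 : r * (C + 1) = ε / 64 := by
        rw [hrd]
        field_simp
      have h3 : C * ε1 ≤ ε / 128 := by
        rw [hε1d]
        rw [mul_div_assoc', div_le_div_iff₀ (by positivity) (by norm_num)]
        nlinarith
      have h4 : r * (C + 1) + 2 * (C * ε1 + err) ≤ 3 * ε / 64 := by linarith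
      have h5 : 4 * s * (r * (C + 1) + 2 * (C * ε1 + err)) ≤
          4 * s * (3 * ε / 64) := mul_le_mul_of_nonneg_left h4 (by positivity)
      linarith
    · rw [← hLc]
      exact hBs
  refine ⟨?_, hup, ?_⟩
  · intro ι _ u En hEF hcard
    refine low_final (R := R) (G0 := G0) (err := err) hEF hcard B hB hs0 hs1
      (fun x0 hx0 => ?_) hdeep hR3 hd1 hmG0 hm herr3 ?_ ?_
    · obtain ⟨g, hg⟩ := hprof x0 hx0 (s / 16) hlo16 hs162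
      obtain ⟨g', hg'⟩ := hprof x0 hx0 s hlos hs2
      exact ⟨g, g', hg.1, hg'.1, Pf_zero hg hN, Pf_zero hg' hN⟩
    · have e1 : 256 * (d : ℝ) ^ 3 * ((s / 16)⁻¹) ^ 4 / (R : ℝ) ^ 2 =
          16 * 16 ^ 4 * (16 * (d : ℝ) ^ 3 * (s⁻¹) ^ 4 / (R : ℝ) ^ 2) := by
        rw [inv_div, div_pow, inv_pow]
        ring
      rw [e1]
      calc 16 * 16 ^ 4 * (16 * (d : ℝ) ^ 3 * (s⁻¹) ^ 4 / (R : ℝ) ^ 2) ≤
            16 * 16 ^ 4 * (16 * (d : ℝ) ^ 3 * (s * c ^ (15 / 8 : ℝ))) := by gcongr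
        _ = (256 * 16 ^ 5 * (d : ℝ) ^ 3 * c ^ (15 / 8 : ℝ)) * (s / 16) := by ring
        _ ≤ m * (s / 16) := by gcongr
    · rw [← hLc]
      exact hB2
  · intro ι _ u En hEF hwin hloc
    refine hup ι u En hEF hwin fun n => ?_
    obtain ⟨xc, hxc⟩ := hloc n
    have h2 : 0 < Real.sqrt s := Real.sqrt_pos.2 hs0
    obtain ⟨ξ, hξd⟩ : ∃ ξ, ξ = c ^ (1 / 1000 : ℝ) / (Real.sqrt s * c) := ⟨_, rfl⟩
    have hξ : 0 < ξ := by rw [hξd]; positivity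
    rw [← hξd] at hxc
    have h3 := exp_loc hd1 (Bx (0 : Zd d) L) (u n) xc (Real.exp (c ^ (-(1 / 2000) : ℝ))) ξ
      (c1 / (Real.sqrt s * c)) (Real.exp_pos _).le hξ hxc
    have h4 : c1 / (Real.sqrt s * c) / (2 * ξ) = c1 * c ^ (-(1 / 1000) : ℝ) / 2 := by
      rw [hξd, Real.rpow_neg hc.le]
      field_simp
    have hsq1 : Real.sqrt s ≤ 1 := by
      rw [← Real.sqrt_one]
      exact Real.sqrt_le_sqrt hs1
    have h5 : ξ ≤ c ^ (-4 : ℝ) := by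
      have h6 : s ≤ Real.sqrt s := by
        nlinarith [Real.sq_sqrt hs0.le]
      have h7 : c ^ (3 : ℝ) ≤ s := by
        refine le_trans ?_ hs81'
        exact Real.rpow_le_rpow_of_exponent_ge hc hcle (by norm_num)
      have h8 : c ^ (1 / 1000 : ℝ) ≤ 1 := Real.rpow_le_one hc.le hcle (by norm_num)
      have h9 : c ^ (3 : ℝ) * c = c ^ (4 : ℝ) := by
        rw [← Real.rpow_add_one hc.ne']
        norm_num
      have h10 : c ^ (4 : ℝ) ≤ Real.sqrt s * c := by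
        rw [← h9]
        gcongr
        exact h7.trans h6
      rw [hξd, Real.rpow_neg hc.le]
      rw [div_eq_mul_inv]
      calc c ^ (1 / 1000 : ℝ) * (Real.sqrt s * c)⁻¹ ≤ 1 * (c ^ (4 : ℝ))⁻¹ := by gcongr
        _ = _ := one_mul _
    rw [h4] at h3
    have h6 : Real.exp (c ^ (-(1 / 2000) : ℝ)) ^ 2 *
        Real.exp (-(c1 * c ^ (-(1 / 1000) : ℝ) / 2)) * ((2 * (1 + d * (2 * ξ))) ^ d) ^ 2 ≤
        Real.exp (c ^ (-(1 / 2000) : ℝ)) ^ 2 *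
        Real.exp (-(c1 * c ^ (-(1 / 1000) : ℝ) / 2)) *
        ((2 * (1 + d * (2 * c ^ (-4 : ℝ)))) ^ d) ^ 2 := by gcongr
    have h7 : c1 ≤ c1 / Real.sqrt s := by
      rw [le_div_iff₀ h2]
      nlinarith
    unfold lc
    exact h3.trans (h6.trans (n9.trans h7))

end Pool.Agent.X133.LL
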