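import Pool.Agent.X133.LL.Abs
import Pool.Agent.TH794.HK.FinM
import Pool.Agent.TH794.HK.FinL

/-! The eigenfunctions of the boxes in dimension two. -/

set_option autoImplicit false
set_option linter.unusedSectionVars false

open scoped BigOperators Topology
open MeasureTheory Filter Set

namespace Pool.Agent.X133.LL

open Pool.Agent.W788.BK
open Pool.Agent.H4R2.LO (Zd)
open Pool.Agent.W788.BK.Num
open Pool.Agent.TH794.QD
open Pool.Agent.TH794.QE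
open Pool.Agent.TH794.HK
open Pool.Agent.TH311.LL2D (Bu)

theorem GF_unit {F : ℝ → ℂ} (h : BAmp F) (E : ℝ) : ‖GF F ((E : ℂ) + Complex.I)‖ ≤ 1 := by
  have hz : 0 < ((E : ℂ) + Complex.I).im := by simp
  unfold GF
  rw [norm_mul, Complex.norm_I, one_mul]
  refine (norm_integral_le_integral_norm _).trans ?_
  have h1 : ∫ s in Ioi (0 : ℝ), Real.exp (-s) = 1 := by
    have := integral_exp_neg_Ioi 0
    simpa using this
  rw [← h1]
  apply setIntegral_mono_on (h.int hz).norm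
  · have := integrableOn_exp_mul_Ioi (show (-1 : ℝ) < 0 by norm_num) 0
    refine this.congr_fun (fun s _ => ?_) measurableSet_Ioi
    simp
  · exact measurableSet_Ioi
  · intro s _
    rw [norm_mul]
    have h2 : ‖Complex.exp (Complex.I * ((E : ℂ) + Complex.I) * s)‖ = Real.exp (-s) := by
      rw [Complex.norm_exp]
      congr 1
      simp
    rw [h2]
    calc ‖F s‖ * Real.exp (-s) ≤ 1 * Real.exp (-s) :=
          mul_le_mul_of_nonneg_right (h.one s) (Real.exp_pos _).le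
      _ = _ := one_mul _

theorem bvl_le (ka : ℝ) (hka : 0 < ka) (hka1 : ka ≤ 1) (E : ℝ) (hE : Bu ka E) :
    ‖bvl (F0 2) E‖ ≤ 1 + 2 * Pool.Agent.TH311.LL2D.CH ka := by
  have h1 := (holS0 ka hka hka1).lim ((E : ℂ) + Complex.I) (by simpa using hE) (by simp)
    (by simp) E hE
  rw [add_sub_cancel_left, Complex.norm_I, Real.one_rpow, mul_one] at h1
  have h2 := GF_unit (bamp0 2) E
  have h3 : ‖bvl (F0 2) E‖ ≤ ‖GF (F0 2) ((E : ℂ) + Complex.I)‖ +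
      ‖GF (F0 2) ((E : ℂ) + Complex.I) - bvl (F0 2) E‖ := by
    have h4 := norm_sub_le (GF (F0 2) ((E : ℂ) + Complex.I))
      (GF (F0 2) ((E : ℂ) + Complex.I) - bvl (F0 2) E)
    rwa [sub_sub_cancel] at h4
  linarith

theorem fin2 (hES : S_ES) (hTH : S_THIRD) (hFL : S_FLUCT) (hIN : S_INV)
    (hSU : S_SUP) (hQB : S_QB) (hLO : S_LOW) (hAD : S_ADM) (hFA : S_FAC) (hO : S_OSC)
    (κ : ℝ) (hκ : 0 < κ) (hκ1 : κ ≤ 1) :
    ∃ c0 : ℝ, 0 < c0 ∧ ∀ b v ε : ℝ, 0 < b → 0 < v → 0 < ε →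
    ∃ c1 : ℝ, 0 < c1 ∧ ∃ lam0 : ℝ, 0 < lam0 ∧ ∀ lam : ℝ, 0 < lam → lam ≤ lam0 →
    ∀ (μ : Measure ℝ), IsProbabilityMeasure μ → (∀ᵐ s ∂μ, |s| ≤ b) →
    ∀ Mn V : ℝ, ∫ s, s ∂μ = Mn → ∫ s, (s - Mn) ^ 2 ∂μ = V → v ≤ V →
      ∃ G : Set (Zd 2 → ℝ), MeasurableSet G ∧
        1 - Real.exp (-lam ^ (-(1 / 102) : ℝ)) ≤
          (Measure.infinitePi fun _ : Zd 2 => μ).real G ∧
        ∀ ω ∈ G, ∀ L : ℕ, 1 / lam ^ 9 ≤ (L : ℝ) → ∀ e : ℝ,
          κ ≤ |2 * ((2 : ℕ) : ℝ) + lam * Mn - e| → |2 * ((2 : ℕ) : ℝ) + lam * Mn - e| ≤ 4 - κ →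
          ∀ s : ℝ, lam ^ (83 / 41 : ℝ) ≤ s → s ≤ lam ^ (161 / 80 : ℝ) →
          (∀ (ι : Type) [Fintype ι] (u : ι → Zd 2 → ℂ) (En : ι → ℝ),
            EF (Bx 0 L) (fun x => 2 * ((2 : ℕ) : ℝ) + lam * ω x) u En →
            Fintype.card ι = (Bx (0 : Zd 2) L).card →
            c0 * s * (Bx (0 : Zd 2) L).card ≤ (Nat.card {n : ι // |En n - e| ≤ s} : ℝ)) ∧
          (∀ (ι : Type) [Fintype ι] (u : ι → Zd 2 → ℂ) (En : ι → ℝ),
            EF (Bx 0 L) (fun x => 2 * ((2 : ℕ) : ℝ) + lam * ω x) u En →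
            (∀ n, |En n - e| ≤ s) →
            (∀ n, lc (Bx 0 L) (c1 / (Real.sqrt s * lam)) (u n) ≤ c1 / Real.sqrt s) →
            (Fintype.card ι : ℝ) ≤ ε * s * (Bx (0 : Zd 2) L).card) ∧
          (∀ (ι : Type) [Fintype ι] (u : ι → Zd 2 → ℂ) (En : ι → ℝ),
            EF (Bx 0 L) (fun x => 2 * ((2 : ℕ) : ℝ) + lam * ω x) u En →
            (∀ n, |En n - e| ≤ s) →
            (∀ n, ∃ xc : Zd 2, ∀ x ∈ Bx (0 : Zd 2) L, ‖u n x‖ ≤
              Real.exp (lam ^ (-(1 / 2000) : ℝ)) *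
                Real.exp (-(‖x - xc‖ / (lam ^ (1 / 1000 : ℝ) / (Real.sqrt s * lam))))) →
            (Fintype.card ι : ℝ) ≤ ε * s * (Bx (0 : Zd 2) L).card) := by
  obtain ⟨γ0, γ1, hall⟩ := engK_all hES hTH hFL hIN hSU hQB hLO hAD hFA hO 2 le_rfl
  obtain ⟨hA, ⟨m, hm, hmE⟩, hEng⟩ := hall κ hκ hκ1
  have hB : ∀ E, RegE 2 κ E → Bu κ E := by
    intro E hE
    rcases hE with h | h
    · exact h.2
    · exact absurd h.1 (by norm_num)
  have hCHge := Pool.Agent.TH311.LL2D.CH_ge κ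
  obtain ⟨C, hCd⟩ : ∃ C, C = 1 + 2 * Pool.Agent.TH311.LL2D.CH κ := ⟨_, rfl⟩
  have hC : ∀ E, RegE 2 κ E → (γ0 E).im ≤ C := by
    intro E hE
    have h1 := tendsto_nhds_unique (hA E hE).1 ((holS0 κ hκ hκ1).bv E (hB E hE))
    rw [h1, hCd]
    exact ((le_abs_self _).trans (Complex.abs_im_le_norm _)).trans (bvl_le κ hκ hκ1 E (hB E hE))
  have hC0 : 0 ≤ C := by
    rw [hCd]
    linarith
  refine ⟨m / 512, by positivity, fun b v ε hb hv hε => ?_⟩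
  obtain ⟨N, c1, err0, lam1, hN, hc1, herr0, hlam1, habs⟩ := abs_main 2 (by norm_num) m C ε (2 * b)
    hm hC0 hε (by positivity)
  obtain ⟨cf, hcf, hG⟩ := finL 2 (fun E => RegE 2 κ E ∧ |E| ≤ 2 * ((2 : ℕ) : ℝ) - κ) γ0 γ1 b v
    ((N : ℝ) ^ 2) hb hv (by positivity) (hEng (2 * b) v (2 * (N : ℝ) ^ 2) (by positivity) hv
      (by positivity)) (fun E hE => by
      obtain ⟨-, -, h5, h6⟩ := hA E hE.1
      have h7 := hmE E hE.1 hE.2
      exact ⟨by linarith, h5, h6⟩)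
  have hev : ∀ᶠ c in 𝓝[>] (0 : ℝ),
      (1 * c ^ (1 / 200 : ℝ) ≤ err0) ∧ (16 * c ^ (1 / 1640 : ℝ) ≤ 1) ∧
      (10 ^ 2 * Real.exp (-c ^ (-(1 / 101) : ℝ)) / c ^ 3 ≤ Real.exp (-c ^ (-(1 / 102) : ℝ))) ∧
      (1 * c ^ (1 : ℝ) ≤ min 1 (min lam1 cf)) := by
    filter_upwards [ev_pow 1 err0 (1 / 200) herr0 (by norm_num),
      ev_pow 16 1 (1 / 1640) one_pos (by norm_num), ev_prob 2,
      ev_pow 1 (min 1 (min lam1 cf)) 1 (by positivity) one_pos] with c h1 h2 h3 h4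
    exact ⟨h1, h2, h3, h4⟩
  obtain ⟨lam0, hlam0, hev2⟩ := mem_nhdsGT_iff_exists_Ioc_subset.1 hev
  refine ⟨c1, hc1, lam0, hlam0, fun c hc hcl μ hμ hμb Mn V hMn hV hvV => ?_⟩
  obtain ⟨n1, n2, n3, n4⟩ := hev2 ⟨hc, hcl⟩
  rw [one_mul] at n1 n4
  rw [Real.rpow_one] at n4
  have hc1' : c ≤ 1 := n4.trans (min_le_left _ _)
  have hcl1 : c ≤ lam1 := n4.trans ((min_le_right _ _).trans (min_le_left _ _))
  have hcf1 : c ≤ cf := n4.trans ((min_le_right _ _).trans (min_le_right _ _))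
  obtain ⟨G1, hG1m, hG1P, hG1⟩ := hG c hc hcf1 μ hμ hμb Mn V hMn hV hvV
  have hVpos : 0 < V := hv.trans_le hvV
  have hVb := var_le b μ hμb Mn V hMn hV
  obtain ⟨G, hGm, hGP, hGω⟩ := habs c hc hcl1 μ Mn V hVpos hVb
    (fun E => RegE 2 κ E ∧ |E| ≤ 2 * ((2 : ℕ) : ℝ) - κ) γ0 γ1
    (fun E hE => ⟨hmE E hE.1 hE.2, (hA E hE.1).2.2.2, hC E hE.1⟩)
    (c ^ (81 / 40 : ℝ)) (c ^ (161 / 80 : ℝ)) (c ^ (1 / 200 : ℝ)) le_rfl
    (Real.rpow_le_one hc.le hc1' (by norm_num)) (by positivity) n1 G1 hG1m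
    (fun ω hω e he η hη1 hη2 => by
      have hη0 : 0 < η := lt_of_lt_of_le (by positivity) hη1
      obtain ⟨hωb, hprf⟩ := hG1 ω hω
      refine ⟨rs_exists (fun x => 2 * ((2 : ℕ) : ℝ) + c * ω x) (2 * ((2 : ℕ) : ℝ) + c * b)
        (fun x => ?_) 0 e η hη0, fun u hu p hp => ?_⟩
      · have h1 := hωb x
        have h2 : |2 * ((2 : ℕ) : ℝ) + c * ω x| ≤ |2 * ((2 : ℕ) : ℝ)| + |c * ω x| := abs_add_le _ _
        have h3 : |c * ω x| ≤ c * b := by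
          rw [abs_mul, abs_of_pos hc]
          gcongr
        have h4 : |2 * ((2 : ℕ) : ℝ)| = 2 * ((2 : ℕ) : ℝ) := abs_of_pos (by norm_num)
        linarith
      · exact hprf 0 (by
          rw [norm_zero]
          positivity) e he η hη1 hη2 u hu p hp)
  refine ⟨G, hGm, ?_, ?_⟩
  · refine le_trans ?_ hGP
    rw [probReal_compl_eq_one_sub hG1m]
    have h1 : 10 ^ 2 * (1 - (Measure.infinitePi fun _ : Zd 2 => μ).real G1) / c ^ 3 ≤
        10 ^ 2 * Real.exp (-c ^ (-(1 / 101) : ℝ)) / c ^ 3 := by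
      gcongr
      linarith
    linarith
  · intro ω hω L hL e he1 he2 s hs1 hs2
    have hs16 : 16 * c ^ (81 / 40 : ℝ) ≤ s := by
      have h1 : c ^ (81 / 40 : ℝ) = c ^ (83 / 41 : ℝ) * c ^ (1 / 1640 : ℝ) := by
        rw [← Real.rpow_add hc]
        congr 1
        norm_num
      have h2 : 0 < c ^ (83 / 41 : ℝ) := by positivity
      rw [h1]
      nlinarith
    exact hGω ω hω L hL e ⟨Or.inl ⟨rfl, he1, he2⟩, by norm_num at he2 ⊢; exact he2⟩ s hs16 hs2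

end Pool.Agent.X133.LL
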