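import Pool.Agent.X133.LL.Lat

/-! Counting eigenfunctions in a finite set with the Green function of the whole lattice. -/

set_option autoImplicit false

open scoped BigOperators

namespace Pool.Agent.X133.LL

open Pool.Agent.H4R2.LO (Zd)
open Pool.Agent.TH794.QE (Rs)
open Pool.Agent.X133.GA (S)
open Finset (range)

variable {d : ℕ}

theorem far_mass {V : Zd d → ℝ} {x0 : Zd d} {e η : ℝ} {g : Zd d → ℂ} (hg : Rs d V x0 e η g)
    (hη : 0 < η) (hη1 : η ≤ 1) (Λ : Finset (Zd d)) (R : ℝ) (hR : 0 < R)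
    (hΛ : ∀ y, y ∉ Λ → R ≤ ‖y - x0‖) :
    ∑' x, (if x ∈ Λ then 0 else ‖g x‖ ^ 2) ≤ 4 * d * (η⁻¹) ^ 4 / R ^ 2 := by
  have hq := fun j => Pool.Agent.TH794.QE.QM_eq hg (fun x => -V x) 0 1 (fun x => by ring) hη hη1 j
  have hb : ∀ j, ∑' x, ((x j : ℝ) - x0 j) ^ 2 * ‖g x‖ ^ 2 ≤ 4 * (η⁻¹) ^ 4 := by
    intro j
    have h1 := (hq j).2
    have h2 := (Pool.Agent.TH794.QE.mom_c x0 (Pool.Agent.TH794.QE.rs_LS hg (fun x => -V x) 0 1
      (fun x => by ring)) hη hη1 j).2.2.2.2.2.2.2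
    rw [← h1] at h2
    unfold Pool.Agent.TH794.QE.QM at h2
    refine h2.trans (le_of_eq (by ring))
  have hsum : Summable fun x => ∑ j, ((x j : ℝ) - x0 j) ^ 2 * ‖g x‖ ^ 2 :=
    summable_sum fun j _ => (hq j).1
  have hle : ∀ x, (if x ∈ Λ then 0 else ‖g x‖ ^ 2) ≤
      1 / R ^ 2 * ∑ j, ((x j : ℝ) - x0 j) ^ 2 * ‖g x‖ ^ 2 := by
    intro x
    have h0 : 0 ≤ ∑ j, ((x j : ℝ) - x0 j) ^ 2 * ‖g x‖ ^ 2 :=
      Finset.sum_nonneg fun j _ => by positivity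
    by_cases hx : x ∈ Λ
    · rw [if_pos hx]
      positivity
    · rw [if_neg hx]
      have h1 := hΛ x hx
      have h2 : ∃ j, R ≤ |(x j : ℝ) - x0 j| := by
        by_contra hcon
        push Not at hcon
        have h3 : ‖x - x0‖ < R := by
          rw [pi_norm_lt_iff hR]
          intro j
          have h4 := hcon j
          rw [Pi.sub_apply, Int.norm_eq_abs]
          push_cast
          exact h4
        linarith
      obtain ⟨j, hj⟩ := h2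
      have h3 : R ^ 2 ≤ ((x j : ℝ) - x0 j) ^ 2 := by
        rw [← sq_abs ((x j : ℝ) - x0 j)]
        exact pow_le_pow_left₀ hR.le hj 2
      have h4 : ((x j : ℝ) - x0 j) ^ 2 * ‖g x‖ ^ 2 ≤
          ∑ j, ((x j : ℝ) - x0 j) ^ 2 * ‖g x‖ ^ 2 :=
        Finset.single_le_sum (f := fun j => ((x j : ℝ) - x0 j) ^ 2 * ‖g x‖ ^ 2)
          (fun j _ => by positivity) (Finset.mem_univ j)
      rw [one_div, ← div_eq_inv_mul, le_div_iff₀ (by positivity)]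
      nlinarith [sq_nonneg ‖g x‖]
  have hs1 : Summable fun x => (if x ∈ Λ then 0 else ‖g x‖ ^ 2) := by
    refine Summable.of_nonneg_of_le (fun x => ?_) hle (hsum.mul_left _)
    split_ifs
    · exact le_rfl
    · positivity
  refine (hs1.tsum_le_tsum hle (hsum.mul_left _)).trans ?_
  rw [tsum_mul_left, Summable.tsum_finsetSum fun j _ => (hq j).1]
  have h5 : ∑ j, ∑' x, ((x j : ℝ) - x0 j) ^ 2 * ‖g x‖ ^ 2 ≤ ∑ _j : Fin d, 4 * (η⁻¹) ^ 4 :=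
    Finset.sum_le_sum fun j _ => hb j
  rw [Finset.sum_const, Finset.card_univ, Fintype.card_fin, nsmul_eq_mul] at h5
  calc 1 / R ^ 2 * ∑ j, ∑' x, ((x j : ℝ) - x0 j) ^ 2 * ‖g x‖ ^ 2 ≤
        1 / R ^ 2 * (d * (4 * (η⁻¹) ^ 4)) := by gcongr
    _ = _ := by ring

theorem kk_far {V : Zd d → ℝ} {x0 : Zd d} {e η : ℝ} {g : Zd d → ℂ} (hg : Rs d V x0 e η g)
    (hη : 0 < η) (hη1 : η ≤ 1) (Λ : Finset (Zd d)) (R : ℝ) (hR : 0 < R)
    (hΛ : ∀ y, y ∉ Λ → R ≤ ‖y - x0‖) :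
    ∑ x ∈ Λ, ‖kk Λ g x‖ ^ 2 ≤ 16 * d ^ 3 * (η⁻¹) ^ 4 / R ^ 2 := by
  refine (kk_le Λ g hg.sq).trans ?_
  have h := far_mass hg hη hη1 Λ R hR hΛ
  calc (2 * (d : ℝ)) ^ 2 * ∑' x, (if x ∈ Λ then 0 else ‖g x‖ ^ 2) ≤
        (2 * (d : ℝ)) ^ 2 * (4 * d * (η⁻¹) ^ 4 / R ^ 2) := by gcongr
    _ = _ := by ring

/-- the profile at a site, at the multiples `-N + 1, …, N - 1` of the momentum `r0` -/
def Pf (V : Zd d → ℝ) (i0 : Fin d) (x0 : Zd d) (e s G0 D r0 err : ℝ) (N : ℕ)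
    (g : Zd d → ℂ) : Prop :=
  Rs d V x0 e s g ∧ ∀ j ∈ range N, ∀ l ∈ range N,
    |s * ∑' y, Real.cos (((j : ℝ) - l) * (r0 * ((y i0 : ℝ) - x0 i0))) * ‖g y‖ ^ 2 -
      G0 / (1 + ((j : ℝ) - l) ^ 2 * D)| ≤ err

theorem Pf_zero {V : Zd d → ℝ} {i0 : Fin d} {x0 : Zd d} {e s G0 D r0 err : ℝ} {N : ℕ}
    {g : Zd d → ℂ} (h : Pf V i0 x0 e s G0 D r0 err N g) (hN : 1 ≤ N) :
    |s * ∑' y, ‖g y‖ ^ 2 - G0| ≤ err := by
  have h0 : 0 ∈ range N := Finset.mem_range.2 (by omega)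
  have h1 := h.2 0 h0 0 h0
  simpa using h1

/-- **the eigenfunctions in a window, at a good site** -/
theorem site_A {Λ : Finset (Zd d)} {V : Zd d → ℝ} {ι : Type*} [Fintype ι] {u : ι → Zd d → ℂ}
    {En : ι → ℝ} (h : EF Λ V u En) {x0 : Zd d} (hx0 : x0 ∈ Λ) {i0 : Fin d}
    {e s G0 D r0 err ε C R r ℓ K : ℝ} {N : ℕ}
    (hs : 0 < s) (hs1 : s ≤ 1) {g : Zd d → ℂ} (hg : Pf V i0 x0 e s G0 D r0 err N g) (hN : 1 ≤ N)
    (hwin : ∀ n, |En n - e| ≤ s) (hR : 0 < R) (hΛ : ∀ y, y ∉ Λ → R ≤ ‖y - x0‖)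
    (hG0 : 0 ≤ G0) (hGC : G0 ≤ C) (herr : err ≤ 1)
    (hE : ∑ j ∈ range N, ∑ l ∈ range N, 1 / (1 + ((j : ℝ) - l) ^ 2 * D) ≤ ε * (N : ℝ) ^ 2)
    (hε : 0 ≤ ε)
    (hr0 : 0 ≤ r0) (hℓ : N * (r0 * ℓ) ≤ 1) (hr : 0 < r)
    (hK : 16 * (d : ℝ) ^ 3 * (s⁻¹) ^ 4 / R ^ 2 ≤ K) (hKs : K ≤ s) :
    ∑ n, ‖u n x0‖ ^ 2 ≤ (4 * s * (r * (C + 1) + 2 * (C * ε + err)) + (12 + 8 / r) * K) +
      8 * Real.sqrt s * (1 + 1 / r) * (Real.sqrt (C + 1) + 1) *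
        ∑ n, ‖u n x0‖ * Real.sqrt (∑ x ∈ Λ, (if ℓ < ‖x - x0‖ then ‖u n x‖ ^ 2 else 0)) := by
  have hd0 : (0 : ℝ) ≤ d := Nat.cast_nonneg d
  have hK0 : 0 ≤ K := by
    refine le_trans ?_ hK
    positivity
  have hgs := hg.1
  have hz := Pf_zero hg hN
  have hC0 : 0 ≤ C := hG0.trans hGC
  have hW0 : ∑' y, ‖g y‖ ^ 2 ≤ (C + 1) / s := by
    rw [le_div_iff₀ hs]
    have := (abs_le.1 hz).2
    nlinarith
  have hW : ∑ x ∈ Λ, ‖g x‖ ^ 2 ≤ (C + 1) / s :=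
    (hgs.sq.sum_le_tsum Λ fun x _ => sq_nonneg _).trans hW0
  have hm := mass (fun y => ‖g y‖ ^ 2) (fun y => r0 * ((y i0 : ℝ) - x0 i0))
    (fun y => sq_nonneg _) hgs.sq N hN s G0 D ε err hs hG0 hg.2 hE
    (fun y => ¬ ℓ < ‖y - x0‖) (fun y hy => by
      have h1 : |(y i0 : ℝ) - x0 i0| ≤ ℓ := by
        have h2 := norm_le_pi_norm (y - x0) i0
        rw [Pi.sub_apply, Int.norm_eq_abs] at h2
        push_cast at h2
        exact h2.trans (not_lt.1 hy)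
      rw [abs_mul, abs_mul, abs_of_nonneg hr0, abs_of_nonneg (Nat.cast_nonneg N)]
      refine le_trans ?_ hℓ
      gcongr)
  have hs0 : ∑ x ∈ Λ, (if ℓ < ‖x - x0‖ then 0 else ‖g x‖ ^ 2) ≤ 2 * (C * ε + err) / s := by
    have h1 : Summable fun y => (if ¬ ℓ < ‖y - x0‖ then ‖g y‖ ^ 2 else 0) := by
      refine Summable.of_nonneg_of_le (fun y => ?_) (fun y => ?_) hgs.sq
      · split_ifs <;> first | exact le_rfl | exact sq_nonneg _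
      · split_ifs <;> first | exact le_rfl | exact sq_nonneg _
    have h2 : ∑ x ∈ Λ, (if ℓ < ‖x - x0‖ then 0 else ‖g x‖ ^ 2) ≤
        ∑' y, (if ¬ ℓ < ‖y - x0‖ then ‖g y‖ ^ 2 else 0) := by
      have h3 : ∀ x, (if ℓ < ‖x - x0‖ then 0 else ‖g x‖ ^ 2) =
          (if ¬ ℓ < ‖x - x0‖ then ‖g x‖ ^ 2 else 0) := by
        intro x
        by_cases hx : ℓ < ‖x - x0‖
        · rw [if_pos hx, if_neg (not_not.2 hx)]
        · rw [if_neg hx, if_pos hx]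
      rw [Finset.sum_congr rfl fun x _ => h3 x]
      refine h1.sum_le_tsum Λ fun x _ => ?_
      split_ifs <;> first | exact le_rfl | exact sq_nonneg _
    rw [le_div_iff₀ hs]
    have h4 : s * ∑ x ∈ Λ, (if ℓ < ‖x - x0‖ then 0 else ‖g x‖ ^ 2) ≤ 2 * (G0 * ε + err) :=
      (mul_le_mul_of_nonneg_left h2 hs.le).trans hm
    have h5 : G0 * ε ≤ C * ε := mul_le_mul_of_nonneg_right hGC hε
    linarith
  have hk : ∑ x ∈ Λ, ‖kk Λ g x‖ ^ 2 ≤ (Real.sqrt K) ^ 2 := by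
    rw [Real.sq_sqrt hK0]
    exact (kk_far hgs hs hs1 Λ R hR hΛ).trans hK
  have hmain := site_up h hx0 hs hgs hwin (fun x => ℓ < ‖x - x0‖) ((C + 1) / s)
    (2 * (C * ε + err) / s) (Real.sqrt K) r hr (Real.sqrt_nonneg _) hW hs0 hk
  obtain ⟨Lx, hLx⟩ : ∃ Lx, Lx = ∑ n, ‖u n x0‖ * Real.sqrt (∑ x ∈ Λ,
    (if ℓ < ‖x - x0‖ then ‖u n x‖ ^ 2 else 0)) := ⟨_, rfl⟩
  rw [← hLx] at hmain ⊢
  have hL0 : 0 ≤ Lx := by
    rw [hLx]
    exact Finset.sum_nonneg fun n _ => by positivity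
  refine hmain.trans (add_le_add (le_of_eq ?_) ?_)
  · have e1 : (s⁻¹ * Real.sqrt K) ^ 2 = (s⁻¹) ^ 2 * K := by rw [mul_pow, Real.sq_sqrt hK0]
    rw [e1, Real.sq_sqrt hK0]
    field_simp
    ring
  · apply mul_le_mul_of_nonneg_right _ hL0
    have e2 : s * (Real.sqrt ((C + 1) / s) + s⁻¹ * Real.sqrt K) ≤
        Real.sqrt s * (Real.sqrt (C + 1) + 1) := by
      obtain ⟨q, hq⟩ : ∃ q, q = Real.sqrt s := ⟨_, rfl⟩
      have hq0 : 0 < q := by rw [hq]; exact Real.sqrt_pos.2 hs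
      have hqs : s = q ^ 2 := by rw [hq, Real.sq_sqrt hs.le]
      have h1 : Real.sqrt K ≤ q := by rw [hq]; exact Real.sqrt_le_sqrt hKs
      rw [Real.sqrt_div (by linarith), ← hq, hqs]
      have h2 : q ^ 2 * (Real.sqrt (C + 1) / q + (q ^ 2)⁻¹ * Real.sqrt K) =
          q * Real.sqrt (C + 1) + Real.sqrt K := by
        field_simp
      rw [h2]
      linarith
    calc 8 * s * (1 + 1 / r) * (Real.sqrt ((C + 1) / s) + s⁻¹ * Real.sqrt K) =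
          8 * (1 + 1 / r) * (s * (Real.sqrt ((C + 1) / s) + s⁻¹ * Real.sqrt K)) := by ring
      _ ≤ 8 * (1 + 1 / r) * (Real.sqrt s * (Real.sqrt (C + 1) + 1)) := by gcongr
      _ = _ := by ring

theorem bessel_site {Λ : Finset (Zd d)} {V : Zd d → ℝ} {ι : Type*} [Fintype ι]
    {u : ι → Zd d → ℂ} {En : ι → ℝ} (h : EF Λ V u En) {x0 : Zd d} (hx0 : x0 ∈ Λ) :
    ∑ n, ‖u n x0‖ ^ 2 ≤ 1 := by
  have h1 := bessel (ortho h) (toE Λ fun x => if x = x0 then 1 else 0)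
  have h2 : ∀ n, (inner ℂ (toE Λ (u n)) (toE Λ fun x => if x = x0 then 1 else 0) : ℂ) =
      (starRingEnd ℂ) (u n x0) := by
    intro n
    rw [inner_toE, Finset.sum_eq_single x0]
    · rw [if_pos rfl, mul_one]
    · intro x _ hx
      rw [if_neg hx, mul_zero]
    · intro hx
      exact absurd hx0 hx
  have h3 : ‖toE Λ fun x => if x = x0 then (1 : ℂ) else 0‖ ^ 2 = 1 := by
    rw [norm_toE, Finset.sum_eq_single x0]
    · rw [if_pos rfl, norm_one, one_pow]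
    · intro x _ hx
      rw [if_neg hx, norm_zero]
      norm_num
    · intro hx
      exact absurd hx0 hx
  rw [h3] at h1
  simpa only [h2, Complex.norm_conj] using h1

/-- **the number of the eigenfunctions** -/
theorem count_up {Λ : Finset (Zd d)} {V : Zd d → ℝ} {ι : Type*} [Fintype ι] {u : ι → Zd d → ℂ}
    {En : ι → ℝ} (h : EF Λ V u En) (B : Finset (Zd d)) (hB : B ⊆ Λ) (A Bc M ℓ : ℝ) (hA : 0 ≤ A)
    (hBc : 0 ≤ Bc)
    (hsite : ∀ x0 ∈ Λ \ B, ∑ n, ‖u n x0‖ ^ 2 ≤ A + Bc * ∑ n, ‖u n x0‖ *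
      Real.sqrt (∑ x ∈ Λ, (if ℓ < ‖x - x0‖ then ‖u n x‖ ^ 2 else 0)))
    (hloc : ∀ n, ∑ x0 ∈ Λ, ‖u n x0‖ *
      Real.sqrt (∑ x ∈ Λ, (if ℓ < ‖x - x0‖ then ‖u n x‖ ^ 2 else 0)) ≤ M)
    (hBM : Bc * M ≤ 1 / 2) :
    (Fintype.card ι : ℝ) ≤ 2 * (A * Λ.card + B.card) := by
  have h1 : (Fintype.card ι : ℝ) = ∑ x0 ∈ Λ, ∑ n, ‖u n x0‖ ^ 2 := by
    rw [Finset.sum_comm, Finset.sum_congr rfl fun n _ => h.one n]
    simp
  have h2 : ∑ x0 ∈ Λ, ∑ n, ‖u n x0‖ ^ 2 =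
      ∑ x0 ∈ Λ \ B, ∑ n, ‖u n x0‖ ^ 2 + ∑ x0 ∈ B, ∑ n, ‖u n x0‖ ^ 2 :=
    (Finset.sum_sdiff hB).symm
  have h3 : ∑ x0 ∈ B, ∑ n, ‖u n x0‖ ^ 2 ≤ B.card := by
    refine (Finset.sum_le_sum fun x0 hx0 => bessel_site h (hB hx0)).trans (le_of_eq ?_)
    simp
  have hL : ∀ x0 ∈ Λ, 0 ≤ ∑ n, ‖u n x0‖ *
      Real.sqrt (∑ x ∈ Λ, (if ℓ < ‖x - x0‖ then ‖u n x‖ ^ 2 else 0)) :=
    fun x0 _ => Finset.sum_nonneg fun n _ => by positivity
  have h4 : ∑ x0 ∈ Λ \ B, ∑ n, ‖u n x0‖ ^ 2 ≤ A * Λ.card + Bc * (Fintype.card ι * M) := by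
    refine (Finset.sum_le_sum hsite).trans ?_
    rw [Finset.sum_add_distrib, ← Finset.mul_sum]
    apply add_le_add
    · rw [Finset.sum_const, nsmul_eq_mul, mul_comm]
      gcongr
      exact Finset.sdiff_subset
    · apply mul_le_mul_of_nonneg_left _ hBc
      refine (Finset.sum_le_sum_of_subset_of_nonneg Finset.sdiff_subset
        fun x hx _ => hL x hx).trans ?_
      rw [Finset.sum_comm]
      refine (Finset.sum_le_sum fun n _ => hloc n).trans (le_of_eq ?_)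
      simp
  have hc0 : (0 : ℝ) ≤ Fintype.card ι := Nat.cast_nonneg _
  have h5 : Bc * (Fintype.card ι * M) ≤ Fintype.card ι / 2 := by
    have := mul_le_mul_of_nonneg_left hBM hc0
    linarith
  linarith

/-- the number of the eigenfunctions in a window, from below -/
theorem count_low {Λ : Finset (Zd d)} {V : Zd d → ℝ} {ι : Type*} [Fintype ι] {u : ι → Zd d → ℂ}
    {En : ι → ℝ} (h : EF Λ V u En) (B : Finset (Zd d)) (hB : B ⊆ Λ) (e s a0 : ℝ)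
    (hsite : ∀ x0 ∈ Λ \ B, a0 ≤ ∑ n, if |En n - e| ≤ s then ‖u n x0‖ ^ 2 else 0) :
    a0 * (Λ.card - B.card) ≤ (Nat.card {n : ι // |En n - e| ≤ s} : ℝ) := by
  have h1 : (Nat.card {n : ι // |En n - e| ≤ s} : ℝ) =
      ∑ x0 ∈ Λ, ∑ n, if |En n - e| ≤ s then ‖u n x0‖ ^ 2 else 0 := by
    rw [Finset.sum_comm, Nat.card_eq_fintype_card, Fintype.card_subtype, Finset.card_filter,
      Nat.cast_sum]
    refine Finset.sum_congr rfl fun n _ => ?_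
    split_ifs
    · rw [h.one n, Nat.cast_one]
    · simp
  rw [h1]
  have h2 : ∑ x0 ∈ Λ \ B, a0 ≤
      ∑ x0 ∈ Λ, ∑ n, if |En n - e| ≤ s then ‖u n x0‖ ^ 2 else 0 := by
    refine (Finset.sum_le_sum hsite).trans ?_
    refine Finset.sum_le_sum_of_subset_of_nonneg Finset.sdiff_subset fun x _ _ => ?_
    refine Finset.sum_nonneg fun n _ => ?_
    split_ifs
    · exact sq_nonneg _
    · exact le_rfl
  refine le_trans (le_of_eq ?_) h2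
  rw [Finset.sum_const, nsmul_eq_mul, Finset.card_sdiff_of_subset hB,
    Nat.cast_sub (Finset.card_le_card hB), mul_comm]

/-- the window at a good site, from below -/
theorem site_B {Λ : Finset (Zd d)} {V : Zd d → ℝ} {ι : Type*} [Fintype ι] {u : ι → Zd d → ℂ}
    {En : ι → ℝ} (h : EF Λ V u En) (hcard : Fintype.card ι = Λ.card) {x0 : Zd d} (hx0 : x0 ∈ Λ)
    {e η G0 err m R : ℝ} (hη : 0 < η) (hη1 : 16 * η ≤ 1)
    {g g' : Zd d → ℂ} (hg : Rs d V x0 e η g) (hg' : Rs d V x0 e (16 * η) g')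
    (h1 : |η * ∑' y, ‖g y‖ ^ 2 - G0| ≤ err) (h2 : |16 * η * ∑' y, ‖g' y‖ ^ 2 - G0| ≤ err)
    (hR : 0 < R) (hΛ : ∀ y, y ∉ Λ → R ≤ ‖y - x0‖) (hd : 1 ≤ d)
    (hm : m ≤ G0) (hm0 : 0 < m) (herr : err ≤ m / 24)
    (hK : 256 * (d : ℝ) ^ 3 * (η⁻¹) ^ 4 / R ^ 2 ≤ m * η) :
    η * (m / 16) ≤ ∑ n, if |En n - e| ≤ 16 * η then ‖u n x0‖ ^ 2 else 0 := by
  obtain ⟨K, hKd⟩ : ∃ K, K = 16 * (d : ℝ) ^ 3 * (η⁻¹) ^ 4 / R ^ 2 := ⟨_, rfl⟩
  have hK0 : 0 ≤ K := by rw [hKd]; positivity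
  have hK4 : 16 * K ≤ m * η := by
    refine le_trans (le_of_eq ?_) hK
    rw [hKd]
    ring
  have hs : 0 < 16 * η := by positivity
  have hk : ∑ x ∈ Λ, ‖kk Λ g x‖ ^ 2 ≤ (Real.sqrt K) ^ 2 := by
    rw [Real.sq_sqrt hK0, hKd]
    exact kk_far hg hη (by linarith) Λ R hR hΛ
  have hk' : ∑ x ∈ Λ, ‖kk Λ g' x‖ ^ 2 ≤ (Real.sqrt K) ^ 2 := by
    rw [Real.sq_sqrt hK0, hKd]
    refine (kk_far hg' hs hη1 Λ R hR hΛ).trans ?_
    have h3 : (16 * η)⁻¹ ≤ η⁻¹ := inv_anti₀ hη (by linarith)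
    gcongr
  have hf := far_mass hg hη (by linarith) Λ R hR hΛ
  have hd1 : (1 : ℝ) ≤ d := by exact_mod_cast hd
  have hf2 : 4 * (d : ℝ) * (η⁻¹) ^ 4 / R ^ 2 ≤ K := by
    rw [hKd]
    have hd3 : (d : ℝ) ≤ (d : ℝ) ^ 3 := le_self_pow₀ hd1 (by norm_num)
    gcongr
    norm_num
  have hsplit : ∑' y, ‖g y‖ ^ 2 = ∑ x ∈ Λ, ‖g x‖ ^ 2 +
      ∑' x, (if x ∈ Λ then 0 else ‖g x‖ ^ 2) := by
    have hs1 : Summable fun x => (if x ∈ Λ then ‖g x‖ ^ 2 else 0) :=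
      summable_of_ne_finset_zero (s := Λ) fun x hx => if_neg hx
    have hs2 : Summable fun x => (if x ∈ Λ then 0 else ‖g x‖ ^ 2) := by
      refine Summable.of_nonneg_of_le (fun x => ?_) (fun x => ?_) hg.sq
      · split_ifs
        · exact le_rfl
        · exact sq_nonneg _
      · split_ifs
        · exact sq_nonneg _
        · exact le_rfl
    have e1 : ∑ x ∈ Λ, ‖g x‖ ^ 2 = ∑' x, (if x ∈ Λ then ‖g x‖ ^ 2 else 0) := by
      rw [tsum_eq_sum (s := Λ) fun x hx => if_neg hx]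
      exact Finset.sum_congr rfl fun x hx => (if_pos hx).symm
    rw [e1, ← hs1.tsum_add hs2]
    refine tsum_congr fun x => ?_
    split_ifs <;> simp
  have hlow := site_low h hcard hx0 hη hs hg hg' ((G0 - err) / η - K) ((G0 + err) / (16 * η))
    (Real.sqrt K) (Real.sqrt K) (by
      have h3 : (G0 - err) / η ≤ ∑' y, ‖g y‖ ^ 2 := by
        rw [div_le_iff₀ hη]
        have := (abs_le.1 h1).1
        linarith
      linarith) (by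
      refine (hg'.sq.sum_le_tsum Λ fun x _ => sq_nonneg _).trans ?_
      rw [le_div_iff₀ hs]
      have := (abs_le.1 h2).2
      linarith) hk hk'
  refine le_trans ?_ hlow
  have e1 : (η⁻¹ * Real.sqrt K) ^ 2 = (η⁻¹) ^ 2 * K := by rw [mul_pow, Real.sq_sqrt hK0]
  have e2 : ((16 * η)⁻¹ * Real.sqrt K) ^ 2 = (η⁻¹) ^ 2 * K / 256 := by
    rw [mul_pow, Real.sq_sqrt hK0, mul_inv]
    ring
  rw [e1, e2]
  have e3 : η ^ 2 * (((G0 - err) / η - K - 2 * ((η⁻¹) ^ 2 * K)) / 2 -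
      2 * (2 * ((G0 + err) / (16 * η)) + 2 * ((η⁻¹) ^ 2 * K / 256))) =
      η * ((G0 - err) / 2 - (G0 + err) / 4) - η ^ 2 * K / 2 - K - K / 64 := by
    field_simp
    ring
  rw [e3]
  have h4 : m / 8 ≤ (G0 - err) / 2 - (G0 + err) / 4 := by linarith
  have h5 : η * (m / 8) ≤ η * ((G0 - err) / 2 - (G0 + err) / 4) :=
    mul_le_mul_of_nonneg_left h4 hη.le
  have h6 : η ^ 2 * K ≤ K := mul_le_of_le_one_left hK0 (by nlinarith)
  have h7 : K ≤ η * m / 16 := by linarith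
  have h8 : 0 < η * m := by positivity
  nlinarith

end Pool.Agent.X133.LL
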