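import Mathlib

/-! Exponentially localized functions. -/

set_option autoImplicit false

open scoped BigOperators Topology
open Filter

namespace Pool.Agent.X133.LL

variable {d : ℕ}

theorem sum_Icc (q : ℝ) (n : ℕ) :
    ∑ j ∈ Finset.Icc (-(n : ℤ)) n, q ^ j.natAbs ≤ 2 * ∑ k ∈ Finset.range (n + 1), q ^ k := by
  induction n with
  | zero => simp
  | succ n ih =>
    have h1 : Finset.Icc (-((n + 1 : ℕ) : ℤ)) ((n + 1 : ℕ) : ℤ) =
        insert (((n + 1 : ℕ) : ℤ)) (insert (-((n + 1 : ℕ) : ℤ)) (Finset.Icc (-(n : ℤ)) n)) := by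
      ext j
      simp only [Finset.mem_insert, Finset.mem_Icc]
      omega
    rw [h1, Finset.sum_insert, Finset.sum_insert, Finset.sum_range_succ _ (n + 1), Int.natAbs_neg,
      Int.natAbs_natCast]
    · linarith
    · simp only [Finset.mem_Icc]
      omega
    · simp only [Finset.mem_insert, Finset.mem_Icc]
      omega

theorem sum_Icc2 (t : ℝ) (ht : 0 < t) (n : ℕ) :
    ∑ j ∈ Finset.Icc (-(n : ℤ)) n, Real.exp (-(|(j : ℝ)| * t)) ≤ 2 * (1 + t⁻¹) := by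
  have hq1 : Real.exp (-t) < 1 := by
    rw [← Real.exp_zero]
    exact Real.exp_lt_exp.2 (by linarith)
  have hq0 : 0 ≤ Real.exp (-t) := (Real.exp_pos _).le
  have h1 : ∀ j : ℤ, Real.exp (-(|(j : ℝ)| * t)) = Real.exp (-t) ^ j.natAbs := by
    intro j
    rw [← Real.exp_nat_mul, Nat.cast_natAbs, Int.cast_abs]
    congr 1
    ring
  rw [Finset.sum_congr rfl fun j _ => h1 j]
  refine (sum_Icc _ n).trans ?_
  have h2 : ∑ k ∈ Finset.range (n + 1), Real.exp (-t) ^ k ≤ (1 - Real.exp (-t))⁻¹ := by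
    rw [← tsum_geometric_of_lt_one hq0 hq1]
    exact (summable_geometric_of_lt_one hq0 hq1).sum_le_tsum _ fun k _ => by positivity
  have h3 : (1 - Real.exp (-t))⁻¹ ≤ 1 + t⁻¹ := by
    have h4 : Real.exp (-t) ≤ (1 + t)⁻¹ := by
      rw [Real.exp_neg]
      apply inv_anti₀ (by positivity)
      have := Real.add_one_le_exp t
      linarith
    have h5 : t / (1 + t) ≤ 1 - Real.exp (-t) := by
      have h6 : t / (1 + t) = 1 - (1 + t)⁻¹ := by
        field_simp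
        ring
      rw [h6]
      linarith
    calc (1 - Real.exp (-t))⁻¹ ≤ (t / (1 + t))⁻¹ := inv_anti₀ (by positivity) h5
      _ = _ := by
        field_simp
        ring
  linarith

/-- the sum of the exponentials -/
theorem sum_exp (hd : 1 ≤ d) (Λ : Finset (Fin d → ℤ)) (xc : Fin d → ℤ) (ρ : ℝ) (hρ : 0 < ρ) :
    ∑ x ∈ Λ, Real.exp (-(‖x - xc‖ / ρ)) ≤ (2 * (1 + d * ρ)) ^ d := by
  classical
  have hd0 : (0 : ℝ) < d := by exact_mod_cast hd
  -- the translate fits into a box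
  obtain ⟨Λ', hΛ'⟩ : ∃ Λ', Λ' = Λ.image fun x => x - xc := ⟨_, rfl⟩
  have h1 : ∑ x ∈ Λ, Real.exp (-(‖x - xc‖ / ρ)) = ∑ x ∈ Λ', Real.exp (-(‖x‖ / ρ)) := by
    rw [hΛ', Finset.sum_image]
    intro x _ y _ h
    exact sub_left_injective h
  obtain ⟨n, hn⟩ : ∃ n : ℕ, ∀ x ∈ Λ', ∀ i, |x i| ≤ (n : ℤ) := by
    refine ⟨∑ x ∈ Λ', ∑ i, (x i).natAbs, fun x hx i => ?_⟩
    have h2 : (x i).natAbs ≤ ∑ i, (x i).natAbs :=
      Finset.single_le_sum (f := fun i => (x i).natAbs) (fun _ _ => Nat.zero_le _)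
        (Finset.mem_univ i)
    have h3 : ∑ i, (x i).natAbs ≤ ∑ x ∈ Λ', ∑ i, (x i).natAbs :=
      Finset.single_le_sum (f := fun x : Fin d → ℤ => ∑ i, (x i).natAbs)
        (fun _ _ => Nat.zero_le _) hx
    rw [Int.abs_eq_natAbs]
    exact_mod_cast h2.trans h3
  have h2 : Λ' ⊆ Fintype.piFinset fun _ : Fin d => Finset.Icc (-(n : ℤ)) n := by
    intro x hx
    rw [Fintype.mem_piFinset]
    intro i
    rw [Finset.mem_Icc, ← abs_le]
    exact hn x hx i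
  rw [h1]
  have h3 : ∀ x : Fin d → ℤ, Real.exp (-(‖x‖ / ρ)) ≤
      ∏ i, Real.exp (-(|(x i : ℝ)| * (d * ρ)⁻¹)) := by
    intro x
    rw [← Real.exp_sum]
    apply Real.exp_le_exp.2
    rw [Finset.sum_neg_distrib, ← Finset.sum_mul, neg_le_neg_iff]
    have h4 : ∑ i, |(x i : ℝ)| ≤ d * ‖x‖ := by
      have h5 : ∀ i ∈ Finset.univ, |(x i : ℝ)| ≤ ‖x‖ := by
        intro i _
        have := norm_le_pi_norm x i
        rwa [Int.norm_eq_abs] at this
      refine (Finset.sum_le_sum h5).trans (le_of_eq ?_)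
      rw [Finset.sum_const, Finset.card_univ, Fintype.card_fin, nsmul_eq_mul]
    calc (∑ i, |(x i : ℝ)|) * (d * ρ)⁻¹ ≤ d * ‖x‖ * (d * ρ)⁻¹ := by gcongr
      _ = _ := by field_simp
  calc ∑ x ∈ Λ', Real.exp (-(‖x‖ / ρ)) ≤
        ∑ x ∈ Λ', ∏ i, Real.exp (-(|(x i : ℝ)| * (d * ρ)⁻¹)) :=
        Finset.sum_le_sum fun x _ => h3 x
    _ ≤ ∑ x ∈ Fintype.piFinset fun _ : Fin d => Finset.Icc (-(n : ℤ)) n,
        ∏ i, Real.exp (-(|(x i : ℝ)| * (d * ρ)⁻¹)) :=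
        Finset.sum_le_sum_of_subset_of_nonneg h2 fun x _ _ => by positivity
    _ = ∏ _i : Fin d, ∑ j ∈ Finset.Icc (-(n : ℤ)) n, Real.exp (-(|(j : ℝ)| * (d * ρ)⁻¹)) := by
        rw [Finset.prod_univ_sum]
    _ ≤ ∏ _i : Fin d, (2 * (1 + d * ρ)) := by
        apply Finset.prod_le_prod
        · intro i _
          exact Finset.sum_nonneg fun j _ => (Real.exp_pos _).le
        · intro i _
          have := sum_Icc2 ((d * ρ)⁻¹) (by positivity) n
          rwa [inv_inv] at this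
    _ = _ := by rw [Finset.prod_const, Finset.card_univ, Fintype.card_fin]

/-- **exponentially localized functions** -/
theorem exp_loc (hd : 1 ≤ d) (Λ : Finset (Fin d → ℤ)) (u : (Fin d → ℤ) → ℂ) (xc : Fin d → ℤ)
    (A ξ ℓ : ℝ) (hA : 0 ≤ A) (hξ : 0 < ξ)
    (hu : ∀ x ∈ Λ, ‖u x‖ ≤ A * Real.exp (-(‖x - xc‖ / ξ))) :
    ∑ x0 ∈ Λ, ‖u x0‖ * Real.sqrt (∑ x ∈ Λ, (if ℓ < ‖x - x0‖ then ‖u x‖ ^ 2 else 0)) ≤
      A ^ 2 * Real.exp (-(ℓ / (2 * ξ))) * ((2 * (1 + d * (2 * ξ))) ^ d) ^ 2 := by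
  obtain ⟨T, hT⟩ : ∃ T, T = (2 * (1 + (d : ℝ) * (2 * ξ))) ^ d := ⟨_, rfl⟩
  have hd0 : (0 : ℝ) ≤ d := Nat.cast_nonneg d
  have hT1 : 1 ≤ T := by
    rw [hT]
    apply one_le_pow₀
    have : 0 ≤ (d : ℝ) * (2 * ξ) := by positivity
    linarith
  have h2 := sum_exp hd Λ xc (2 * ξ) (by positivity)
  rw [← hT] at h2 ⊢
  have hin : ∀ x0 ∈ Λ, ‖u x0‖ * Real.sqrt (∑ x ∈ Λ, (if ℓ < ‖x - x0‖ then ‖u x‖ ^ 2 else 0)) ≤
      A ^ 2 * Real.exp (-(ℓ / (2 * ξ))) * T * Real.exp (-(‖x0 - xc‖ / (2 * ξ))) := by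
    intro x0 hx0
    have h3 : ∑ x ∈ Λ, (if ℓ < ‖x - x0‖ then ‖u x‖ ^ 2 else 0) ≤
        (A * Real.exp (-(ℓ / (2 * ξ))) * Real.exp (‖x0 - xc‖ / (2 * ξ)) * T) ^ 2 := by
      have h4 : ∀ x ∈ Λ, (if ℓ < ‖x - x0‖ then ‖u x‖ ^ 2 else 0) ≤
          (A * Real.exp (-(ℓ / (2 * ξ))) * Real.exp (‖x0 - xc‖ / (2 * ξ))) ^ 2 *
            Real.exp (-(‖x - xc‖ / (2 * ξ))) := by
        intro x hx
        by_cases hℓ : ℓ < ‖x - x0‖
        · rw [if_pos hℓ]
          have h5 : ℓ ≤ ‖x - xc‖ + ‖x0 - xc‖ := by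
            have h6 := norm_sub_le (x - xc) (x0 - xc)
            rw [sub_sub_sub_cancel_right] at h6
            linarith
          have h7 : ‖u x‖ ^ 2 ≤ (A * Real.exp (-(‖x - xc‖ / ξ))) ^ 2 :=
            pow_le_pow_left₀ (norm_nonneg _) (hu x hx) 2
          refine h7.trans ?_
          rw [mul_pow, mul_pow, mul_pow, ← Real.exp_nat_mul, ← Real.exp_nat_mul,
            ← Real.exp_nat_mul, mul_assoc (A ^ 2), mul_assoc (A ^ 2), ← Real.exp_add,
            ← Real.exp_add]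
          apply mul_le_mul_of_nonneg_left _ (sq_nonneg A)
          apply Real.exp_le_exp.2
          have h8 : 0 ≤ ‖x - xc‖ / ξ := by positivity
          have h9 : ℓ / ξ ≤ ‖x - xc‖ / ξ + ‖x0 - xc‖ / ξ := by
            rw [← add_div]
            gcongr
          have e1 : ℓ / (2 * ξ) = (ℓ / ξ) / 2 := by field_simp
          have e2 : ‖x0 - xc‖ / (2 * ξ) = (‖x0 - xc‖ / ξ) / 2 := by field_simp
          have e3 : ‖x - xc‖ / (2 * ξ) = (‖x - xc‖ / ξ) / 2 := by field_simp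
          rw [e1, e2, e3]
          push_cast
          linarith
        · rw [if_neg hℓ]
          positivity
      refine (Finset.sum_le_sum h4).trans ?_
      rw [← Finset.mul_sum, mul_pow _ T]
      apply mul_le_mul_of_nonneg_left _ (sq_nonneg _)
      refine h2.trans ?_
      nlinarith
    have h5 : Real.sqrt (∑ x ∈ Λ, (if ℓ < ‖x - x0‖ then ‖u x‖ ^ 2 else 0)) ≤
        A * Real.exp (-(ℓ / (2 * ξ))) * Real.exp (‖x0 - xc‖ / (2 * ξ)) * T := by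
      rw [← Real.sqrt_sq (show 0 ≤ A * Real.exp (-(ℓ / (2 * ξ))) *
        Real.exp (‖x0 - xc‖ / (2 * ξ)) * T by positivity)]
      exact Real.sqrt_le_sqrt h3
    calc ‖u x0‖ * Real.sqrt (∑ x ∈ Λ, (if ℓ < ‖x - x0‖ then ‖u x‖ ^ 2 else 0)) ≤
          (A * Real.exp (-(‖x0 - xc‖ / ξ))) * (A * Real.exp (-(ℓ / (2 * ξ))) *
            Real.exp (‖x0 - xc‖ / (2 * ξ)) * T) :=
          mul_le_mul (hu x0 hx0) h5 (Real.sqrt_nonneg _) (by positivity)
      _ = A ^ 2 * Real.exp (-(ℓ / (2 * ξ))) * T *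
          (Real.exp (-(‖x0 - xc‖ / ξ)) * Real.exp (‖x0 - xc‖ / (2 * ξ))) := by ring
      _ = _ := by
          rw [← Real.exp_add]
          congr 2
          field_simp
          ring
  refine (Finset.sum_le_sum hin).trans ?_
  rw [← Finset.mul_sum, sq T, ← mul_assoc]
  gcongr

end Pool.Agent.X133.LL
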