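import Mathlib

/-! The mass near the origin from the characteristic function. -/

set_option autoImplicit false

open scoped BigOperators

namespace Pool.Agent.X133.LL

open Finset

/-- the Fejér kernel -/
noncomputable def Fe (N : ℕ) (y : ℝ) : ℝ :=
  ∑ j ∈ range N, ∑ l ∈ range N, Real.cos (((j : ℝ) - l) * y)

theorem Fe_eq (N : ℕ) (y : ℝ) : Fe N y =
    (∑ j ∈ range N, Real.cos (j * y)) ^ 2 + (∑ j ∈ range N, Real.sin (j * y)) ^ 2 := by
  unfold Fe
  rw [sq, sq, Finset.sum_mul_sum, Finset.sum_mul_sum, ← Finset.sum_add_distrib]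
  refine Finset.sum_congr rfl fun j _ => ?_
  rw [← Finset.sum_add_distrib]
  refine Finset.sum_congr rfl fun l _ => ?_
  rw [sub_mul, Real.cos_sub]

theorem Fe_nonneg (N : ℕ) (y : ℝ) : 0 ≤ Fe N y := by
  rw [Fe_eq]
  positivity

theorem Fe_low (N : ℕ) (y : ℝ) (hy : |N * y| ≤ 1) : (N : ℝ) ^ 2 / 2 ≤ Fe N y := by
  unfold Fe
  have h : ∀ j ∈ range N, ∀ l ∈ range N, (1 : ℝ) / 2 ≤ Real.cos (((j : ℝ) - l) * y) := by
    intro j hj l hl
    rw [Finset.mem_range] at hj hl
    have hj' : (j : ℝ) ≤ N := by exact_mod_cast hj.le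
    have hl' : (l : ℝ) ≤ N := by exact_mod_cast hl.le
    have hj0 : (0 : ℝ) ≤ j := Nat.cast_nonneg j
    have hl0 : (0 : ℝ) ≤ l := Nat.cast_nonneg l
    have h1 : |((j : ℝ) - l) * y| ≤ 1 := by
      refine le_trans ?_ hy
      have hNN : (0 : ℝ) ≤ N := Nat.cast_nonneg N
      rw [abs_mul, abs_mul (N : ℝ), abs_of_nonneg hNN]
      apply mul_le_mul_of_nonneg_right _ (abs_nonneg y)
      rw [abs_le]
      constructor <;> linarith
    have h2 := Real.one_sub_sq_div_two_le_cos (x := ((j : ℝ) - l) * y)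
    have h3 : (((j : ℝ) - l) * y) ^ 2 ≤ 1 := by
      rw [← sq_abs]
      exact pow_le_one₀ (abs_nonneg _) h1
    linarith
  calc (N : ℝ) ^ 2 / 2 = ∑ _j ∈ range N, ∑ _l ∈ range N, (1 : ℝ) / 2 := by
        simp only [Finset.sum_const, Finset.card_range, nsmul_eq_mul]
        ring
    _ ≤ _ := Finset.sum_le_sum fun j hj => Finset.sum_le_sum fun l hl => h j hj l hl

/-- few pairs are close -/
theorem close_card (N m j : ℕ) :
    (((range N).filter fun l : ℕ => |(j : ℝ) - l| < m).card : ℝ) ≤ 2 * m := by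
  have h1 : ((range N).filter fun l : ℕ => |(j : ℝ) - l| < m) ⊆ Finset.Ico (j + 1 - m) (j + m) := by
    intro l hl
    rw [Finset.mem_filter, abs_lt] at hl
    obtain ⟨-, h2, h3⟩ := hl
    rw [Finset.mem_Ico]
    have h4 : (l : ℝ) < j + m := by linarith
    have h5 : (j : ℝ) < l + m := by linarith
    have h4' : l < j + m := by exact_mod_cast h4
    have h5' : j < l + m := by exact_mod_cast h5
    omega
  have h2 := Finset.card_le_card h1
  rw [Nat.card_Ico] at h2
  have h3 : ((range N).filter fun l : ℕ => |(j : ℝ) - l| < m).card ≤ 2 * m := by omega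
  exact_mod_cast h3

/-- the average of the profile -/
theorem fejer_small (D ε : ℝ) (hD : 0 < D) (hε : 0 < ε) : ∃ N : ℕ, 1 ≤ N ∧
    ∑ j ∈ range N, ∑ l ∈ range N, 1 / (1 + ((j : ℝ) - l) ^ 2 * D) ≤ ε * (N : ℝ) ^ 2 := by
  obtain ⟨m, hm⟩ := exists_nat_ge (max 1 (2 / (D * ε)))
  have hm1 : (1 : ℝ) ≤ m := (le_max_left _ _).trans hm
  have hm2 : 2 / (D * ε) ≤ m := (le_max_right _ _).trans hm
  obtain ⟨N, hN⟩ := exists_nat_ge (max 1 (4 * m / ε))
  have hN1 : (1 : ℝ) ≤ N := (le_max_left _ _).trans hN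
  have hN2 : 4 * m / ε ≤ N := (le_max_right _ _).trans hN
  refine ⟨N, by exact_mod_cast hN1, ?_⟩
  have hin : ∀ j ∈ range N, ∑ l ∈ range N, 1 / (1 + ((j : ℝ) - l) ^ 2 * D) ≤ ε * N := by
    intro j _
    have h1 : ∀ l ∈ range N, 1 / (1 + ((j : ℝ) - l) ^ 2 * D) ≤
        (if |(j : ℝ) - l| < m then 1 else 0) + ε / 2 := by
      intro l _
      have hp : 0 < 1 + ((j : ℝ) - l) ^ 2 * D := by positivity
      by_cases h : |(j : ℝ) - l| < m
      · rw [if_pos h]
        have h2 : 1 / (1 + ((j : ℝ) - l) ^ 2 * D) ≤ 1 := by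
          rw [div_le_one hp]
          have : 0 ≤ ((j : ℝ) - l) ^ 2 * D := by positivity
          linarith
        linarith
      · rw [if_neg h, zero_add, div_le_iff₀ hp]
        have h3 : (m : ℝ) ≤ ((j : ℝ) - l) ^ 2 := by
          have h4 : (m : ℝ) ^ 2 ≤ ((j : ℝ) - l) ^ 2 := by
            rw [← sq_abs ((j : ℝ) - l)]
            exact pow_le_pow_left₀ (Nat.cast_nonneg m) (not_lt.1 h) 2
          nlinarith
        rw [div_le_iff₀ (by positivity)] at hm2
        have h5 : (m : ℝ) * (D * ε) ≤ ((j : ℝ) - l) ^ 2 * (D * ε) := by gcongr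
        nlinarith
    refine (Finset.sum_le_sum h1).trans ?_
    rw [Finset.sum_add_distrib, ← Finset.sum_filter, Finset.sum_const, Finset.sum_const,
      Finset.card_range, nsmul_eq_mul, nsmul_eq_mul, mul_one]
    have h6 := close_card N m j
    rw [div_le_iff₀ hε] at hN2
    nlinarith
  calc _ ≤ ∑ _j ∈ range N, ε * N := Finset.sum_le_sum hin
    _ = ε * (N : ℝ) ^ 2 := by
      rw [Finset.sum_const, Finset.card_range, nsmul_eq_mul]
      ring

theorem fejer_mono (D D' : ℝ) (hD : 0 < D) (hDD : D ≤ D') (N : ℕ) :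
    ∑ j ∈ range N, ∑ l ∈ range N, 1 / (1 + ((j : ℝ) - l) ^ 2 * D') ≤
    ∑ j ∈ range N, ∑ l ∈ range N, 1 / (1 + ((j : ℝ) - l) ^ 2 * D) := by
  refine Finset.sum_le_sum fun j _ => Finset.sum_le_sum fun l _ => ?_
  have h1 : 0 ≤ ((j : ℝ) - l) ^ 2 := sq_nonneg _
  apply one_div_le_one_div_of_le (by positivity)
  gcongr

/-- **the mass near the origin** -/
theorem mass {X : Type*} (f g : X → ℝ) (hf0 : ∀ y, 0 ≤ f y) (hf : Summable f) (N : ℕ) (hN : 1 ≤ N)
    (η G0 D ε err : ℝ) (hη : 0 < η) (hG0 : 0 ≤ G0)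
    (h : ∀ j ∈ range N, ∀ l ∈ range N, |η * ∑' y, Real.cos (((j : ℝ) - l) * g y) * f y -
      G0 / (1 + ((j : ℝ) - l) ^ 2 * D)| ≤ err)
    (hE : ∑ j ∈ range N, ∑ l ∈ range N, 1 / (1 + ((j : ℝ) - l) ^ 2 * D) ≤ ε * (N : ℝ) ^ 2)
    (P : X → Prop) [DecidablePred P] (hP : ∀ y, P y → |(N : ℝ) * g y| ≤ 1) :
    η * ∑' y, (if P y then f y else 0) ≤ 2 * (G0 * ε + err) := by
  have hN0 : (0 : ℝ) < N := by
    have : 0 < N := by omega
    exact_mod_cast this
  have hc : ∀ t : ℝ, Summable fun y => Real.cos (t * g y) * f y := by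
    intro t
    refine Summable.of_norm_bounded hf fun y => ?_
    rw [norm_mul, Real.norm_eq_abs, Real.norm_of_nonneg (hf0 y)]
    exact mul_le_of_le_one_left (hf0 y) (Real.abs_cos_le_one _)
  have hF : ∀ y, Fe N (g y) * f y =
      ∑ j ∈ range N, ∑ l ∈ range N, Real.cos (((j : ℝ) - l) * g y) * f y := by
    intro y
    unfold Fe
    rw [Finset.sum_mul]
    exact Finset.sum_congr rfl fun j _ => Finset.sum_mul _ _ _
  have hFs : Summable fun y => Fe N (g y) * f y := by
    simp only [hF]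
    exact summable_sum fun j _ => summable_sum fun l _ => hc _
  have h1 : ∑' y, Fe N (g y) * f y =
      ∑ j ∈ range N, ∑ l ∈ range N, ∑' y, Real.cos (((j : ℝ) - l) * g y) * f y := by
    simp only [hF]
    rw [Summable.tsum_finsetSum fun j _ => summable_sum fun l _ => hc _]
    exact Finset.sum_congr rfl fun j _ => Summable.tsum_finsetSum fun l _ => hc _
  have h2 : η * ∑' y, Fe N (g y) * f y ≤ G0 * (ε * (N : ℝ) ^ 2) + err * (N : ℝ) ^ 2 := by
    rw [h1, Finset.mul_sum]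
    have h3 : ∀ j ∈ range N, η * ∑ l ∈ range N, ∑' y, Real.cos (((j : ℝ) - l) * g y) * f y ≤
        ∑ l ∈ range N, (G0 * (1 / (1 + ((j : ℝ) - l) ^ 2 * D)) + err) := by
      intro j hj
      rw [Finset.mul_sum]
      refine Finset.sum_le_sum fun l hl => ?_
      have h4 := (abs_le.1 (h j hj l hl)).2
      rw [mul_one_div]
      linarith
    refine (Finset.sum_le_sum h3).trans ?_
    simp only [Finset.sum_add_distrib, Finset.sum_const, Finset.card_range, nsmul_eq_mul,
      ← Finset.mul_sum]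
    have h5 := mul_le_mul_of_nonneg_left hE hG0
    nlinarith
  have h3 : (N : ℝ) ^ 2 / 2 * ∑' y, (if P y then f y else 0) ≤ ∑' y, Fe N (g y) * f y := by
    rw [← tsum_mul_left]
    have hs : Summable fun y => (if P y then f y else 0) := by
      refine Summable.of_nonneg_of_le (fun y => ?_) (fun y => ?_) hf
      · split_ifs
        · exact hf0 y
        · exact le_rfl
      · split_ifs
        · exact le_rfl
        · exact hf0 y
    refine (hs.mul_left _).tsum_le_tsum (fun y => ?_) hFs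
    by_cases hy : P y
    · rw [if_pos hy]
      exact mul_le_mul_of_nonneg_right (Fe_low N (g y) (hP y hy)) (hf0 y)
    · rw [if_neg hy, mul_zero]
      exact mul_nonneg (Fe_nonneg N _) (hf0 y)
  have hN2 : 0 < (N : ℝ) ^ 2 / 2 := by positivity
  have h4 : (N : ℝ) ^ 2 / 2 * (η * ∑' y, (if P y then f y else 0)) ≤
      (N : ℝ) ^ 2 / 2 * (2 * (G0 * ε + err)) := by
    have h5 := mul_le_mul_of_nonneg_left h3 hη.le
    nlinarith
  exact le_of_mul_le_mul_left h4 hN2

end Pool.Agent.X133.LL
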