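import Mathlib

/-! The maximal inequality for the shifts of a product measure on `ℤ^d`. -/

set_option autoImplicit false

open scoped BigOperators ENNReal
open MeasureTheory Metric

namespace Pool.Agent.X133.LL

variable {d : ℕ}

/-- the box of radius `L` around `x` -/
noncomputable def Bx (x : Fin d → ℤ) (L : ℕ) : Finset (Fin d → ℤ) :=
  Fintype.piFinset fun i => Finset.Icc (x i - L) (x i + L)

theorem mem_Bx {x y : Fin d → ℤ} {L : ℕ} : y ∈ Bx x L ↔ y ∈ closedBall x (L : ℝ) := by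
  unfold Bx
  rw [Fintype.mem_piFinset, mem_closedBall, dist_pi_le_iff (Nat.cast_nonneg L)]
  refine forall_congr' fun i => ?_
  rw [Finset.mem_Icc, Int.dist_eq, abs_le]
  constructor
  · rintro ⟨h1, h2⟩
    have h1' : (x i : ℝ) - L ≤ y i := by exact_mod_cast h1
    have h2' : (y i : ℝ) ≤ x i + L := by exact_mod_cast h2
    constructor <;> linarith
  · rintro ⟨h1, h2⟩
    have h1' : (x i : ℝ) - L ≤ y i := by linarith
    have h2' : (y i : ℝ) ≤ x i + L := by linarith
    exact ⟨by exact_mod_cast h1', by exact_mod_cast h2'⟩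

theorem card_Bx (x : Fin d → ℤ) (L : ℕ) : (Bx x L).card = (2 * L + 1) ^ d := by
  unfold Bx
  rw [Fintype.card_piFinset]
  have h : ∀ i, (Finset.Icc (x i - L) (x i + L)).card = 2 * L + 1 := by
    intro i
    rw [Int.card_Icc]
    omega
  rw [Finset.prod_congr rfl fun i _ => h i, Finset.prod_const, Finset.card_univ, Fintype.card_fin]

/-- the covering argument -/
theorem maxi (A : (Fin d → ℤ) → Prop) [DecidablePred A] (δ : ℝ)
    (X : Finset (Fin d → ℤ)) (Lx : (Fin d → ℤ) → ℕ) (K M : ℕ) (hX : X ⊆ Bx 0 K)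
    (hL : ∀ x ∈ X, Lx x ≤ M ∧ δ * ((Bx x (Lx x)).card : ℝ) ≤ ((Bx x (Lx x)).filter A).card)
    (hδ : 0 < δ) :
    δ * (X.card : ℝ) ≤ 5 ^ d * ((Bx 0 (K + M)).filter A).card := by
  classical
  obtain ⟨u, hu, hdis, hcov⟩ := Vitali.exists_disjoint_subfamily_covering_enlargement_closedBall
    (X : Set (Fin d → ℤ)) id (fun x => (Lx x : ℝ)) M
    (fun x hx => by exact_mod_cast (hL x hx).1) 5 (by norm_num)
  obtain ⟨U, hU⟩ : ∃ U, U = X.filter fun x => x ∈ u := ⟨_, rfl⟩
  have hUX : U ⊆ X := by rw [hU]; exact Finset.filter_subset _ _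
  have hmU : ∀ b, b ∈ U ↔ b ∈ u := by
    intro b
    rw [hU, Finset.mem_filter]
    exact ⟨fun h => h.2, fun h => ⟨hu h, h⟩⟩
  have h1 : X ⊆ U.biUnion fun b => Bx b (5 * Lx b) := by
    intro x hx
    obtain ⟨b, hb, hsub⟩ := hcov x hx
    rw [Finset.mem_biUnion]
    refine ⟨b, (hmU b).2 hb, ?_⟩
    rw [mem_Bx]
    have h2 : x ∈ closedBall (id x) (Lx x : ℝ) := mem_closedBall_self (Nat.cast_nonneg _)
    have h3 := hsub h2
    push_cast
    exact h3
  have h2 : (X.card : ℝ) ≤ ∑ b ∈ U, 5 ^ d * ((Bx b (Lx b)).card : ℝ) := by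
    have h3 : (X.card : ℝ) ≤ ((U.biUnion fun b => Bx b (5 * Lx b)).card : ℝ) := by
      exact_mod_cast Finset.card_le_card h1
    refine h3.trans ?_
    have h4 : ((U.biUnion fun b => Bx b (5 * Lx b)).card : ℝ) ≤
        ∑ b ∈ U, ((Bx b (5 * Lx b)).card : ℝ) := by
      exact_mod_cast Finset.card_biUnion_le
    refine h4.trans (Finset.sum_le_sum fun b _ => ?_)
    rw [card_Bx, card_Bx]
    push_cast
    rw [← mul_pow]
    apply pow_le_pow_left₀ (by positivity)
    linarith [(Nat.cast_nonneg (Lx b) : (0 : ℝ) ≤ Lx b)]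
  have hsub : ∀ b ∈ U, Bx b (Lx b) ⊆ Bx 0 (K + M) := by
    intro b hb y hy
    have hb1 := hX (hUX hb)
    have hb2 := (hL b (hUX hb)).1
    rw [mem_Bx, mem_closedBall] at hb1 hy ⊢
    have h3 := dist_triangle y b 0
    have h4 : (Lx b : ℝ) ≤ M := by exact_mod_cast hb2
    push_cast
    linarith
  have h5 : ∑ b ∈ U, (((Bx b (Lx b)).filter A).card : ℝ) ≤ ((Bx 0 (K + M)).filter A).card := by
    have h6 : (U.biUnion fun b => (Bx b (Lx b)).filter A).card =
        ∑ b ∈ U, ((Bx b (Lx b)).filter A).card := by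
      apply Finset.card_biUnion
      intro b hb b' hb' hbb
      rw [Finset.mem_coe] at hb hb'
      have h7 := hdis ((hmU b).1 hb) ((hmU b').1 hb') hbb
      rw [Function.onFun, Finset.disjoint_left]
      intro y hy hy'
      rw [Finset.mem_filter, mem_Bx] at hy hy'
      exact Set.disjoint_left.1 h7 hy.1 hy'.1
    have h8 : (U.biUnion fun b => (Bx b (Lx b)).filter A) ⊆ (Bx 0 (K + M)).filter A := by
      intro y hy
      rw [Finset.mem_biUnion] at hy
      obtain ⟨b, hb, hy⟩ := hy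
      rw [Finset.mem_filter] at hy ⊢
      exact ⟨hsub b hb hy.1, hy.2⟩
    have h9 := Finset.card_le_card h8
    rw [h6] at h9
    exact_mod_cast h9
  calc δ * (X.card : ℝ) ≤ δ * ∑ b ∈ U, 5 ^ d * ((Bx b (Lx b)).card : ℝ) := by gcongr
    _ = 5 ^ d * ∑ b ∈ U, δ * ((Bx b (Lx b)).card : ℝ) := by
        rw [Finset.mul_sum, Finset.mul_sum]
        exact Finset.sum_congr rfl fun b _ => by ring
    _ ≤ 5 ^ d * ∑ b ∈ U, (((Bx b (Lx b)).filter A).card : ℝ) := by
        gcongr with b hb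
        exact (hL b (hUX hb)).2
    _ ≤ _ := by gcongr

/-- the shift -/
def sh (x : Fin d → ℤ) (ω : (Fin d → ℤ) → ℝ) : (Fin d → ℤ) → ℝ := fun y => ω (y + x)

theorem sh_sh (x y : Fin d → ℤ) (ω : (Fin d → ℤ) → ℝ) : sh y (sh x ω) = sh (y + x) ω := by
  funext z
  unfold sh
  rw [add_assoc]

theorem sh_meas (x : Fin d → ℤ) : Measurable (sh (d := d) x) :=
  measurable_pi_lambda _ fun _ => measurable_pi_apply _

theorem sh_mp (μ : Measure ℝ) [IsProbabilityMeasure μ] (x : Fin d → ℤ) :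
    MeasurePreserving (sh (d := d) x) (Measure.infinitePi fun _ : Fin d → ℤ => μ)
      (Measure.infinitePi fun _ : Fin d → ℤ => μ) := by
  classical
  refine ⟨sh_meas x, ?_⟩
  apply Measure.eq_infinitePi
  intro s t ht
  rw [Measure.map_apply (sh_meas x) (MeasurableSet.pi s.countable_toSet fun i _ => ht i)]
  have e : (sh x) ⁻¹' (Set.pi s t) =
      Set.pi (s.map (Equiv.addRight x).toEmbedding : Finset (Fin d → ℤ)) (fun y => t (y - x)) := by
    ext v
    simp only [Set.mem_preimage, Set.mem_pi, Finset.mem_coe, Finset.mem_map,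
      Equiv.coe_toEmbedding, Equiv.coe_addRight, sh]
    constructor
    · rintro h _ ⟨y, hy, rfl⟩
      rw [add_sub_cancel_right]
      exact h y hy
    · intro h y hy
      have := h (y + x) ⟨y, hy, rfl⟩
      rwa [add_sub_cancel_right] at this
  rw [e, Measure.infinitePi_pi]
  · rw [Finset.prod_map]
    refine Finset.prod_congr rfl (fun y _ => ?_)
    have h0 : y + x - x = y := add_sub_cancel_right y x
    change μ (t (y + x - x)) = _
    rw [h0]
  · intro y hy
    rw [Finset.mem_map] at hy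
    obtain ⟨y', hy', rfl⟩ := hy
    exact ht _

open Classical in
/-- the bad sites of a box -/
noncomputable def bad (Gc : Set ((Fin d → ℤ) → ℝ)) (ω : (Fin d → ℤ) → ℝ)
    (B : Finset (Fin d → ℤ)) : Finset (Fin d → ℤ) := B.filter fun y => sh y ω ∈ Gc

theorem mem_bad {Gc : Set ((Fin d → ℤ) → ℝ)} {ω : (Fin d → ℤ) → ℝ} {B : Finset (Fin d → ℤ)}
    {y : Fin d → ℤ} : y ∈ bad Gc ω B ↔ y ∈ B ∧ sh y ω ∈ Gc := by
  classical
  unfold bad
  rw [Finset.mem_filter]

theorem bad_meas (Gc : Set ((Fin d → ℤ) → ℝ)) (hG : MeasurableSet Gc)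
    (B : Finset (Fin d → ℤ)) : Measurable fun ω => ((bad Gc ω B).card : ℝ) := by
  classical
  have h1 : (fun ω => ((bad Gc ω B).card : ℝ)) =
      fun ω => ∑ y ∈ B, (Set.indicator ((sh y) ⁻¹' Gc) (fun _ => (1 : ℝ)) ω) := by
    funext ω
    unfold bad
    rw [Finset.card_filter, Nat.cast_sum]
    refine Finset.sum_congr rfl fun y _ => ?_
    by_cases h : sh y ω ∈ Gc
    · rw [if_pos h, Set.indicator_of_mem (show ω ∈ (sh y) ⁻¹' Gc from h), Nat.cast_one]
    · rw [if_neg h, Set.indicator_of_notMem (show ω ∉ (sh y) ⁻¹' Gc from h), Nat.cast_zero]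
  rw [h1]
  exact Finset.measurable_sum _ fun y _ => measurable_const.indicator (sh_meas y hG)

theorem bad_int (μ : Measure ℝ) [IsProbabilityMeasure μ] (Gc : Set ((Fin d → ℤ) → ℝ))
    (hG : MeasurableSet Gc) (B : Finset (Fin d → ℤ)) :
    Integrable (fun ω => ((bad Gc ω B).card : ℝ)) (Measure.infinitePi fun _ : Fin d → ℤ => μ) ∧
    ∫ ω, ((bad Gc ω B).card : ℝ) ∂(Measure.infinitePi fun _ : Fin d → ℤ => μ) =
      B.card * (Measure.infinitePi fun _ : Fin d → ℤ => μ).real Gc := by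
  classical
  have h1 : (fun ω => ((bad Gc ω B).card : ℝ)) =
      fun ω => ∑ y ∈ B, (Set.indicator ((sh y) ⁻¹' Gc) (fun _ => (1 : ℝ)) ω) := by
    funext ω
    unfold bad
    rw [Finset.card_filter, Nat.cast_sum]
    refine Finset.sum_congr rfl fun y _ => ?_
    by_cases h : sh y ω ∈ Gc
    · rw [if_pos h, Set.indicator_of_mem (show ω ∈ (sh y) ⁻¹' Gc from h), Nat.cast_one]
    · rw [if_neg h, Set.indicator_of_notMem (show ω ∉ (sh y) ⁻¹' Gc from h), Nat.cast_zero]
  have h2 : ∀ y : Fin d → ℤ, Integrable (Set.indicator ((sh y) ⁻¹' Gc) fun _ => (1 : ℝ))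
      (Measure.infinitePi fun _ : Fin d → ℤ => μ) := fun y =>
    (integrable_const 1).indicator (sh_meas y hG)
  rw [h1]
  refine ⟨integrable_finsetSum _ fun y _ => h2 y, ?_⟩
  rw [integral_finsetSum _ fun y _ => h2 y]
  have h3 : ∀ y : Fin d → ℤ, ∫ ω, Set.indicator ((sh y) ⁻¹' Gc) (fun _ => (1 : ℝ)) ω
      ∂(Measure.infinitePi fun _ : Fin d → ℤ => μ) =
      (Measure.infinitePi fun _ : Fin d → ℤ => μ).real Gc := by
    intro y
    rw [integral_indicator (sh_meas y hG), setIntegral_const, smul_eq_mul, mul_one,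
      measureReal_def, measureReal_def, (sh_mp μ y).measure_preimage hG.nullMeasurableSet]
  rw [Finset.sum_congr rfl fun y _ => h3 y, Finset.sum_const, nsmul_eq_mul]

/-- **the maximal inequality** -/
theorem maximal (μ : Measure ℝ) [IsProbabilityMeasure μ] (Gc : Set ((Fin d → ℤ) → ℝ))
    (hG : MeasurableSet Gc) (δ : ℝ) (hδ : 0 < δ) :
    MeasurableSet {ω | ∃ L : ℕ, δ * ((Bx (0 : Fin d → ℤ) L).card : ℝ) <
      (bad Gc ω (Bx 0 L)).card} ∧
    (Measure.infinitePi fun _ : Fin d → ℤ => μ).real {ω | ∃ L : ℕ,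
      δ * ((Bx (0 : Fin d → ℤ) L).card : ℝ) < (bad Gc ω (Bx 0 L)).card} ≤
      10 ^ d * (Measure.infinitePi fun _ : Fin d → ℤ => μ).real Gc / δ := by
  classical
  obtain ⟨P, hP⟩ : ∃ P, P = (Measure.infinitePi fun _ : Fin d → ℤ => μ) := ⟨_, rfl⟩
  obtain ⟨E, hE⟩ : ∃ E : ℕ → Set ((Fin d → ℤ) → ℝ), E = fun M => {ω | ∃ L : ℕ, L ≤ M ∧
      δ * ((Bx (0 : Fin d → ℤ) L).card : ℝ) < (bad Gc ω (Bx 0 L)).card} := ⟨_, rfl⟩
  have hEm : ∀ M, MeasurableSet (E M) := by
    intro M
    have h1 : E M = ⋃ L : ℕ, ⋃ _ : L ≤ M, {ω | δ * ((Bx (0 : Fin d → ℤ) L).card : ℝ) <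
        (bad Gc ω (Bx 0 L)).card} := by
      rw [hE]
      ext ω
      simp
    rw [h1]
    exact MeasurableSet.iUnion fun L => MeasurableSet.iUnion fun _ =>
      measurableSet_lt measurable_const (bad_meas Gc hG _)
  have hU : {ω | ∃ L : ℕ, δ * ((Bx (0 : Fin d → ℤ) L).card : ℝ) <
      (bad Gc ω (Bx 0 L)).card} = ⋃ M, E M := by
    rw [hE]
    ext ω
    simp only [Set.mem_ofPred_eq, Set.mem_iUnion]
    constructor
    · rintro ⟨L, hL⟩
      exact ⟨L, L, le_rfl, hL⟩
    · rintro ⟨M, L, -, hL⟩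
      exact ⟨L, hL⟩
  rw [hU, ← hP]
  refine ⟨MeasurableSet.iUnion hEm, ?_⟩
  have hPp : IsProbabilityMeasure P := by rw [hP]; infer_instance
  have hbd : ∀ M, P.real (E M) ≤ 10 ^ d * P.real Gc / δ := by
    intro M
    -- the deterministic inequality
    have hdet : ∀ ω, δ * ((bad (E M) ω (Bx 0 M)).card : ℝ) ≤
        5 ^ d * (bad Gc ω (Bx 0 (M + M))).card := by
      intro ω
      have hex : ∀ x ∈ bad (E M) ω (Bx 0 M), ∃ L : ℕ, L ≤ M ∧
          δ * ((Bx x L).card : ℝ) ≤ ((Bx x L).filter fun y => sh y ω ∈ Gc).card := by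
        intro x hx
        unfold bad at hx
        rw [Finset.mem_filter] at hx
        obtain ⟨-, hx⟩ := hx
        rw [hE] at hx
        obtain ⟨L, hLM, hL⟩ := hx
        refine ⟨L, hLM, ?_⟩
        have h1 : (bad Gc (sh x ω) (Bx 0 L)).card = ((Bx x L).filter fun y => sh y ω ∈ Gc).card := by
          unfold bad
          apply Finset.card_bij (fun y _ => y + x)
          · intro y hy
            rw [Finset.mem_filter, mem_Bx, mem_closedBall] at hy ⊢
            rw [sh_sh] at hy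
            refine ⟨?_, hy.2⟩
            have h2 : dist (y + x) x = dist y 0 := by
              rw [dist_eq_norm, dist_eq_norm, add_sub_cancel_right, sub_zero]
            rw [h2]
            exact hy.1
          · intro y _ y' _ h
            exact add_right_cancel h
          · intro y hy
            refine ⟨y - x, ?_, sub_add_cancel y x⟩
            rw [Finset.mem_filter, mem_Bx, mem_closedBall] at hy ⊢
            rw [sh_sh, sub_add_cancel]
            refine ⟨?_, hy.2⟩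
            rw [dist_zero_right]
            rw [dist_eq_norm] at hy
            exact hy.1
        rw [← h1, card_Bx]
        rw [card_Bx] at hL
        exact hL.le
      choose! Lx hLx using hex
      have hsub : bad (E M) ω (Bx 0 M) ⊆ Bx 0 M := by
        unfold bad
        exact Finset.filter_subset _ _
      exact maxi (fun y => sh y ω ∈ Gc) δ (bad (E M) ω (Bx 0 M)) Lx M M hsub hLx hδ
    have i1 := bad_int μ (E M) (hEm M) (Bx 0 M)
    have i2 := bad_int μ Gc hG (Bx 0 (M + M))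
    rw [← hP] at i1 i2
    have h3 : ∫ ω, δ * ((bad (E M) ω (Bx 0 M)).card : ℝ) ∂P ≤
        ∫ ω, 5 ^ d * ((bad Gc ω (Bx 0 (M + M))).card : ℝ) ∂P :=
      integral_mono (i1.1.const_mul _) (i2.1.const_mul _) hdet
    rw [integral_const_mul, integral_const_mul, i1.2, i2.2, card_Bx, card_Bx] at h3
    have h4 : ((2 * (M + M) + 1 : ℕ) : ℝ) ^ d ≤ 2 ^ d * ((2 * M + 1 : ℕ) : ℝ) ^ d := by
      rw [← mul_pow]
      apply pow_le_pow_left₀ (by positivity)
      push_cast
      linarith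
    push_cast at h3 h4
    have h5 : (0 : ℝ) < (2 * (M : ℝ) + 1) ^ d := by positivity
    have h6 : 0 ≤ P.real Gc := measureReal_nonneg
    rw [le_div_iff₀ hδ]
    have h7 : (2 * (M : ℝ) + 1) ^ d * (P.real (E M) * δ) ≤
        (2 * (M : ℝ) + 1) ^ d * (10 ^ d * P.real Gc) := by
      calc (2 * (M : ℝ) + 1) ^ d * (P.real (E M) * δ) =
            δ * ((2 * (M : ℝ) + 1) ^ d * P.real (E M)) := by ring
        _ ≤ 5 ^ d * ((2 * ((M : ℝ) + M) + 1) ^ d * P.real Gc) := h3
        _ ≤ 5 ^ d * (2 ^ d * (2 * (M : ℝ) + 1) ^ d * P.real Gc) := by gcongr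
        _ = (2 * (M : ℝ) + 1) ^ d * ((5 * 2) ^ d * P.real Gc) := by rw [mul_pow]; ring
        _ = _ := by norm_num
    exact le_of_mul_le_mul_left h7 h5
  have hmono : Monotone E := by
    rw [hE]
    intro M M' hM ω hω
    obtain ⟨L, hL, h⟩ := hω
    exact ⟨L, hL.trans hM, h⟩
  have h10 : 0 ≤ 10 ^ d * P.real Gc / δ := by
    have : 0 ≤ P.real Gc := measureReal_nonneg
    positivity
  rw [measureReal_def]
  apply ENNReal.toReal_le_of_le_ofReal h10
  rw [hmono.measure_iUnion]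
  refine iSup_le fun M => ?_
  rw [← ENNReal.ofReal_toReal (measure_ne_top P (E M))]
  exact ENNReal.ofReal_le_ofReal (hbd M)

end Pool.Agent.X133.LL
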