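import Pool.Agent.X133.LL.Cnt
import Pool.Agent.X133.LL.Prob
import Pool.Agent.TH794.HK.FinN

/-! Most eigenfunctions of a finite box are spread over distances beyond the kinetic scale. -/

set_option autoImplicit false
set_option linter.unusedSectionVars false

open scoped BigOperators Topology
open MeasureTheory Filter Set

namespace Pool.Agent.X133.LL

open Pool.Agent.W788.BK
open Pool.Agent.H4R2.LO (Zd)
open Pool.Agent.W788.BK.Num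
open Pool.Agent.TH794.QD
open Pool.Agent.TH794.QE
open Pool.Agent.TH794.HK
open Finset (range)

variable {d : ℕ}

theorem up_final {Λ : Finset (Zd d)} {V : Zd d → ℝ} {ι : Type*} [Fintype ι] {u : ι → Zd d → ℂ}
    {En : ι → ℝ} (h : EF Λ V u En) (B : Finset (Zd d)) (hB : B ⊆ Λ) {i0 : Fin d}
    {e s G0 D r0 err ε1 C R r ℓ K ε c2 : ℝ} {N : ℕ}
    (hs : 0 < s) (hs1 : s ≤ 1) (hN : 1 ≤ N)
    (hg : ∀ x0 ∈ Λ \ B, ∃ g, Pf V i0 x0 e s G0 D r0 err N g)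
    (hdeep : ∀ x0 ∈ Λ \ B, ∀ y, y ∉ Λ → R ≤ ‖y - x0‖)
    (hwin : ∀ n, |En n - e| ≤ s) (hR : 0 < R)
    (hG0 : 0 ≤ G0) (hGC : G0 ≤ C) (herr : err ≤ 1) (herr0 : 0 ≤ err)
    (hE : ∑ j ∈ range N, ∑ l ∈ range N, 1 / (1 + ((j : ℝ) - l) ^ 2 * D) ≤ ε1 * (N : ℝ) ^ 2)
    (hε1 : 0 ≤ ε1) (hr0 : 0 ≤ r0) (hℓ : N * (r0 * ℓ) ≤ 1) (hr : 0 < r)
    (hK : 16 * (d : ℝ) ^ 3 * (s⁻¹) ^ 4 / R ^ 2 ≤ K) (hKs : K ≤ s)
    (hA : 4 * s * (r * (C + 1) + 2 * (C * ε1 + err)) + (12 + 8 / r) * K ≤ ε * s / 4)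
    (hBc : (B.card : ℝ) ≤ ε * s / 4 * Λ.card)
    (hloc : ∀ n, ∑ x0 ∈ Λ, ‖u n x0‖ *
      Real.sqrt (∑ x ∈ Λ, (if ℓ < ‖x - x0‖ then ‖u n x‖ ^ 2 else 0)) ≤ c2 / Real.sqrt s)
    (hc2 : 16 * (1 + 1 / r) * (Real.sqrt (C + 1) + 1) * c2 ≤ 1) :
    (Fintype.card ι : ℝ) ≤ ε * s * Λ.card := by
  have hd0 : (0 : ℝ) ≤ d := Nat.cast_nonneg d
  have hC0 : 0 ≤ C := hG0.trans hGC
  have hK0 : 0 ≤ K := by
    refine le_trans ?_ hK
    positivity
  have hq : 0 < Real.sqrt s := Real.sqrt_pos.2 hs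
  have h1 := count_up h B hB (4 * s * (r * (C + 1) + 2 * (C * ε1 + err)) + (12 + 8 / r) * K)
    (8 * Real.sqrt s * (1 + 1 / r) * (Real.sqrt (C + 1) + 1)) (c2 / Real.sqrt s) ℓ
    (by positivity) (by positivity)
    (fun x0 hx0 => by
      obtain ⟨g, hgx⟩ := hg x0 hx0
      exact site_A h (Finset.mem_sdiff.1 hx0).1 hs hs1 hgx hN hwin hR (hdeep x0 hx0) hG0 hGC herr
        hE hε1 hr0 hℓ hr hK hKs) hloc (by
      have h2 : 8 * Real.sqrt s * (1 + 1 / r) * (Real.sqrt (C + 1) + 1) * (c2 / Real.sqrt s) =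
          8 * (1 + 1 / r) * (Real.sqrt (C + 1) + 1) * c2 := by
        field_simp
      rw [h2]
      linarith)
  have h3 : (0 : ℝ) ≤ Λ.card := Nat.cast_nonneg _
  nlinarith

theorem low_final {Λ : Finset (Zd d)} {V : Zd d → ℝ} {ι : Type*} [Fintype ι] {u : ι → Zd d → ℂ}
    {En : ι → ℝ} (h : EF Λ V u En) (hcard : Fintype.card ι = Λ.card)
    (B : Finset (Zd d)) (hB : B ⊆ Λ) {e s G0 err m R : ℝ}
    (hs : 0 < s) (hs1 : s ≤ 1)
    (hg : ∀ x0 ∈ Λ \ B, ∃ g g', Rs d V x0 e (s / 16) g ∧ Rs d V x0 e s g' ∧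
      |s / 16 * ∑' y, ‖g y‖ ^ 2 - G0| ≤ err ∧ |s * ∑' y, ‖g' y‖ ^ 2 - G0| ≤ err)
    (hdeep : ∀ x0 ∈ Λ \ B, ∀ y, y ∉ Λ → R ≤ ‖y - x0‖) (hR : 0 < R) (hd : 1 ≤ d)
    (hm : m ≤ G0) (hm0 : 0 < m) (herr : err ≤ m / 24)
    (hK : 256 * (d : ℝ) ^ 3 * ((s / 16)⁻¹) ^ 4 / R ^ 2 ≤ m * (s / 16))
    (hBc : (B.card : ℝ) ≤ 1 / 2 * Λ.card) :
    m / 512 * s * Λ.card ≤ (Nat.card {n : ι // |En n - e| ≤ s} : ℝ) := by
  have e16 : 16 * (s / 16) = s := by ring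
  have h1 := count_low h B hB e s (s / 16 * (m / 16)) (fun x0 hx0 => by
    obtain ⟨g, g', k1, k2, k3, k4⟩ := hg x0 hx0
    have h2 := site_B (η := s / 16) h hcard (Finset.mem_sdiff.1 hx0).1 (by positivity)
      (by rw [e16]; exact hs1) k1 (by rw [e16]; exact k2) k3 (by rw [e16]; exact k4) hR
      (hdeep x0 hx0) hd hm hm0 herr hK
    rw [e16] at h2
    exact h2)
  refine le_trans ?_ h1
  have h3 : (1 : ℝ) / 2 * Λ.card ≤ Λ.card - B.card := by linarith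
  have h4 : s / 16 * (m / 16) * (1 / 2 * Λ.card) ≤ s / 16 * (m / 16) * (Λ.card - B.card) :=
    mul_le_mul_of_nonneg_left h3 (by positivity)
  refine le_trans (le_of_eq ?_) h4
  ring

/-- the shallow sites -/
theorem shallow (L R : ℕ) (hRL : R ≤ L) (hL : 0 < L) :
    (((Bx (0 : Zd d) L) \ (Bx 0 (L - R))).card : ℝ) ≤ d * R / L * (Bx (0 : Zd d) L).card := by
  have hsub : Bx (0 : Zd d) (L - R) ⊆ Bx 0 L := by
    intro x hx
    rw [mem_Bx, Metric.mem_closedBall] at hx ⊢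
    refine hx.trans ?_
    exact_mod_cast Nat.sub_le L R
  rw [Finset.card_sdiff_of_subset hsub, Nat.cast_sub (Finset.card_le_card hsub), card_Bx, card_Bx]
  push_cast [Nat.cast_sub hRL]
  have hL0 : (0 : ℝ) < L := by exact_mod_cast hL
  have hR0 : (0 : ℝ) ≤ R := Nat.cast_nonneg R
  have hRL' : (R : ℝ) ≤ L := by exact_mod_cast hRL
  have hq : 0 < 2 * (L : ℝ) + 1 := by positivity
  have h1 := one_add_mul_le_pow (a := -(2 * R / (2 * (L : ℝ) + 1))) (by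
    have h2 : 2 * (R : ℝ) / (2 * (L : ℝ) + 1) ≤ 1 := by
      rw [div_le_one hq]
      linarith
    linarith) d
  have h3 : (2 * ((L : ℝ) - R) + 1) ^ d = (2 * (L : ℝ) + 1) ^ d *
      (1 + -(2 * R / (2 * (L : ℝ) + 1))) ^ d := by
    rw [← mul_pow]
    congr 1
    field_simp
    ring
  rw [h3]
  have h4 : (0 : ℝ) < (2 * (L : ℝ) + 1) ^ d := by positivity
  have h5 : d * (2 * (R : ℝ) / (2 * (L : ℝ) + 1)) ≤ d * R / L := by
    rw [mul_div_assoc (d : ℝ) (R : ℝ) (L : ℝ)]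
    apply mul_le_mul_of_nonneg_left _ (Nat.cast_nonneg d)
    rw [div_le_div_iff₀ hq hL0]
    nlinarith
  have h6 : 1 - d * (R : ℝ) / L ≤ (1 + -(2 * R / (2 * (L : ℝ) + 1))) ^ d := by
    refine le_trans ?_ h1
    linarith
  have h7 := mul_le_mul_of_nonneg_left h6 h4.le
  linarith

theorem deep (L R : ℕ) (hRL : R ≤ L) (x0 : Zd d) (hx0 : x0 ∈ Bx (0 : Zd d) (L - R)) (y : Zd d)
    (hy : y ∉ Bx (0 : Zd d) L) : (R : ℝ) ≤ ‖y - x0‖ := by
  rw [mem_Bx, Metric.mem_closedBall, dist_zero_right] at hx0 hy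
  rw [Nat.cast_sub hRL] at hx0
  have h1 : ‖y‖ ≤ ‖y - x0‖ + ‖x0‖ := by
    have := norm_add_le (y - x0) x0
    rwa [sub_add_cancel] at this
  linarith [not_le.1 hy]

/-- the shift of the Green function -/
theorem rs_shift {V : Zd d → ℝ} {x : Zd d} {e η : ℝ} {g : Zd d → ℂ} (h : Rs d V x e η g) :
    Rs d (fun y => V (y + x)) 0 e η (fun y => g (y + x)) := by
  refine ⟨?_, fun y => ?_⟩
  · exact ((Equiv.addRight x).summable_iff (f := fun y => ‖g y‖ ^ 2)).2 h.sq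
  · have h1 := h.eq (y + x)
    have h2 : Pool.Agent.W788.LD.Spec.S (fun y => g (y + x)) y =
        Pool.Agent.W788.LD.Spec.S g (y + x) := by
      unfold Pool.Agent.W788.LD.Spec.S
      refine Finset.sum_congr rfl fun i _ => ?_
      dsimp only
      rw [add_right_comm, sub_add_eq_add_sub]
    rw [h2, h1]
    by_cases hy : y = 0
    · rw [if_pos hy, if_pos (by rw [hy, zero_add])]
    · rw [if_neg hy, if_neg (by
        intro h3
        exact hy (by simpa using h3))]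

/-- the profile from the characteristic function -/
theorem pf_of {γ0 γ1 : ℝ → ℂ} {V : Zd d → ℝ} {x : Zd d} {e s σ2 E err Kp : ℝ} {N : ℕ}
    (i0 : Fin d) (hs : 0 < s) (hσ : 0 < σ2) (hN : (N : ℝ) ^ 2 ≤ Kp) {g : Zd d → ℂ}
    (hg : Rs d V x e s g)
    (h : ∀ u : Zd d → ℂ, Rs d (fun y => V (y + x)) 0 e s u →
      ∀ p : Fin d → ℝ, ∑ i, p i ^ 2 ≤ Kp * (s * σ2) →
        ‖((s : ℝ) : ℂ) * ∑' y, ph p (y - 0) * ((‖u y‖ ^ 2 : ℝ) : ℂ) -
          ((Tg γ0 γ1 s σ2 E p : ℝ) : ℂ)‖ ≤ err) :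
    Pf V i0 x e s (γ0 E).im ((γ1 E).im / (γ0 E).im ^ 2) (Real.sqrt (s * σ2)) err N g := by
  refine ⟨hg, fun j hj l hl => ?_⟩
  rw [Finset.mem_range] at hj hl
  obtain ⟨k, hk⟩ : ∃ k : ℝ, k = (j : ℝ) - l := ⟨_, rfl⟩
  have hkN : k ^ 2 ≤ (N : ℝ) ^ 2 := by
    have hj' : (j : ℝ) ≤ N := by exact_mod_cast hj.le
    have hl' : (l : ℝ) ≤ N := by exact_mod_cast hl.le
    have hj0 : (0 : ℝ) ≤ j := Nat.cast_nonneg j
    have hl0 : (0 : ℝ) ≤ l := Nat.cast_nonneg l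
    rw [← sq_abs k]
    apply pow_le_pow_left₀ (abs_nonneg _)
    rw [hk, abs_le]
    constructor <;> linarith
  have hr2 : Real.sqrt (s * σ2) ^ 2 = s * σ2 := Real.sq_sqrt (by positivity)
  obtain ⟨r0, hr0⟩ : ∃ r0, r0 = Real.sqrt (s * σ2) := ⟨_, rfl⟩
  rw [← hr0] at hr2 ⊢
  have hp2 : ∑ i, (Pi.single (M := fun _ => ℝ) i0 (k * r0) : Fin d → ℝ) i ^ 2 = (k * r0) ^ 2 := by
    rw [Finset.sum_eq_single i0]
    · rw [Pi.single_eq_same]
    · intro i _ hi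
      rw [Pi.single_eq_of_ne hi]
      norm_num
    · intro hi
      exact absurd (Finset.mem_univ i0) hi
  have h1 := h _ (rs_shift hg) (Pi.single i0 (k * r0)) (by
    rw [hp2, mul_pow, hr2]
    have h2 : k ^ 2 ≤ Kp := hkN.trans hN
    gcongr)
  have h2 : ∑' y, ph (Pi.single i0 (k * r0)) (y - 0) * ((‖g (y + x)‖ ^ 2 : ℝ) : ℂ) =
      ∑' y, ph (Pi.single i0 (k * r0)) (y - x) * ((‖g y‖ ^ 2 : ℝ) : ℂ) := by
    rw [← (Equiv.addRight x).tsum_eq fun y => ph (Pi.single i0 (k * r0)) (y - x) *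
      ((‖g y‖ ^ 2 : ℝ) : ℂ)]
    refine tsum_congr fun y => ?_
    rw [Equiv.coe_addRight, add_sub_cancel_right, sub_zero]
  rw [h2] at h1
  have hph : ∀ y : Zd d, (ph (Pi.single i0 (k * r0)) (y - x) * ((‖g y‖ ^ 2 : ℝ) : ℂ)).re =
      Real.cos (k * (r0 * ((y i0 : ℝ) - x i0))) * ‖g y‖ ^ 2 := by
    intro y
    have h3 : ∑ i, (Pi.single (M := fun _ => ℝ) i0 (k * r0) : Fin d → ℝ) i *
        (((y - x) i : ℤ) : ℝ) = k * (r0 * ((y i0 : ℝ) - x i0)) := by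
      rw [Finset.sum_eq_single i0]
      · rw [Pi.single_eq_same, Pi.sub_apply]
        push_cast
        ring
      · intro i _ hi
        rw [Pi.single_eq_of_ne hi, zero_mul]
      · intro hi
        exact absurd (Finset.mem_univ i0) hi
    rw [Complex.re_mul_ofReal]
    unfold ph
    rw [h3, mul_comm Complex.I, Complex.exp_ofReal_mul_I_re]
  have hsum : Summable fun y => ph (Pi.single i0 (k * r0)) (y - x) * ((‖g y‖ ^ 2 : ℝ) : ℂ) := by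
    refine Summable.of_norm_bounded hg.sq fun y => ?_
    rw [norm_mul, ph_norm, one_mul, Complex.norm_real, Real.norm_of_nonneg (sq_nonneg _)]
  have hre : (((s : ℝ) : ℂ) * ∑' y, ph (Pi.single i0 (k * r0)) (y - x) *
      ((‖g y‖ ^ 2 : ℝ) : ℂ) - ((Tg γ0 γ1 s σ2 E (Pi.single i0 (k * r0)) : ℝ) : ℂ)).re =
      s * ∑' y, Real.cos (k * (r0 * ((y i0 : ℝ) - x i0))) * ‖g y‖ ^ 2 -
        (γ0 E).im / (1 + k ^ 2 * ((γ1 E).im / (γ0 E).im ^ 2)) := by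
    rw [Complex.sub_re, Complex.re_ofReal_mul, Complex.re_tsum hsum, tsum_congr hph,
      Complex.ofReal_re]
    congr 1
    unfold Tg
    rw [hp2, mul_pow, hr2, mul_div_assoc, div_self (by positivity), mul_one]
  rw [← hk, ← hre]
  exact (Complex.abs_re_le_norm _).trans h1

end Pool.Agent.X133.LL
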