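import Mathlib

/-! A perturbation estimate for orthonormal families of approximate eigenvectors. -/

set_option autoImplicit false

open scoped BigOperators

namespace Pool.Agent.X133.LL

variable {E : Type*} [NormedAddCommGroup E] [InnerProductSpace ℂ E] {ι : Type*} [Fintype ι]

theorem comb_sq {v : ι → E} (hv : Orthonormal ℂ v) (c : ι → ℂ) :
    ‖∑ n, c n • v n‖ ^ 2 = ∑ n, ‖c n‖ ^ 2 := by
  have h1 := hv.inner_sum c c Finset.univ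
  have h2 : (inner ℂ (∑ n, c n • v n) (∑ n, c n • v n) : ℂ) = ((‖∑ n, c n • v n‖ ^ 2 : ℝ) : ℂ) := by
    rw [inner_self_eq_norm_sq_to_K]
    push_cast
    rfl
  rw [h2] at h1
  have h3 : ∑ n, (starRingEnd ℂ) (c n) * c n = ((∑ n, ‖c n‖ ^ 2 : ℝ) : ℂ) := by
    push_cast
    refine Finset.sum_congr rfl fun n _ => ?_
    rw [mul_comm, Complex.mul_conj, Complex.normSq_eq_norm_sq]
    push_cast
    rfl
  rw [h3] at h1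
  exact_mod_cast h1

theorem proj_sq {v : ι → E} (hv : Orthonormal ℂ v) (w : E) :
    ‖w - ∑ n, (inner ℂ (v n) w : ℂ) • v n‖ ^ 2 = ‖w‖ ^ 2 - ∑ n, ‖(inner ℂ (v n) w : ℂ)‖ ^ 2 := by
  have h1 := comb_sq hv fun n => (inner ℂ (v n) w : ℂ)
  rw [@norm_sub_sq ℂ, h1]
  have h2 : (inner ℂ w (∑ n, (inner ℂ (v n) w : ℂ) • v n) : ℂ) =
      ((∑ n, ‖(inner ℂ (v n) w : ℂ)‖ ^ 2 : ℝ) : ℂ) := by
    rw [inner_sum]
    push_cast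
    refine Finset.sum_congr rfl fun n _ => ?_
    rw [inner_smul_right, ← inner_conj_symm w (v n), Complex.mul_conj, Complex.normSq_eq_norm_sq]
    push_cast
    rfl
  rw [h2]
  simp only [RCLike.re_to_complex, Complex.ofReal_re]
  ring

theorem bessel {v : ι → E} (hv : Orthonormal ℂ v) (w : E) :
    ∑ n, ‖(inner ℂ (v n) w : ℂ)‖ ^ 2 ≤ ‖w‖ ^ 2 := by
  have h1 := proj_sq hv w
  have h2 := sq_nonneg ‖w - ∑ n, (inner ℂ (v n) w : ℂ) • v n‖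
  linarith

theorem quot_sq (b z : ι → ℂ) (η : ℝ) (hη : 0 < η) (hz : ∀ n, η ≤ ‖z n‖) :
    ∑ n, ‖b n / z n‖ ^ 2 ≤ (η⁻¹) ^ 2 * ∑ n, ‖b n‖ ^ 2 := by
  rw [Finset.mul_sum]
  refine Finset.sum_le_sum fun n _ => ?_
  rw [norm_div, div_pow, inv_pow, div_eq_mul_inv, mul_comm]
  apply mul_le_mul_of_nonneg_right _ (sq_nonneg _)
  apply inv_anti₀ (by positivity)
  exact pow_le_pow_left₀ hη.le (hz n) 2

/-- **the perturbation estimate** -/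
theorem hilb {v : ι → E} (hv : Orthonormal ℂ v) (R : E →ₗ[ℂ] E) (hR : ∀ f, ‖R f‖ ≤ ‖f‖) (w k : E)
    (a z : ι → ℂ) (η s0 r : ℝ) (hη : 0 < η) (hz : ∀ n, η ≤ ‖z n‖)
    (hc : ∀ n, z n * (inner ℂ (v n) w : ℂ) = a n + (inner ℂ (v n) k : ℂ))
    (hs : ‖w‖ ^ 2 ≤ ‖R w‖ ^ 2 + s0) (hr : 0 < r) :
    ∑ n, ‖a n / z n‖ ^ 2 ≤ 2 * (r * ‖w‖ ^ 2 + s0 + (1 + 1 / r) *
      (2 * ((η⁻¹ * ∑ n, ‖a n‖ * ‖R (v n)‖) * (‖w‖ + η⁻¹ * ‖k‖)) + 2 * (η⁻¹ * ‖k‖) ^ 2)) +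
      2 * (η⁻¹ * ‖k‖) ^ 2 := by
  obtain ⟨c, hcd⟩ : ∃ c : ι → ℂ, c = fun n => (inner ℂ (v n) w : ℂ) := ⟨_, rfl⟩
  obtain ⟨b, hbd⟩ : ∃ b : ι → ℂ, b = fun n => (inner ℂ (v n) k : ℂ) := ⟨_, rfl⟩
  have hz0 : ∀ n, z n ≠ 0 := fun n h => by
    have := hz n
    rw [h, norm_zero] at this
    linarith
  have hcn : ∀ n, c n = a n / z n + b n / z n := by
    intro n
    have h1 := hc n
    rw [← add_div, eq_div_iff (hz0 n), hcd, hbd, mul_comm]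
    exact h1
  obtain ⟨A, hA⟩ : ∃ A : E, A = ∑ n, (a n / z n) • v n := ⟨_, rfl⟩
  obtain ⟨B, hB⟩ : ∃ B : E, B = ∑ n, (b n / z n) • v n := ⟨_, rfl⟩
  obtain ⟨P, hP⟩ : ∃ P : E, P = ∑ n, c n • v n := ⟨_, rfl⟩
  have hPAB : P = A + B := by
    rw [hP, hA, hB, ← Finset.sum_add_distrib]
    refine Finset.sum_congr rfl fun n _ => ?_
    rw [hcn, add_smul]
  have hbes : ∑ n, ‖b n‖ ^ 2 ≤ ‖k‖ ^ 2 := by rw [hbd]; exact bessel hv k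
  have hcw : ∑ n, ‖c n‖ ^ 2 ≤ ‖w‖ ^ 2 := by rw [hcd]; exact bessel hv w
  obtain ⟨κ, hκ⟩ : ∃ κ, κ = η⁻¹ * ‖k‖ := ⟨_, rfl⟩
  have hκ0 : 0 ≤ κ := by rw [hκ]; positivity
  have hBs : ∑ n, ‖b n / z n‖ ^ 2 ≤ κ ^ 2 := by
    refine (quot_sq b z η hη hz).trans ?_
    rw [hκ, mul_pow]
    gcongr
  have hB2 : ‖B‖ ^ 2 ≤ κ ^ 2 := by
    rw [hB, comb_sq hv]
    exact hBs
  have hB1 : ‖B‖ ≤ κ := (sq_le_sq₀ (norm_nonneg _) hκ0).1 hB2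
  have hP1 : ‖P‖ ≤ ‖w‖ := by
    have h1 : ‖P‖ ^ 2 ≤ ‖w‖ ^ 2 := by
      rw [hP, comb_sq hv]
      exact hcw
    exact (sq_le_sq₀ (norm_nonneg _) (norm_nonneg _)).1 h1
  have hA1 : ‖A‖ ≤ ‖w‖ + κ := by
    have h1 : A = P - B := by rw [hPAB]; abel
    rw [h1]
    exact (norm_sub_le _ _).trans (add_le_add hP1 hB1)
  obtain ⟨Lx, hL⟩ : ∃ Lx, Lx = ∑ n, ‖a n‖ * ‖R (v n)‖ := ⟨_, rfl⟩
  have hL0 : 0 ≤ Lx := by
    rw [hL]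
    exact Finset.sum_nonneg fun n _ => by positivity
  have hRA : ‖R A‖ ≤ η⁻¹ * Lx := by
    rw [hA, map_sum, hL, Finset.mul_sum]
    refine (norm_sum_le _ _).trans (Finset.sum_le_sum fun n _ => ?_)
    rw [map_smul, norm_smul, norm_div, ← mul_assoc]
    apply mul_le_mul_of_nonneg_right _ (norm_nonneg _)
    rw [div_eq_mul_inv, mul_comm]
    apply mul_le_mul_of_nonneg_right _ (norm_nonneg _)
    exact inv_anti₀ hη (hz n)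
  have hRA2 : ‖R A‖ ^ 2 ≤ η⁻¹ * Lx * (‖w‖ + κ) := by
    rw [sq]
    exact mul_le_mul hRA ((hR A).trans hA1) (norm_nonneg _) (by positivity)
  have hRP : ‖R P‖ ^ 2 ≤ 2 * (η⁻¹ * Lx * (‖w‖ + κ)) + 2 * κ ^ 2 := by
    have h1 : ‖R P‖ ≤ ‖R A‖ + ‖R B‖ := by
      rw [hPAB, map_add]
      exact norm_add_le _ _
    have h2 : ‖R B‖ ^ 2 ≤ κ ^ 2 := pow_le_pow_left₀ (norm_nonneg _) ((hR B).trans hB1) 2
    have h3 : ‖R P‖ ^ 2 ≤ (‖R A‖ + ‖R B‖) ^ 2 := pow_le_pow_left₀ (norm_nonneg _) h1 2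
    nlinarith [sq_nonneg (‖R A‖ - ‖R B‖)]
  have hwP : ‖w - P‖ ^ 2 = ‖w‖ ^ 2 - ∑ n, ‖c n‖ ^ 2 := by
    rw [hP, hcd]
    exact proj_sq hv w
  have hRw : ‖R w‖ ^ 2 ≤ (1 + r) * ‖w - P‖ ^ 2 + (1 + 1 / r) * ‖R P‖ ^ 2 := by
    have h1 : ‖R w‖ ≤ ‖w - P‖ + ‖R P‖ := by
      have h2 : R w = R (w - P) + R P := by rw [← map_add]; congr 1; abel
      rw [h2]
      exact (norm_add_le _ _).trans (add_le_add (hR _) le_rfl)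
    have h3 : ‖R w‖ ^ 2 ≤ (‖w - P‖ + ‖R P‖) ^ 2 := pow_le_pow_left₀ (norm_nonneg _) h1 2
    have h4 : 0 ≤ (r * ‖w - P‖ - ‖R P‖) ^ 2 / r := by positivity
    have h5 : (r * ‖w - P‖ - ‖R P‖) ^ 2 / r =
        r * ‖w - P‖ ^ 2 - 2 * ‖w - P‖ * ‖R P‖ + 1 / r * ‖R P‖ ^ 2 := by
      field_simp
      ring
    nlinarith
  have hc2 : ∑ n, ‖c n‖ ^ 2 ≤ r * ‖w‖ ^ 2 + s0 + (1 + 1 / r) *
      (2 * (η⁻¹ * Lx * (‖w‖ + κ)) + 2 * κ ^ 2) := by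
    have h0 : 0 ≤ ∑ n, ‖c n‖ ^ 2 := Finset.sum_nonneg fun n _ => sq_nonneg _
    have h1 : (1 + 1 / r) * ‖R P‖ ^ 2 ≤
        (1 + 1 / r) * (2 * (η⁻¹ * Lx * (‖w‖ + κ)) + 2 * κ ^ 2) := by gcongr
    rw [hwP] at hRw
    nlinarith
  have hfin : ∑ n, ‖a n / z n‖ ^ 2 ≤ 2 * ∑ n, ‖c n‖ ^ 2 + 2 * ∑ n, ‖b n / z n‖ ^ 2 := by
    rw [Finset.mul_sum, Finset.mul_sum, ← Finset.sum_add_distrib]
    refine Finset.sum_le_sum fun n _ => ?_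
    have h1 : a n / z n = c n - b n / z n := by rw [hcn]; ring
    have h2 : ‖a n / z n‖ ≤ ‖c n‖ + ‖b n / z n‖ := by
      rw [h1]
      exact norm_sub_le _ _
    nlinarith [sq_nonneg (‖c n‖ - ‖b n / z n‖), norm_nonneg (a n / z n),
      pow_le_pow_left₀ (norm_nonneg _) h2 2]
  rw [← hκ, ← hL]
  linarith

/-- the comparison with the norm of the approximate resolvent -/
theorem hilb_up {v : ι → E} (hv : Orthonormal ℂ v) (w k : E)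
    (a z : ι → ℂ) (η : ℝ) (hη : 0 < η) (hz : ∀ n, η ≤ ‖z n‖)
    (hc : ∀ n, z n * (inner ℂ (v n) w : ℂ) = a n + (inner ℂ (v n) k : ℂ)) :
    ∑ n, ‖a n / z n‖ ^ 2 ≤ 2 * ‖w‖ ^ 2 + 2 * (η⁻¹ * ‖k‖) ^ 2 := by
  have h := hilb hv (0 : E →ₗ[ℂ] E) (fun f => by simp) w k a z η (‖w‖ ^ 2) 1 hη hz hc (by simp)
    one_pos
  have hbes : ∑ n, ‖(inner ℂ (v n) k : ℂ)‖ ^ 2 ≤ ‖k‖ ^ 2 := bessel hv k
  have hcw : ∑ n, ‖(inner ℂ (v n) w : ℂ)‖ ^ 2 ≤ ‖w‖ ^ 2 := bessel hv w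
  have hBs : ∑ n, ‖(inner ℂ (v n) k : ℂ) / z n‖ ^ 2 ≤ (η⁻¹ * ‖k‖) ^ 2 := by
    refine (quot_sq _ z η hη hz).trans ?_
    rw [mul_pow]
    gcongr
  have hfin : ∑ n, ‖a n / z n‖ ^ 2 ≤ 2 * ∑ n, ‖(inner ℂ (v n) w : ℂ)‖ ^ 2 +
      2 * ∑ n, ‖(inner ℂ (v n) k : ℂ) / z n‖ ^ 2 := by
    rw [Finset.mul_sum, Finset.mul_sum, ← Finset.sum_add_distrib]
    refine Finset.sum_le_sum fun n _ => ?_
    have hz0 : z n ≠ 0 := fun h => by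
      have := hz n
      rw [h, norm_zero] at this
      linarith
    have h1 : a n / z n = (inner ℂ (v n) w : ℂ) - (inner ℂ (v n) k : ℂ) / z n := by
      field_simp
      rw [hc n]
      ring
    have h2 : ‖a n / z n‖ ≤ ‖(inner ℂ (v n) w : ℂ)‖ + ‖(inner ℂ (v n) k : ℂ) / z n‖ := by
      rw [h1]
      exact norm_sub_le _ _
    nlinarith [sq_nonneg (‖(inner ℂ (v n) w : ℂ)‖ - ‖(inner ℂ (v n) k : ℂ) / z n‖),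
      norm_nonneg (a n / z n), pow_le_pow_left₀ (norm_nonneg _) h2 2]
  linarith

/-- the comparison with the norm of the approximate resolvent, for complete families -/
theorem hilb_low {v : ι → E} (hv : Orthonormal ℂ v) (w k : E)
    (hw : ∑ n, ‖(inner ℂ (v n) w : ℂ)‖ ^ 2 = ‖w‖ ^ 2)
    (a z : ι → ℂ) (η : ℝ) (hη : 0 < η) (hz : ∀ n, η ≤ ‖z n‖)
    (hc : ∀ n, z n * (inner ℂ (v n) w : ℂ) = a n + (inner ℂ (v n) k : ℂ)) :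
    ‖w‖ ^ 2 ≤ 2 * ∑ n, ‖a n / z n‖ ^ 2 + 2 * (η⁻¹ * ‖k‖) ^ 2 := by
  have hbes : ∑ n, ‖(inner ℂ (v n) k : ℂ)‖ ^ 2 ≤ ‖k‖ ^ 2 := bessel hv k
  have hBs : ∑ n, ‖(inner ℂ (v n) k : ℂ) / z n‖ ^ 2 ≤ (η⁻¹ * ‖k‖) ^ 2 := by
    refine (quot_sq _ z η hη hz).trans ?_
    rw [mul_pow]
    gcongr
  have hfin : ∑ n, ‖(inner ℂ (v n) w : ℂ)‖ ^ 2 ≤ 2 * ∑ n, ‖a n / z n‖ ^ 2 +
      2 * ∑ n, ‖(inner ℂ (v n) k : ℂ) / z n‖ ^ 2 := by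
    rw [Finset.mul_sum, Finset.mul_sum, ← Finset.sum_add_distrib]
    refine Finset.sum_le_sum fun n _ => ?_
    have hz0 : z n ≠ 0 := fun h => by
      have := hz n
      rw [h, norm_zero] at this
      linarith
    have h1 : (inner ℂ (v n) w : ℂ) = a n / z n + (inner ℂ (v n) k : ℂ) / z n := by
      rw [← add_div, ← hc n]
      field_simp
    have h2 : ‖(inner ℂ (v n) w : ℂ)‖ ≤ ‖a n / z n‖ + ‖(inner ℂ (v n) k : ℂ) / z n‖ := by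
      rw [h1]
      exact norm_add_le _ _
    nlinarith [sq_nonneg (‖a n / z n‖ - ‖(inner ℂ (v n) k : ℂ) / z n‖),
      norm_nonneg (inner ℂ (v n) w : ℂ), pow_le_pow_left₀ (norm_nonneg _) h2 2]
  rw [← hw]
  linarith

end Pool.Agent.X133.LL
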