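import Pool.Agent.X133.LL.Hilb
import Pool.Agent.X133.LL.Fej
import Pool.Agent.X133.GA.Cut
import Pool.Agent.TH794.QE.FinA

/-! Eigenfunctions in a finite set and the Green function of the whole lattice. -/

set_option autoImplicit false

open scoped BigOperators

namespace Pool.Agent.X133.LL

open Pool.Agent.H4R2.LO (Zd)
open Pool.Agent.TH794.QE (Rs)
open Pool.Agent.X133.GA (S)

variable {d : ℕ}

/-- an orthonormal family of eigenfunctions of the restriction of `-S + V` to a finite set -/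
structure EF (Λ : Finset (Zd d)) (V : Zd d → ℝ) {ι : Type*} (u : ι → Zd d → ℂ)
    (En : ι → ℝ) : Prop where
  out : ∀ n x, x ∉ Λ → u n x = 0
  eig : ∀ n, ∀ x ∈ Λ, -S (u n) x + (V x : ℂ) * u n x = (En n : ℂ) * u n x
  one : ∀ n, ∑ x ∈ Λ, ‖u n x‖ ^ 2 = 1
  orth : ∀ m n, m ≠ n → ∑ x ∈ Λ, (starRingEnd ℂ) (u m x) * u n x = 0

/-- the restriction to a finite set, as a vector -/
noncomputable def toE (Λ : Finset (Zd d)) (f : Zd d → ℂ) : EuclideanSpace ℂ Λ :=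
  WithLp.toLp 2 fun x : Λ => f x

theorem inner_toE (Λ : Finset (Zd d)) (f g : Zd d → ℂ) :
    (inner ℂ (toE Λ f) (toE Λ g) : ℂ) = ∑ x ∈ Λ, (starRingEnd ℂ) (f x) * g x := by
  unfold toE
  rw [PiLp.inner_apply, ← Finset.sum_coe_sort Λ]
  refine Finset.sum_congr rfl fun x _ => ?_
  simp only [RCLike.inner_apply]
  ring

theorem norm_toE (Λ : Finset (Zd d)) (f : Zd d → ℂ) :
    ‖toE Λ f‖ ^ 2 = ∑ x ∈ Λ, ‖f x‖ ^ 2 := by
  unfold toE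
  rw [EuclideanSpace.norm_sq_eq, ← Finset.sum_coe_sort Λ]

/-- the restriction to the sites with a property -/
noncomputable def RR (Λ : Finset (Zd d)) (P : Zd d → Prop) [DecidablePred P] :
    EuclideanSpace ℂ Λ →ₗ[ℂ] EuclideanSpace ℂ Λ where
  toFun f := WithLp.toLp 2 fun x : Λ => if P x then f x else 0
  map_add' f g := by
    ext x
    simp only [PiLp.add_apply]
    split_ifs <;> simp
  map_smul' c f := by
    ext x
    simp only [PiLp.smul_apply, RingHom.id_apply, smul_eq_mul]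
    split_ifs <;> simp

theorem RR_toE (Λ : Finset (Zd d)) (P : Zd d → Prop) [DecidablePred P] (f : Zd d → ℂ) :
    RR Λ P (toE Λ f) = toE Λ fun x => if P x then f x else 0 := rfl

theorem RR_le (Λ : Finset (Zd d)) (P : Zd d → Prop) [DecidablePred P]
    (f : EuclideanSpace ℂ Λ) : ‖RR Λ P f‖ ≤ ‖f‖ := by
  rw [← sq_le_sq₀ (norm_nonneg _) (norm_nonneg _), EuclideanSpace.norm_sq_eq,
    EuclideanSpace.norm_sq_eq]
  refine Finset.sum_le_sum fun x _ => ?_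
  have h : (RR Λ P f) x = if P x then f x else 0 := rfl
  rw [h]
  split_ifs
  · exact le_rfl
  · rw [norm_zero, zero_pow two_ne_zero]
    exact sq_nonneg _

theorem ortho {Λ : Finset (Zd d)} {V : Zd d → ℝ} {ι : Type*} {u : ι → Zd d → ℂ} {En : ι → ℝ}
    (h : EF Λ V u En) : Orthonormal ℂ fun n => toE Λ (u n) := by
  refine ⟨fun n => ?_, fun m n hmn => ?_⟩
  · have h1 := norm_toE Λ (u n)
    rw [h.one n] at h1
    have h2 := norm_nonneg (toE Λ (u n))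
    nlinarith
  · show (inner ℂ (toE Λ (u m)) (toE Λ (u n)) : ℂ) = 0
    rw [inner_toE]
    exact h.orth m n hmn

/-- the boundary term -/
noncomputable def kk (Λ : Finset (Zd d)) (g : Zd d → ℂ) : Zd d → ℂ :=
  S fun y => if y ∈ Λ then 0 else g y

theorem key {Λ : Finset (Zd d)} {V : Zd d → ℝ} {ι : Type*} {u : ι → Zd d → ℂ} {En : ι → ℝ}
    (h : EF Λ V u En) {x0 : Zd d} (hx0 : x0 ∈ Λ) {e η : ℝ} {g : Zd d → ℂ}
    (hg : Rs d V x0 e η g) (n : ι) :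
    ((En n : ℂ) - ((e : ℂ) + (η : ℂ) * Complex.I)) * (inner ℂ (toE Λ (u n)) (toE Λ g) : ℂ) =
      (starRingEnd ℂ) (u n x0) + (inner ℂ (toE Λ (u n)) (toE Λ (kk Λ g)) : ℂ) := by
  rw [inner_toE, inner_toE]
  have hfin : ∀ f : Zd d → ℂ, (∀ x, x ∉ Λ → f x = 0) → Summable fun x => ‖f x‖ ^ 2 := by
    intro f hf
    apply summable_of_ne_finset_zero (s := Λ)
    intro x hx
    rw [hf x hx, norm_zero]
    norm_num
  have hgi : Summable fun x => ‖(if x ∈ Λ then g x else 0)‖ ^ 2 := hfin _ fun x hx => if_neg hx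
  have h1 := Pool.Agent.X133.GA.symm (u n) (fun x => if x ∈ Λ then g x else 0)
    (hfin _ (h.out n)) hgi
  rw [tsum_eq_sum (s := Λ) (fun x hx => by rw [h.out n x hx]; simp),
    tsum_eq_sum (s := Λ) (fun x hx => by rw [if_neg hx, mul_zero])] at h1
  have h2 : ∀ x, S (fun x => if x ∈ Λ then g x else 0) x = S g x - kk Λ g x := by
    intro x
    unfold kk S
    rw [← Finset.sum_sub_distrib]
    refine Finset.sum_congr rfl fun i _ => ?_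
    dsimp only
    split_ifs <;> ring
  have h3 : ∑ x ∈ Λ, (starRingEnd ℂ) (S (u n) x) * (if x ∈ Λ then g x else 0) =
      ∑ x ∈ Λ, (starRingEnd ℂ) (S (u n) x) * g x :=
    Finset.sum_congr rfl fun x hx => by rw [if_pos hx]
  rw [h3] at h1
  simp only [h2] at h1
  have h4 : ∑ x ∈ Λ, (starRingEnd ℂ) (u n x) * (-S g x + (V x : ℂ) * g x -
      ((e : ℂ) + (η : ℂ) * Complex.I) * g x) = (starRingEnd ℂ) (u n x0) := by
    have h5 : ∀ x ∈ Λ, (starRingEnd ℂ) (u n x) * (-S g x + (V x : ℂ) * g x -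
      ((e : ℂ) + (η : ℂ) * Complex.I) * g x) =
      if x = x0 then (starRingEnd ℂ) (u n x0) else 0 := by
      intro x _
      have h6 : -S g x + (V x : ℂ) * g x - ((e : ℂ) + (η : ℂ) * Complex.I) * g x =
          if x = x0 then 1 else 0 := hg.eq x
      rw [h6]
      by_cases hx : x = x0
      · rw [if_pos hx, if_pos hx, hx, mul_one]
      · rw [if_neg hx, if_neg hx, mul_zero]
    rw [Finset.sum_congr rfl h5, Finset.sum_ite_eq', if_pos hx0]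
  have h7 : ∑ x ∈ Λ, (starRingEnd ℂ) ((En n : ℂ) * u n x) * g x =
      ∑ x ∈ Λ, (starRingEnd ℂ) (-S (u n) x + (V x : ℂ) * u n x) * g x :=
    Finset.sum_congr rfl fun x hx => by rw [h.eig n x hx]
  have h8 : ∑ x ∈ Λ, (starRingEnd ℂ) ((En n : ℂ) * u n x) * g x =
      (En n : ℂ) * ∑ x ∈ Λ, (starRingEnd ℂ) (u n x) * g x := by
    rw [Finset.mul_sum]
    refine Finset.sum_congr rfl fun x _ => ?_
    rw [map_mul, Complex.conj_ofReal]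
    ring
  have h9 : ∑ x ∈ Λ, (starRingEnd ℂ) (-S (u n) x + (V x : ℂ) * u n x) * g x =
      -∑ x ∈ Λ, (starRingEnd ℂ) (S (u n) x) * g x +
        ∑ x ∈ Λ, (V x : ℂ) * ((starRingEnd ℂ) (u n x) * g x) := by
    rw [← Finset.sum_neg_distrib, ← Finset.sum_add_distrib]
    refine Finset.sum_congr rfl fun x _ => ?_
    rw [map_add, map_neg, map_mul, Complex.conj_ofReal]
    ring
  have h10 : ∑ x ∈ Λ, (starRingEnd ℂ) (u n x) * (-S g x + (V x : ℂ) * g x -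
      ((e : ℂ) + (η : ℂ) * Complex.I) * g x) =
      -∑ x ∈ Λ, (starRingEnd ℂ) (u n x) * S g x +
      ∑ x ∈ Λ, (V x : ℂ) * ((starRingEnd ℂ) (u n x) * g x) -
      ((e : ℂ) + (η : ℂ) * Complex.I) * ∑ x ∈ Λ, (starRingEnd ℂ) (u n x) * g x := by
    rw [← Finset.sum_neg_distrib, ← Finset.sum_add_distrib, Finset.mul_sum,
      ← Finset.sum_sub_distrib]
    refine Finset.sum_congr rfl fun x _ => ?_
    ring
  have h11 : ∑ x ∈ Λ, (starRingEnd ℂ) (u n x) * (S g x - kk Λ g x) =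
      ∑ x ∈ Λ, (starRingEnd ℂ) (u n x) * S g x - ∑ x ∈ Λ, (starRingEnd ℂ) (u n x) * kk Λ g x := by
    rw [← Finset.sum_sub_distrib]
    exact Finset.sum_congr rfl fun x _ => by ring
  rw [h8, h9] at h7
  rw [h10] at h4
  rw [h11] at h1
  linear_combination h7 + h4 + h1

theorem z_ge (E e η : ℝ) : η ≤ ‖(E : ℂ) - ((e : ℂ) + (η : ℂ) * Complex.I)‖ := by
  have h1 := Complex.abs_im_le_norm ((E : ℂ) - ((e : ℂ) + (η : ℂ) * Complex.I))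
  simp only [Complex.sub_im, Complex.ofReal_im, Complex.add_im, Complex.mul_im, Complex.I_im,
    Complex.I_re, Complex.ofReal_re, mul_one, mul_zero, add_zero, zero_add, zero_sub,
    abs_neg] at h1
  exact (le_abs_self η).trans h1

theorem z_sq (E e η : ℝ) : ‖(E : ℂ) - ((e : ℂ) + (η : ℂ) * Complex.I)‖ ^ 2 =
    (E - e) ^ 2 + η ^ 2 := by
  rw [← Complex.normSq_eq_norm_sq, Complex.normSq_apply]
  simp only [Complex.sub_re, Complex.ofReal_re, Complex.add_re, Complex.mul_re, Complex.I_re,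
    mul_zero, Complex.ofReal_im, Complex.I_im, mul_one, sub_self, add_zero, Complex.sub_im,
    Complex.add_im, Complex.mul_im, zero_add, zero_sub]
  ring

/-- **the eigenfunctions in a window, at a site** -/
theorem site_up {Λ : Finset (Zd d)} {V : Zd d → ℝ} {ι : Type*} [Fintype ι] {u : ι → Zd d → ℂ}
    {En : ι → ℝ} (h : EF Λ V u En) {x0 : Zd d} (hx0 : x0 ∈ Λ) {e η : ℝ} (hη : 0 < η)
    {g : Zd d → ℂ} (hg : Rs d V x0 e η g) (hwin : ∀ n, |En n - e| ≤ η)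
    (P : Zd d → Prop) [DecidablePred P] (W s0 κ r : ℝ) (hr : 0 < r) (hκ0 : 0 ≤ κ)
    (hW : ∑ x ∈ Λ, ‖g x‖ ^ 2 ≤ W)
    (hs : ∑ x ∈ Λ, (if P x then 0 else ‖g x‖ ^ 2) ≤ s0)
    (hκ : ∑ x ∈ Λ, ‖kk Λ g x‖ ^ 2 ≤ κ ^ 2) :
    ∑ n, ‖u n x0‖ ^ 2 ≤ 4 * η ^ 2 * (r * W + s0 + (1 + 1 / r) * (2 * (η⁻¹ * κ) ^ 2)) +
      4 * κ ^ 2 + 8 * η * (1 + 1 / r) * (Real.sqrt W + η⁻¹ * κ) *
        ∑ n, ‖u n x0‖ * Real.sqrt (∑ x ∈ Λ, (if P x then ‖u n x‖ ^ 2 else 0)) := by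
  obtain ⟨w, hw⟩ : ∃ w, w = toE Λ g := ⟨_, rfl⟩
  obtain ⟨k, hk⟩ : ∃ k, k = toE Λ (kk Λ g) := ⟨_, rfl⟩
  have hw2 : ‖w‖ ^ 2 ≤ W := by rw [hw, norm_toE]; exact hW
  have hw1 : ‖w‖ ≤ Real.sqrt W := by
    rw [← Real.sqrt_sq (norm_nonneg w)]
    exact Real.sqrt_le_sqrt hw2
  have hk1 : ‖k‖ ≤ κ := by
    rw [← sq_le_sq₀ (norm_nonneg _) hκ0, hk, norm_toE]
    exact hκ
  have hRw : ‖w‖ ^ 2 ≤ ‖RR Λ P w‖ ^ 2 + s0 := by
    rw [hw, RR_toE, norm_toE, norm_toE]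
    have h1 : ∑ x ∈ Λ, ‖g x‖ ^ 2 = ∑ x ∈ Λ, ‖if P x then g x else 0‖ ^ 2 +
        ∑ x ∈ Λ, (if P x then 0 else ‖g x‖ ^ 2) := by
      rw [← Finset.sum_add_distrib]
      refine Finset.sum_congr rfl fun x _ => ?_
      split_ifs <;> simp
    rw [h1]
    linarith
  have hRu : ∀ n, ‖RR Λ P (toE Λ (u n))‖ =
      Real.sqrt (∑ x ∈ Λ, (if P x then ‖u n x‖ ^ 2 else 0)) := by
    intro n
    rw [← Real.sqrt_sq (norm_nonneg (RR Λ P (toE Λ (u n)))), RR_toE, norm_toE]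
    congr 1
    refine Finset.sum_congr rfl fun x _ => ?_
    split_ifs <;> simp
  have hm := hilb (ortho h) (RR Λ P) (RR_le Λ P) w k (fun n => (starRingEnd ℂ) (u n x0))
    (fun n => (En n : ℂ) - ((e : ℂ) + (η : ℂ) * Complex.I)) η s0 r hη (fun n => z_ge _ _ _)
    (fun n => by rw [hw, hk]; exact key h hx0 hg n) hRw hr
  simp only [Complex.norm_conj, hRu] at hm
  obtain ⟨Lx, hLx⟩ : ∃ Lx, Lx = ∑ n, ‖u n x0‖ * Real.sqrt (∑ x ∈ Λ, (if P x then ‖u n x‖ ^ 2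
    else 0)) := ⟨_, rfl⟩
  rw [← hLx] at hm ⊢
  have hL0 : 0 ≤ Lx := by
    rw [hLx]
    exact Finset.sum_nonneg fun n _ => by positivity
  have hlow : ∑ n, ‖u n x0‖ ^ 2 ≤ 2 * η ^ 2 * ∑ n, ‖(starRingEnd ℂ) (u n x0) /
      ((En n : ℂ) - ((e : ℂ) + (η : ℂ) * Complex.I))‖ ^ 2 := by
    rw [Finset.mul_sum]
    refine Finset.sum_le_sum fun n _ => ?_
    rw [norm_div, Complex.norm_conj, div_pow, z_sq, ← mul_div_assoc, le_div_iff₀ (by positivity)]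
    have h1 : (En n - e) ^ 2 ≤ η ^ 2 := by
      rw [← sq_abs]
      exact pow_le_pow_left₀ (abs_nonneg _) (hwin n) 2
    nlinarith [sq_nonneg ‖u n x0‖]
  have hκη : 0 ≤ η⁻¹ * κ := by positivity
  have hk2 : (η⁻¹ * ‖k‖) ^ 2 ≤ (η⁻¹ * κ) ^ 2 := by gcongr
  have b1 : r * ‖w‖ ^ 2 + s0 + (1 + 1 / r) *
      (2 * ((η⁻¹ * Lx) * (‖w‖ + η⁻¹ * ‖k‖)) + 2 * (η⁻¹ * ‖k‖) ^ 2) ≤
      r * W + s0 + (1 + 1 / r) *
      (2 * ((η⁻¹ * Lx) * (Real.sqrt W + η⁻¹ * κ)) + 2 * (η⁻¹ * κ) ^ 2) := by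
    gcongr
  have b2 : ∑ n, ‖u n x0‖ ^ 2 ≤ 2 * η ^ 2 * (2 * (r * W + s0 + (1 + 1 / r) *
      (2 * ((η⁻¹ * Lx) * (Real.sqrt W + η⁻¹ * κ)) + 2 * (η⁻¹ * κ) ^ 2)) +
      2 * (η⁻¹ * κ) ^ 2) := by
    refine hlow.trans ?_
    apply mul_le_mul_of_nonneg_left _ (by positivity)
    simp only [norm_div, Complex.norm_conj] at hm ⊢
    linarith
  refine b2.trans (le_of_eq ?_)
  field_simp
  ring

/-- **the number of eigenfunctions in a window, at a site, from below** -/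
theorem site_low {Λ : Finset (Zd d)} {V : Zd d → ℝ} {ι : Type*} [Fintype ι] {u : ι → Zd d → ℂ}
    {En : ι → ℝ} (h : EF Λ V u En) (hcard : Fintype.card ι = Λ.card) {x0 : Zd d} (hx0 : x0 ∈ Λ)
    {e η s : ℝ} (hη : 0 < η) (hs : 0 < s)
    {g g' : Zd d → ℂ} (hg : Rs d V x0 e η g) (hg' : Rs d V x0 e s g') (w W κ κ' : ℝ)
    (hw : w ≤ ∑ x ∈ Λ, ‖g x‖ ^ 2) (hW : ∑ x ∈ Λ, ‖g' x‖ ^ 2 ≤ W)
    (hκ : ∑ x ∈ Λ, ‖kk Λ g x‖ ^ 2 ≤ κ ^ 2) (hκ' : ∑ x ∈ Λ, ‖kk Λ g' x‖ ^ 2 ≤ κ' ^ 2) :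
    η ^ 2 * ((w - 2 * (η⁻¹ * κ) ^ 2) / 2 - 2 * (2 * W + 2 * (s⁻¹ * κ') ^ 2)) ≤
      ∑ n, if |En n - e| ≤ s then ‖u n x0‖ ^ 2 else 0 := by
  have hO := ortho h
  have hpar : ∑ n, ‖(inner ℂ (toE Λ (u n)) (toE Λ g) : ℂ)‖ ^ 2 = ‖toE Λ g‖ ^ 2 := by
    have hfr : Fintype.card ι = Module.finrank ℂ (EuclideanSpace ℂ Λ) := by
      rw [finrank_euclideanSpace, hcard, Fintype.card_coe]
    have hsp : ⊤ ≤ Submodule.span ℂ (Set.range fun n => toE Λ (u n)) :=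
      (hO.linearIndependent.span_eq_top_of_card_eq_finrank' hfr).ge
    have h1 := (OrthonormalBasis.mk hO hsp).sum_sq_norm_inner_right (toE Λ g)
    simpa using h1
  have h1 := hilb_low hO (toE Λ g) (toE Λ (kk Λ g)) hpar (fun n => (starRingEnd ℂ) (u n x0))
    (fun n => (En n : ℂ) - ((e : ℂ) + (η : ℂ) * Complex.I)) η hη (fun n => z_ge _ _ _)
    (fun n => key h hx0 hg n)
  have h2 := hilb_up hO (toE Λ g') (toE Λ (kk Λ g')) (fun n => (starRingEnd ℂ) (u n x0))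
    (fun n => (En n : ℂ) - ((e : ℂ) + (s : ℂ) * Complex.I)) s hs (fun n => z_ge _ _ _)
    (fun n => key h hx0 hg' n)
  simp only [norm_div, Complex.norm_conj, div_pow, z_sq, mul_pow, norm_toE] at h1 h2
  have h3 : ∑ n, ‖u n x0‖ ^ 2 / ((En n - e) ^ 2 + η ^ 2) ≤
      (η⁻¹) ^ 2 * (∑ n, if |En n - e| ≤ s then ‖u n x0‖ ^ 2 else 0) +
      2 * ∑ n, ‖u n x0‖ ^ 2 / ((En n - e) ^ 2 + s ^ 2) := by
    rw [Finset.mul_sum, Finset.mul_sum, ← Finset.sum_add_distrib]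
    refine Finset.sum_le_sum fun n _ => ?_
    have hp1 : 0 < (En n - e) ^ 2 + η ^ 2 := by positivity
    have hp2 : 0 < (En n - e) ^ 2 + s ^ 2 := by positivity
    by_cases hn : |En n - e| ≤ s
    · rw [if_pos hn]
      have h4 : ‖u n x0‖ ^ 2 / ((En n - e) ^ 2 + η ^ 2) ≤ ‖u n x0‖ ^ 2 / η ^ 2 := by
        apply div_le_div_of_nonneg_left (by positivity) (by positivity)
        nlinarith [sq_nonneg (En n - e)]
      have h5 : ‖u n x0‖ ^ 2 / η ^ 2 = (η⁻¹) ^ 2 * ‖u n x0‖ ^ 2 := by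
        rw [inv_pow, div_eq_mul_inv, mul_comm]
      have h6 : 0 ≤ ‖u n x0‖ ^ 2 / ((En n - e) ^ 2 + s ^ 2) := by positivity
      linarith
    · rw [if_neg hn, mul_zero, zero_add]
      have h4 : s ^ 2 ≤ (En n - e) ^ 2 := by
        rw [← sq_abs (En n - e)]
        exact pow_le_pow_left₀ hs.le (not_le.1 hn).le 2
      rw [← mul_div_assoc, div_le_div_iff₀ hp1 hp2]
      nlinarith [sq_nonneg ‖u n x0‖, mul_nonneg (sq_nonneg ‖u n x0‖) (sq_nonneg η)]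
  obtain ⟨T, hT⟩ : ∃ T, T = ∑ n, if |En n - e| ≤ s then ‖u n x0‖ ^ 2 else 0 := ⟨_, rfl⟩
  rw [← hT] at h3 ⊢
  obtain ⟨K, hK⟩ : ∃ K, K = ∑ x ∈ Λ, ‖kk Λ g x‖ ^ 2 := ⟨_, rfl⟩
  obtain ⟨K', hK'⟩ : ∃ K', K' = ∑ x ∈ Λ, ‖kk Λ g' x‖ ^ 2 := ⟨_, rfl⟩
  rw [← hK] at h1 hκ
  rw [← hK'] at h2 hκ'
  have h7 : (η⁻¹) ^ 2 * K ≤ (η⁻¹) ^ 2 * κ ^ 2 := by gcongr
  have h8 : (s⁻¹) ^ 2 * K' ≤ (s⁻¹) ^ 2 * κ' ^ 2 := by gcongr
  have h9 : (w - 2 * (η⁻¹ * κ) ^ 2) / 2 - 2 * (2 * W + 2 * (s⁻¹ * κ') ^ 2) ≤ (η⁻¹) ^ 2 * T := by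
    rw [mul_pow, mul_pow]
    linarith
  have h10 := mul_le_mul_of_nonneg_left h9 (show 0 ≤ η ^ 2 by positivity)
  refine h10.trans (le_of_eq ?_)
  field_simp

/-- the boundary term is small -/
theorem kk_le (Λ : Finset (Zd d)) (g : Zd d → ℂ) (hg : Summable fun x => ‖g x‖ ^ 2) :
    ∑ x ∈ Λ, ‖kk Λ g x‖ ^ 2 ≤ (2 * d) ^ 2 * ∑' x, (if x ∈ Λ then 0 else ‖g x‖ ^ 2) := by
  have e1 : (fun x => ‖(if x ∈ Λ then 0 else g x)‖ ^ 2) =
      fun x => if x ∈ Λ then 0 else ‖g x‖ ^ 2 := by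
    funext x
    split_ifs <;> simp
  have hs : Summable fun x => ‖(if x ∈ Λ then 0 else g x)‖ ^ 2 := by
    refine Summable.of_nonneg_of_le (fun x => sq_nonneg _) (fun x => ?_) hg
    split_ifs
    · rw [norm_zero, zero_pow two_ne_zero]
      exact sq_nonneg _
    · exact le_rfl
  have h1 : ∑ x ∈ Λ, ‖kk Λ g x‖ ^ 2 ≤ ∑' x, ‖kk Λ g x‖ ^ 2 :=
    (Pool.Agent.X133.GA.summ_S _ hs).sum_le_tsum Λ fun x _ => sq_nonneg _
  refine h1.trans ?_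
  have h2 : ∑' x, ‖kk Λ g x‖ ^ 2 ≤ ∑' x, 2 * d * ∑ i : Fin d,
      (‖(fun x => if x ∈ Λ then 0 else g x) (x + Pi.single i 1)‖ ^ 2 +
        ‖(fun x => if x ∈ Λ then 0 else g x) (x - Pi.single i 1)‖ ^ 2) :=
    (Pool.Agent.X133.GA.summ_S _ hs).tsum_le_tsum
      (fun x => Pool.Agent.X133.GA.S_le (fun x => if x ∈ Λ then 0 else g x) x)
      ((Pool.Agent.X133.GA.summ_nb _ hs).mul_left _)
  refine h2.trans (le_of_eq ?_)
  rw [tsum_mul_left, Pool.Agent.X133.GA.sum_nb _ hs, ← e1]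
  ring

end Pool.Agent.X133.LL
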