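import Mathlib

/-! The numbers of the localization length theorem. -/

set_option autoImplicit false

open scoped BigOperators Topology
open Filter Set

namespace Pool.Agent.X133.LL

theorem ev_pow (K ε a : ℝ) (hε : 0 < ε) (ha : 0 < a) : ∀ᶠ c in 𝓝[>] (0 : ℝ), K * c ^ a ≤ ε := by
  have h1 : Tendsto (fun c : ℝ => K * c ^ a) (𝓝[>] 0) (𝓝 (K * 0 ^ a)) :=
    ((Real.continuousAt_rpow_const 0 a (Or.inr ha.le)).tendsto.mono_left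
      nhdsWithin_le_nhds).const_mul K
  rw [Real.zero_rpow ha.ne', mul_zero] at h1
  exact (h1.eventually_lt_const hε).mono fun c hc => hc.le

theorem ev_inv (a : ℝ) (ha : 0 < a) :
    Tendsto (fun c : ℝ => c ^ (-a)) (𝓝[>] 0) atTop := by
  have h1 : Tendsto (fun c : ℝ => (c⁻¹) ^ a) (𝓝[>] 0) atTop :=
    (tendsto_rpow_atTop ha).comp tendsto_inv_nhdsGT_zero
  refine h1.congr' ?_
  filter_upwards [self_mem_nhdsWithin] with c hc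
  rw [Real.inv_rpow (le_of_lt hc), Real.rpow_neg (le_of_lt hc)]

theorem ev_exp (K a : ℝ) (n : ℕ) (ε : ℝ) (hε : 0 < ε) (ha : 0 < a) :
    ∀ᶠ c in 𝓝[>] (0 : ℝ), K * ((c ^ (-a)) ^ n * Real.exp (-c ^ (-a))) ≤ ε := by
  have h1 := (Real.tendsto_pow_mul_exp_neg_atTop_nhds_zero n).comp (ev_inv a ha)
  have h2 := h1.const_mul K
  rw [mul_zero] at h2
  exact (h2.eventually_lt_const hε).mono fun c hc => hc.le

theorem ev_prob (d : ℕ) : ∀ᶠ c in 𝓝[>] (0 : ℝ),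
    10 ^ d * Real.exp (-c ^ (-(1 / 101) : ℝ)) / c ^ 3 ≤ Real.exp (-c ^ (-(1 / 102) : ℝ)) := by
  filter_upwards [self_mem_nhdsWithin, ev_exp (10 ^ d) (1 / 102) 306 1 one_pos (by norm_num),
    (ev_inv (1 / 10302) (by norm_num)).eventually_ge_atTop 2] with c hc h1 h2
  have hc0 : (0 : ℝ) < c := hc
  obtain ⟨X, hX⟩ : ∃ X, X = c ^ (-(1 / 102) : ℝ) := ⟨_, rfl⟩
  have hX0 : 0 < X := by rw [hX]; positivity
  rw [← hX] at h1 ⊢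
  have h3 : c ^ (-(1 / 101) : ℝ) = X * c ^ (-(1 / 10302) : ℝ) := by
    rw [hX, ← Real.rpow_add hc0]
    congr 1
    norm_num
  have h4 : (c ^ 3)⁻¹ = X ^ 306 := by
    rw [hX, ← Real.rpow_natCast (c ^ (-(1 / 102) : ℝ)) 306, ← Real.rpow_mul hc0.le,
      ← Real.rpow_natCast c 3, ← Real.rpow_neg hc0.le]
    congr 1
    norm_num
  have h5 : Real.exp (-c ^ (-(1 / 101) : ℝ)) ≤ Real.exp (-X) * Real.exp (-X) := by
    rw [← Real.exp_add]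
    apply Real.exp_le_exp.2
    rw [h3]
    nlinarith
  rw [div_eq_mul_inv, h4]
  calc 10 ^ d * Real.exp (-c ^ (-(1 / 101) : ℝ)) * X ^ 306 ≤
        10 ^ d * (Real.exp (-X) * Real.exp (-X)) * X ^ 306 := by gcongr
    _ = 10 ^ d * (X ^ 306 * Real.exp (-X)) * Real.exp (-X) := by ring
    _ ≤ 1 * Real.exp (-X) := by gcongr
    _ = _ := one_mul _

/-- the scale -/
theorem scale (c s : ℝ) (hc : 0 < c) (hs : c ^ (81 / 40 : ℝ) ≤ s) :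
    (s⁻¹) ^ 4 * c ^ 12 ≤ s * c ^ (15 / 8 : ℝ) := by
  have hp : 0 < c ^ (81 / 40 : ℝ) := by positivity
  have hs0 : 0 < s := hp.trans_le hs
  have h1 : s⁻¹ ≤ c ^ (-(81 / 40) : ℝ) := by
    rw [Real.rpow_neg hc.le]
    exact inv_anti₀ hp hs
  have h2 : (s⁻¹) ^ 5 ≤ c ^ (-(81 / 8) : ℝ) := by
    have h3 : (s⁻¹) ^ 5 ≤ (c ^ (-(81 / 40) : ℝ)) ^ 5 := pow_le_pow_left₀ (by positivity) h1 5
    refine h3.trans (le_of_eq ?_)
    rw [← Real.rpow_natCast, ← Real.rpow_mul hc.le]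
    congr 1
    norm_num
  calc (s⁻¹) ^ 4 * c ^ 12 = s * ((s⁻¹) ^ 5 * c ^ 12) := by
        field_simp
    _ ≤ s * (c ^ (-(81 / 8) : ℝ) * c ^ 12) := by gcongr
    _ = s * c ^ (15 / 8 : ℝ) := by
        rw [← Real.rpow_natCast c 12, ← Real.rpow_add hc]
        congr 2
        norm_num

/-- the radius -/
theorem radius (c : ℝ) (hc : 0 < c) (hc1 : c ≤ 1) :
    (c ^ 6)⁻¹ ≤ (⌈(c ^ 6)⁻¹⌉₊ : ℝ) ∧ (⌈(c ^ 6)⁻¹⌉₊ : ℝ) ≤ 2 * (c ^ 6)⁻¹ ∧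
      0 < (⌈(c ^ 6)⁻¹⌉₊ : ℝ) := by
  have h1 : 1 ≤ (c ^ 6)⁻¹ := by
    rw [one_le_inv₀ (by positivity)]
    exact pow_le_one₀ hc.le hc1
  have h2 := Nat.le_ceil ((c ^ 6)⁻¹)
  have h3 := Nat.ceil_lt_add_one (show 0 ≤ (c ^ 6)⁻¹ by positivity)
  exact ⟨h2, by linarith, by linarith⟩

/-- the exponentially localized functions -/
theorem ev_loc (d : ℕ) (c1 : ℝ) (hc1 : 0 < c1) : ∀ᶠ c in 𝓝[>] (0 : ℝ),
    Real.exp (c ^ (-(1 / 2000) : ℝ)) ^ 2 * Real.exp (-(c1 * c ^ (-(1 / 1000) : ℝ) / 2)) *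
      ((2 * (1 + d * (2 * c ^ (-4 : ℝ)))) ^ d) ^ 2 ≤ c1 := by
  have hn := ev_exp (((2 * (1 + d * 2)) ^ d) ^ 2) (1 / 2000) (16000 * d) c1 hc1 (by norm_num)
  filter_upwards [self_mem_nhdsWithin, hn,
    (ev_inv (1 / 2000) (by norm_num)).eventually_ge_atTop (6 / c1),
    (ev_inv 4 (by norm_num)).eventually_ge_atTop 1] with c hc h1 h2 h3
  have hc0 : (0 : ℝ) < c := hc
  have hd0 : (0 : ℝ) ≤ d := Nat.cast_nonneg d
  obtain ⟨Y, hY⟩ : ∃ Y, Y = c ^ (-(1 / 2000) : ℝ) := ⟨_, rfl⟩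
  have hY0 : 0 < Y := by rw [hY]; positivity
  rw [← hY] at h1 h2 ⊢
  have h4 : c ^ (-(1 / 1000) : ℝ) = Y ^ 2 := by
    rw [hY, ← Real.rpow_natCast, ← Real.rpow_mul hc0.le]
    congr 1
    norm_num
  have h5 : c ^ (-4 : ℝ) = Y ^ 8000 := by
    rw [hY, ← Real.rpow_natCast, ← Real.rpow_mul hc0.le]
    congr 1
    norm_num
  rw [h5] at h3
  rw [h4, h5]
  have h6 : Real.exp Y ^ 2 * Real.exp (-(c1 * Y ^ 2 / 2)) ≤ Real.exp (-Y) := by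
    rw [← Real.exp_nat_mul, ← Real.exp_add]
    apply Real.exp_le_exp.2
    push_cast
    rw [div_le_iff₀ hc1] at h2
    nlinarith
  have h7 : ((2 * (1 + (d : ℝ) * (2 * Y ^ 8000))) ^ d) ^ 2 ≤
      ((2 * (1 + (d : ℝ) * 2)) ^ d) ^ 2 * Y ^ (16000 * d) := by
    have h8 : 2 * (1 + (d : ℝ) * (2 * Y ^ 8000)) ≤ 2 * (1 + (d : ℝ) * 2) * Y ^ 8000 := by
      nlinarith [mul_nonneg hd0 (sub_nonneg.2 h3)]
    have h9 : ((2 * (1 + (d : ℝ) * (2 * Y ^ 8000))) ^ d) ^ 2 ≤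
        ((2 * (1 + (d : ℝ) * 2) * Y ^ 8000) ^ d) ^ 2 := by gcongr
    refine h9.trans (le_of_eq ?_)
    rw [mul_pow, mul_pow, ← pow_mul Y, ← pow_mul Y]
    congr 2
    ring
  calc Real.exp Y ^ 2 * Real.exp (-(c1 * Y ^ 2 / 2)) *
        ((2 * (1 + (d : ℝ) * (2 * Y ^ 8000))) ^ d) ^ 2 ≤
        Real.exp (-Y) * (((2 * (1 + (d : ℝ) * 2)) ^ d) ^ 2 * Y ^ (16000 * d)) := by gcongr
    _ = ((2 * (1 + (d : ℝ) * 2)) ^ d) ^ 2 * (Y ^ (16000 * d) * Real.exp (-Y)) := by ring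
    _ ≤ c1 := h1

end Pool.Agent.X133.LL
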