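import Pool.Agent.X133.LL.Fin
import Pool.Agent.X133.LL.Num
import Pool.Agent.X133.LL.Exp

/-! The main theorem on the eigenfunctions of a finite box. -/

set_option autoImplicit false
set_option linter.unusedSectionVars false

open scoped BigOperators Topology
open MeasureTheory Filter Set

namespace Pool.Agent.X133.LL

open Pool.Agent.W788.BK
open Pool.Agent.H4R2.LO (Zd)
open Pool.Agent.W788.BK.Num
open Pool.Agent.TH794.QD
open Pool.Agent.TH794.QE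
open Pool.Agent.TH794.HK
open Finset (range)

/-- `∑ₓ |u(x)| (∑_{|y - x| > ℓ} |u(y)|²)^{1/2}` -/
noncomputable def lc {d : ℕ} (Λ : Finset (Zd d)) (ℓ : ℝ) (u : Zd d → ℂ) : ℝ :=
  ∑ x0 ∈ Λ, ‖u x0‖ * Real.sqrt (∑ x ∈ Λ, (if ℓ < ‖x - x0‖ then ‖u x‖ ^ 2 else 0))

theorem var_le (b : ℝ) (μ : Measure ℝ) [IsProbabilityMeasure μ]
    (hμ : ∀ᵐ s ∂μ, |s| ≤ b) (Mn V : ℝ) (hM : ∫ s, s ∂μ = Mn) (hV : ∫ s, (s - Mn) ^ 2 ∂μ = V) :
    V ≤ (2 * b) ^ 2 := by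
  have hM1 : |Mn| ≤ b := by
    rw [← hM, ← Real.norm_eq_abs]
    have h1 := norm_integral_le_of_norm_le_const (μ := μ) (f := fun s : ℝ => s) (C := b)
      (hμ.mono fun s hs => by rwa [Real.norm_eq_abs])
    simpa using h1
  have h2 := norm_integral_le_of_norm_le_const (μ := μ) (f := fun s : ℝ => (s - Mn) ^ 2)
    (C := (2 * b) ^ 2) (hμ.mono fun s hs => by
      rw [Real.norm_of_nonneg (sq_nonneg _), ← sq_abs]
      apply pow_le_pow_left₀ (abs_nonneg _)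
      have := abs_sub s Mn
      linarith)
  rw [hV] at h2
  simp only [probReal_univ, mul_one] at h2
  exact (Real.le_norm_self V).trans h2

theorem fin (hES : S_ES) (hTH : S_THIRD) (hFL : S_FLUCT) (hIN : S_INV)
    (hSU : S_SUP) (hQB : S_QB) (hLO : S_LOW) (hAD : S_ADM) (hFA : S_FAC) (hO : S_OSC)
    (d : ℕ) (hd : 3 ≤ d) (κ : ℝ) (hκ : 0 < κ) (hκ1 : κ ≤ 1) :
    ∃ c0 : ℝ, 0 < c0 ∧ ∀ b v ε : ℝ, 0 < b → 0 < v → 0 < ε →
    ∃ c1 : ℝ, 0 < c1 ∧ ∃ lam0 : ℝ, 0 < lam0 ∧ ∀ lam : ℝ, 0 < lam → lam ≤ lam0 →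
    ∀ (μ : Measure ℝ), IsProbabilityMeasure μ → (∀ᵐ s ∂μ, |s| ≤ b) →
    ∀ Mn V : ℝ, ∫ s, s ∂μ = Mn → ∫ s, (s - Mn) ^ 2 ∂μ = V → v ≤ V →
      ∃ G : Set (Zd d → ℝ), MeasurableSet G ∧
        1 - Real.exp (-lam ^ (-(1 / 102) : ℝ)) ≤
          (Measure.infinitePi fun _ : Zd d => μ).real G ∧
        ∀ ω ∈ G, ∀ L : ℕ, 1 / lam ^ 9 ≤ (L : ℝ) → ∀ e : ℝ, |2 * d + lam * Mn - e| ≤ 2 * d - κ →
          ∀ s : ℝ, lam ^ (83 / 41 : ℝ) ≤ s → s ≤ lam ^ (161 / 80 : ℝ) →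
          (∀ (ι : Type) [Fintype ι] (u : ι → Zd d → ℂ) (En : ι → ℝ),
            EF (Bx 0 L) (fun x => 2 * d + lam * ω x) u En →
            Fintype.card ι = (Bx (0 : Zd d) L).card →
            c0 * s * (Bx (0 : Zd d) L).card ≤ (Nat.card {n : ι // |En n - e| ≤ s} : ℝ)) ∧
          (∀ (ι : Type) [Fintype ι] (u : ι → Zd d → ℂ) (En : ι → ℝ),
            EF (Bx 0 L) (fun x => 2 * d + lam * ω x) u En → (∀ n, |En n - e| ≤ s) →
            (∀ n, lc (Bx 0 L) (c1 / (Real.sqrt s * lam)) (u n) ≤ c1 / Real.sqrt s) →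
            (Fintype.card ι : ℝ) ≤ ε * s * (Bx (0 : Zd d) L).card) ∧
          (∀ (ι : Type) [Fintype ι] (u : ι → Zd d → ℂ) (En : ι → ℝ),
            EF (Bx 0 L) (fun x => 2 * d + lam * ω x) u En → (∀ n, |En n - e| ≤ s) →
            (∀ n, ∃ xc : Zd d, ∀ x ∈ Bx (0 : Zd d) L, ‖u n x‖ ≤
              Real.exp (lam ^ (-(1 / 2000) : ℝ)) *
                Real.exp (-(‖x - xc‖ / (lam ^ (1 / 1000 : ℝ) / (Real.sqrt s * lam))))) →
            (Fintype.card ι : ℝ) ≤ ε * s * (Bx (0 : Zd d) L).card) := by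
  obtain ⟨⟨m, hm, hl⟩, hfin⟩ := finN hES hTH hFL hIN hSU hQB hLO hAD hFA hO d hd κ hκ hκ1
  have hd1 : 1 ≤ d := by omega
  have hd0 : (0 : ℝ) < d := by
    have : 0 < d := by omega
    exact_mod_cast this
  obtain ⟨C, hCd⟩ : ∃ C, C = ‖GF (F0 d) 0‖ + CH d * (2 * d : ℝ) ^ (1 / 8 : ℝ) := ⟨_, rfl⟩
  have hC : ∀ E : ℝ, |E| ≤ 2 * d - κ → (GF (F0 d) (E : ℂ)).im ≤ C := by
    intro E hE
    have h1 := hol0 hO d hd (E : ℂ) 0 (by simp) (by simp)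
    rw [sub_zero, Complex.norm_real, Real.norm_eq_abs] at h1
    have h2 : |E| ^ (1 / 8 : ℝ) ≤ (2 * d : ℝ) ^ (1 / 8 : ℝ) :=
      Real.rpow_le_rpow (abs_nonneg _) (by linarith) (by norm_num)
    have h3 := CH_nonneg d
    have h4 : (GF (F0 d) (E : ℂ)).im ≤ ‖GF (F0 d) (E : ℂ)‖ :=
      (le_abs_self _).trans (Complex.abs_im_le_norm _)
    have h5 : ‖GF (F0 d) (E : ℂ)‖ ≤ ‖GF (F0 d) 0‖ + ‖GF (F0 d) (E : ℂ) - GF (F0 d) 0‖ := by
      have := norm_add_le (GF (F0 d) 0) (GF (F0 d) (E : ℂ) - GF (F0 d) 0)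
      rwa [add_sub_cancel] at this
    have h6 : CH d * |E| ^ (1 / 8 : ℝ) ≤ CH d * (2 * d : ℝ) ^ (1 / 8 : ℝ) := by gcongr
    rw [hCd]
    linarith
  have hC0 : 0 ≤ C := by
    rw [hCd]
    have := CH_nonneg d
    positivity
  refine ⟨m / 512, by positivity, fun b v ε hb hv hε => ?_⟩
  obtain ⟨ε1, hε1d⟩ : ∃ ε1, ε1 = ε / (128 * (C + 1)) := ⟨_, rfl⟩
  obtain ⟨r, hrd⟩ : ∃ r, r = ε / (64 * (C + 1)) := ⟨_, rfl⟩
  obtain ⟨D0, hD0d⟩ : ∃ D0, D0 = m / (C + 1) ^ 2 := ⟨_, rfl⟩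
  have hε1 : 0 < ε1 := by rw [hε1d]; positivity
  have hr : 0 < r := by rw [hrd]; positivity
  have hD0 : 0 < D0 := by rw [hD0d]; positivity
  obtain ⟨N, hN, hFE⟩ := fejer_small D0 ε1 hD0 hε1
  have hN0 : (0 : ℝ) < N := by
    have : 0 < N := by omega
    exact_mod_cast this
  obtain ⟨cf, hcf, hG⟩ := hfin b v ((N : ℝ) ^ 2) hb hv (by positivity)
  obtain ⟨c1, hc1d⟩ : ∃ c1, c1 = min (1 / (16 * (1 + 1 / r) * (Real.sqrt (C + 1) + 1)))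
    (1 / (2 * b * N)) := ⟨_, rfl⟩
  have hc1 : 0 < c1 := by
    rw [hc1d]
    exact lt_min (by positivity) (by positivity)
  have hc1a : 16 * (1 + 1 / r) * (Real.sqrt (C + 1) + 1) * c1 ≤ 1 := by
    have h1 : c1 ≤ 1 / (16 * (1 + 1 / r) * (Real.sqrt (C + 1) + 1)) := by
      rw [hc1d]
      exact min_le_left _ _
    rw [le_div_iff₀ (by positivity)] at h1
    linarith
  have hc1b : 2 * b * N * c1 ≤ 1 := by
    have h1 : c1 ≤ 1 / (2 * b * N) := by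
      rw [hc1d]
      exact min_le_right _ _
    rw [le_div_iff₀ (by positivity)] at h1
    linarith
  refine ⟨c1, hc1, ?_⟩
  have hev : ∀ᶠ c in 𝓝[>] (0 : ℝ),
      (1 * c ^ (1 / 200 : ℝ) ≤ min 1 (min (ε / 128) (m / 24))) ∧
      ((12 + 8 / r) * (16 * (d : ℝ) ^ 3) * c ^ (15 / 8 : ℝ) ≤ ε / 16) ∧
      (16 * (d : ℝ) ^ 3 * c ^ (15 / 8 : ℝ) ≤ 1) ∧
      (256 * 16 ^ 5 * (d : ℝ) ^ 3 * c ^ (15 / 8 : ℝ) ≤ m) ∧
      (16 * c ^ (1 / 1640 : ℝ) ≤ 1) ∧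
      ((1 + 2 * (d : ℝ)) * c ^ (39 / 40 : ℝ) ≤ ε / 4) ∧
      ((1 + 2 * (d : ℝ)) * c ^ (3 : ℝ) ≤ 1 / 2) ∧
      (10 ^ d * Real.exp (-c ^ (-(1 / 101) : ℝ)) / c ^ 3 ≤ Real.exp (-c ^ (-(1 / 102) : ℝ))) ∧
      (Real.exp (c ^ (-(1 / 2000) : ℝ)) ^ 2 * Real.exp (-(c1 * c ^ (-(1 / 1000) : ℝ) / 2)) *
        ((2 * (1 + d * (2 * c ^ (-4 : ℝ)))) ^ d) ^ 2 ≤ c1) ∧
      (1 * c ^ (1 : ℝ) ≤ min (1 / 2) cf) := by
    filter_upwards [ev_pow 1 (min 1 (min (ε / 128) (m / 24))) (1 / 200) (by positivity)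
        (by norm_num),
      ev_pow ((12 + 8 / r) * (16 * (d : ℝ) ^ 3)) (ε / 16) (15 / 8) (by positivity) (by norm_num),
      ev_pow (16 * (d : ℝ) ^ 3) 1 (15 / 8) one_pos (by norm_num),
      ev_pow (256 * 16 ^ 5 * (d : ℝ) ^ 3) m (15 / 8) hm (by norm_num),
      ev_pow 16 1 (1 / 1640) one_pos (by norm_num),
      ev_pow (1 + 2 * (d : ℝ)) (ε / 4) (39 / 40) (by positivity) (by norm_num),
      ev_pow (1 + 2 * (d : ℝ)) (1 / 2) 3 (by norm_num) (by norm_num),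
      ev_prob d, ev_loc d c1 hc1, ev_pow 1 (min (1 / 2) cf) 1 (by positivity) one_pos]
      with c h1 h2 h3 h4 h5 h6 h7 h8 h9 h10
    exact ⟨h1, h2, h3, h4, h5, h6, h7, h8, h9, h10⟩
  obtain ⟨lam0, hlam0, hev2⟩ := mem_nhdsGT_iff_exists_Ioc_subset.1 hev
  refine ⟨lam0, hlam0, fun c hc hcl μ hμ hμb Mn V hMn hV hvV => ?_⟩
  obtain ⟨n1, n2, n3, n4, n5, n6, n7, n8, n9, n10⟩ := hev2 ⟨hc, hcl⟩
  rw [one_mul] at n1 n10
  rw [Real.rpow_one] at n10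
  have hcf1 : c ≤ cf := n10.trans (min_le_right _ _)
  have hc12 : c ≤ 1 / 2 := n10.trans (min_le_left _ _)
  have hcle : c ≤ 1 := by linarith
  have herr1 : c ^ (1 / 200 : ℝ) ≤ 1 := n1.trans (min_le_left _ _)
  have herr2 : c ^ (1 / 200 : ℝ) ≤ ε / 128 :=
    n1.trans ((min_le_right _ _).trans (min_le_left _ _))
  have herr3 : c ^ (1 / 200 : ℝ) ≤ m / 24 :=
    n1.trans ((min_le_right _ _).trans (min_le_right _ _))
  have hVpos : 0 < V := hv.trans_le hvV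
  have hVb := var_le b μ hμb Mn V hMn hV
  obtain ⟨G1, hG1m, hG1P, hG1⟩ := hG c hc hcf1 μ hμ hμb Mn V hMn hV hvV
  obtain ⟨hm1, hm2⟩ := maximal (d := d) μ G1ᶜ hG1m.compl (c ^ 3) (by positivity)
  refine ⟨{ω | ∃ L : ℕ, c ^ 3 * ((Bx (0 : Fin d → ℤ) L).card : ℝ) <
      (bad G1ᶜ ω (Bx 0 L)).card}ᶜ, hm1.compl, ?_, ?_⟩
  · rw [probReal_compl_eq_one_sub hm1]
    rw [probReal_compl_eq_one_sub hG1m] at hm2
    have h1 : 10 ^ d * (1 - (Measure.infinitePi fun _ : Zd d => μ).real G1) / c ^ 3 ≤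
        10 ^ d * Real.exp (-c ^ (-(1 / 101) : ℝ)) / c ^ 3 := by
      gcongr
      linarith
    linarith
  intro ω hω L hL e he s hs hs2
  have hbadL : ((bad G1ᶜ ω (Bx 0 L)).card : ℝ) ≤ c ^ 3 * ((Bx (0 : Fin d → ℤ) L).card : ℝ) := by
    by_contra hcon
    exact hω ⟨L, not_le.1 hcon⟩
  -- the scale
  have hs81 : c ^ (81 / 40 : ℝ) ≤ s / 16 := by
    have h1 : c ^ (81 / 40 : ℝ) = c ^ (83 / 41 : ℝ) * c ^ (1 / 1640 : ℝ) := by
      rw [← Real.rpow_add hc]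
      congr 1
      norm_num
    have h2 : 0 < c ^ (83 / 41 : ℝ) := by positivity
    rw [h1]
    nlinarith
  have hs0 : 0 < s := lt_of_lt_of_le (by positivity) hs
  have hs81' : c ^ (81 / 40 : ℝ) ≤ s := hs81.trans (by linarith)
  have hs1 : s ≤ 1 := hs2.trans (Real.rpow_le_one hc.le hcle (by norm_num))
  have hs162 : s / 16 ≤ c ^ (161 / 80 : ℝ) := by linarith
  -- the radius
  obtain ⟨R, hR⟩ : ∃ R : ℕ, R = ⌈(c ^ 6)⁻¹⌉₊ := ⟨_, rfl⟩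
  obtain ⟨hR1, hR2, hR3⟩ := radius c hc hcle
  rw [← hR] at hR1 hR2 hR3
  have hc9 : (0 : ℝ) < c ^ 9 := by positivity
  have hL0 : (0 : ℝ) < L := lt_of_lt_of_le (by positivity) hL
  have hRL1 : (R : ℝ) ≤ 2 * c ^ 3 * L := by
    have h1 : 2 * (c ^ 6)⁻¹ = 2 * c ^ 3 * (1 / c ^ 9) := by
      field_simp
    calc (R : ℝ) ≤ 2 * (c ^ 6)⁻¹ := hR2
      _ = 2 * c ^ 3 * (1 / c ^ 9) := h1
      _ ≤ 2 * c ^ 3 * L := by gcongr
  have hc3 : c ^ 3 ≤ 1 / 8 := by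
    have : c ^ 3 ≤ (1 / 2) ^ 3 := pow_le_pow_left₀ hc.le hc12 3
    linarith
  have hRL : R ≤ L := by
    have h1 : (R : ℝ) ≤ L := by
      have := mul_le_mul_of_nonneg_right hc3 hL0.le
      linarith
    exact_mod_cast h1
  have hLpos : 0 < L := by exact_mod_cast hL0
  -- the bad set
  obtain ⟨B, hBd⟩ : ∃ B, B = bad G1ᶜ ω (Bx 0 L) ∪ (Bx (0 : Zd d) L \ Bx 0 (L - R)) := ⟨_, rfl⟩
  have hB : B ⊆ Bx 0 L := by
    rw [hBd]
    apply Finset.union_subset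
    · intro y hy
      exact (mem_bad.1 hy).1
    · exact Finset.sdiff_subset
  obtain ⟨Lc, hLc⟩ : ∃ Lc : ℝ, Lc = ((Bx (0 : Zd d) L).card : ℝ) := ⟨_, rfl⟩
  have hLc0 : 0 ≤ Lc := by rw [hLc]; exact Nat.cast_nonneg _
  have hBc : (B.card : ℝ) ≤ (1 + 2 * d) * c ^ 3 * Lc := by
    have h1 : (B.card : ℝ) ≤ (bad G1ᶜ ω (Bx 0 L)).card +
        ((Bx (0 : Zd d) L \ Bx 0 (L - R)).card : ℝ) := by
      rw [hBd]
      exact_mod_cast Finset.card_union_le _ _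
    have h2 := shallow (d := d) L R hRL hLpos
    have h3 : (d : ℝ) * R / L ≤ d * (2 * c ^ 3) := by
      rw [div_le_iff₀ hL0, mul_assoc]
      gcongr
    have h4 : (d : ℝ) * R / L * (Bx (0 : Zd d) L).card ≤ d * (2 * c ^ 3) * Lc := by
      rw [← hLc]
      gcongr
    rw [← hLc] at hbadL
    linarith
  have hdeep : ∀ x0 ∈ Bx (0 : Zd d) L \ B, ∀ y, y ∉ Bx (0 : Zd d) L → (R : ℝ) ≤ ‖y - x0‖ := by
    intro x0 hx0 y hy
    rw [Finset.mem_sdiff, hBd, Finset.mem_union, not_or] at hx0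
    have h1 : x0 ∈ Bx (0 : Zd d) (L - R) := by
      by_contra hcon
      exact hx0.2.2 (Finset.mem_sdiff.2 ⟨hx0.1, hcon⟩)
    exact deep L R hRL x0 h1 y hy
  have hgood : ∀ x0 ∈ Bx (0 : Zd d) L \ B, sh x0 ω ∈ G1 := by
    intro x0 hx0
    rw [Finset.mem_sdiff, hBd, Finset.mem_union, not_or] at hx0
    by_contra hcon
    exact hx0.2.1 (mem_bad.2 ⟨hx0.1, hcon⟩)
  -- the profile
  obtain ⟨E, hEd⟩ : ∃ E : ℝ, E = 2 * d + c * Mn - e := ⟨_, rfl⟩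
  rw [← hEd] at he
  obtain ⟨hl1, hl2⟩ := hl E he
  have hl3 := hC E he
  obtain ⟨i0⟩ : Nonempty (Fin d) := ⟨⟨0, by omega⟩⟩
  obtain ⟨G0, hG0d⟩ : ∃ G0, G0 = (GF (F0 d) (E : ℂ)).im := ⟨_, rfl⟩
  obtain ⟨Dd, hDd⟩ : ∃ Dd, Dd = (GF (F1 d) (E : ℂ)).im / (GF (F0 d) (E : ℂ)).im ^ 2 := ⟨_, rfl⟩
  have hmG0 : m ≤ G0 := by rw [hG0d]; exact hl1.trans hl2
  have hG0C : G0 ≤ C := by rw [hG0d]; exact hl3
  have hG0pos : 0 < G0 := hm.trans_le hmG0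
  have hDD : D0 ≤ Dd := by
    rw [hDd, hD0d, ← hG0d]
    apply div_le_div₀ (hm.le.trans hl1) hl1 (by positivity)
    exact pow_le_pow_left₀ hG0pos.le (by linarith) 2
  have hFE2 := (fejer_mono D0 Dd hD0 hDD N).trans hFE
  have hprof : ∀ x0 ∈ Bx (0 : Zd d) L \ B, ∀ η : ℝ, c ^ (81 / 40 : ℝ) ≤ η →
      η ≤ c ^ (161 / 80 : ℝ) → ∃ g, Pf (fun x => 2 * d + c * ω x) i0 x0 e η G0 Dd
        (Real.sqrt (η * (c ^ 2 * V))) (c ^ (1 / 200 : ℝ)) N g := by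
    intro x0 hx0 η hη1 hη2
    have hη0 : 0 < η := lt_of_lt_of_le (by positivity) hη1
    obtain ⟨hωb, hprf⟩ := hG1 _ (hgood x0 hx0)
    have hωb' : ∀ y, |ω y| ≤ b := by
      intro y
      have := hωb (y - x0)
      unfold sh at this
      rwa [sub_add_cancel] at this
    obtain ⟨g, hg⟩ := rs_exists (fun x => 2 * d + c * ω x) (2 * d + c * b) (fun x => by
      have h1 := hωb' x
      have h2 : |2 * d + c * ω x| ≤ |2 * (d : ℝ)| + |c * ω x| := abs_add_le _ _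
      have h3 : |c * ω x| ≤ c * b := by
        rw [abs_mul, abs_of_pos hc]
        gcongr
      have h4 : |2 * (d : ℝ)| = 2 * d := abs_of_pos (by positivity)
      linarith) x0 e η hη0
    refine ⟨g, ?_⟩
    rw [hG0d, hDd]
    apply pf_of (γ0 := fun E => GF (F0 d) (E : ℂ)) (γ1 := fun E => GF (F1 d) (E : ℂ)) i0 hη0
      (by positivity) le_rfl hg
    intro u hu p hp
    have h1 := hprf 0 (by
      rw [norm_zero]
      positivity) e (by rw [← hEd]; exact he) η hη1 hη2 u hu p hp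
    rw [← hEd] at h1
    exact h1
  have hsc := scale c s hc hs81'
  have hKd : 16 * (d : ℝ) ^ 3 * (s⁻¹) ^ 4 / (R : ℝ) ^ 2 ≤
      16 * (d : ℝ) ^ 3 * (s * c ^ (15 / 8 : ℝ)) := by
    have h1 : 1 / (R : ℝ) ^ 2 ≤ c ^ 12 := by
      have h2 : ((c ^ 6)⁻¹) ^ 2 ≤ (R : ℝ) ^ 2 := pow_le_pow_left₀ (by positivity) hR1 2
      rw [div_le_iff₀ (by positivity)]
      calc (1 : ℝ) = c ^ 12 * ((c ^ 6)⁻¹) ^ 2 := by
            field_simp
        _ ≤ c ^ 12 * (R : ℝ) ^ 2 := by gcongr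
    calc 16 * (d : ℝ) ^ 3 * (s⁻¹) ^ 4 / (R : ℝ) ^ 2 =
          16 * (d : ℝ) ^ 3 * ((s⁻¹) ^ 4 * (1 / (R : ℝ) ^ 2)) := by ring
      _ ≤ 16 * (d : ℝ) ^ 3 * ((s⁻¹) ^ 4 * c ^ 12) := by gcongr
      _ ≤ _ := by gcongr
  have hBs : (B.card : ℝ) ≤ ε * s / 4 * Lc := by
    refine hBc.trans ?_
    apply mul_le_mul_of_nonneg_right _ hLc0
    have h1 : c ^ 3 = c ^ (39 / 40 : ℝ) * c ^ (81 / 40 : ℝ) := by
      rw [← Real.rpow_add hc, ← Real.rpow_natCast]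
      congr 1
      norm_num
    have h2 : 0 < c ^ (81 / 40 : ℝ) := by positivity
    calc (1 + 2 * (d : ℝ)) * c ^ 3 = (1 + 2 * (d : ℝ)) * c ^ (39 / 40 : ℝ) *
          c ^ (81 / 40 : ℝ) := by rw [h1]; ring
      _ ≤ ε / 4 * c ^ (81 / 40 : ℝ) := by gcongr
      _ ≤ ε / 4 * s := by gcongr
      _ = _ := by ring
  have hB2 : (B.card : ℝ) ≤ 1 / 2 * Lc := by
    refine hBc.trans ?_
    apply mul_le_mul_of_nonneg_right _ hLc0
    rw [← Real.rpow_natCast c 3]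
    exact_mod_cast n7
  have hup : ∀ (ι : Type) [Fintype ι] (u : ι → Zd d → ℂ) (En : ι → ℝ),
      EF (Bx 0 L) (fun x => 2 * d + c * ω x) u En → (∀ n, |En n - e| ≤ s) →
      (∀ n, lc (Bx 0 L) (c1 / (Real.sqrt s * c)) (u n) ≤ c1 / Real.sqrt s) →
      (Fintype.card ι : ℝ) ≤ ε * s * (Bx (0 : Zd d) L).card := by
    intro ι _ u En hEF hwin hloc
    have hℓ : (N : ℝ) * (Real.sqrt (s * (c ^ 2 * V)) * (c1 / (Real.sqrt s * c))) ≤ 1 := by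
      have h1 : Real.sqrt (s * (c ^ 2 * V)) = Real.sqrt s * c * Real.sqrt V := by
        rw [Real.sqrt_mul hs0.le, Real.sqrt_mul (sq_nonneg c), Real.sqrt_sq hc.le]
        ring
      have h2 : 0 < Real.sqrt s := Real.sqrt_pos.2 hs0
      have h3 : Real.sqrt V ≤ 2 * b := by
        rw [← Real.sqrt_sq (show 0 ≤ 2 * b by positivity)]
        exact Real.sqrt_le_sqrt hVb
      have h4 : (N : ℝ) * (Real.sqrt (s * (c ^ 2 * V)) * (c1 / (Real.sqrt s * c))) =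
          N * Real.sqrt V * c1 := by
        rw [h1]
        field_simp
      rw [h4]
      calc (N : ℝ) * Real.sqrt V * c1 ≤ N * (2 * b) * c1 := by gcongr
        _ ≤ 1 := by linarith
    refine up_final (i0 := i0) (R := R) (K := 16 * (d : ℝ) ^ 3 * (s * c ^ (15 / 8 : ℝ)))
      (ε := ε) (ε1 := ε1) (r := r) (c2 := c1) hEF B hB
      hs0 hs1 hN (fun x0 hx0 => hprof x0 hx0 s hs81' hs2) hdeep hwin hR3 hG0pos.le hG0C
      herr1 (by positivity) hFE2 hε1.le (Real.sqrt_nonneg _) hℓ hr hKd ?_ ?_ ?_ hloc hc1a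
    · calc 16 * (d : ℝ) ^ 3 * (s * c ^ (15 / 8 : ℝ)) =
            (16 * (d : ℝ) ^ 3 * c ^ (15 / 8 : ℝ)) * s := by ring
        _ ≤ 1 * s := by gcongr
        _ = s := one_mul s
    · have h1 : (12 + 8 / r) * (16 * (d : ℝ) ^ 3 * (s * c ^ (15 / 8 : ℝ))) ≤ ε / 16 * s := by
        calc (12 + 8 / r) * (16 * (d : ℝ) ^ 3 * (s * c ^ (15 / 8 : ℝ))) =
            ((12 + 8 / r) * (16 * (d : ℝ) ^ 3) * c ^ (15 / 8 : ℝ)) * s := by ring
          _ ≤ ε / 16 * s := by gcongr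
      have h2 : r * (C + 1) = ε / 64 := by
        rw [hrd]
        field_simp
      have h3 : C * ε1 ≤ ε / 128 := by
        rw [hε1d]
        rw [mul_div_assoc', div_le_div_iff₀ (by positivity) (by norm_num)]
        nlinarith
      have h4 : r * (C + 1) + 2 * (C * ε1 + c ^ (1 / 200 : ℝ)) ≤ 3 * ε / 64 := by linarith
      have h5 : 4 * s * (r * (C + 1) + 2 * (C * ε1 + c ^ (1 / 200 : ℝ))) ≤
          4 * s * (3 * ε / 64) := mul_le_mul_of_nonneg_left h4 (by positivity)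
      linarith
    · rw [← hLc]
      exact hBs
  refine ⟨?_, hup, ?_⟩
  · intro ι _ u En hEF hcard
    refine low_final (R := R) (G0 := G0) (err := c ^ (1 / 200 : ℝ)) hEF hcard B hB hs0 hs1
      (fun x0 hx0 => ?_) hdeep hR3 hd1 hmG0 hm herr3 ?_ ?_
    · obtain ⟨g, hg⟩ := hprof x0 hx0 (s / 16) hs81 hs162
      obtain ⟨g', hg'⟩ := hprof x0 hx0 s hs81' hs2
      exact ⟨g, g', hg.1, hg'.1, Pf_zero hg hN, Pf_zero hg' hN⟩
    · have e1 : 256 * (d : ℝ) ^ 3 * ((s / 16)⁻¹) ^ 4 / (R : ℝ) ^ 2 =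
          16 * 16 ^ 4 * (16 * (d : ℝ) ^ 3 * (s⁻¹) ^ 4 / (R : ℝ) ^ 2) := by
        rw [inv_div, div_pow, inv_pow]
        ring
      rw [e1]
      calc 16 * 16 ^ 4 * (16 * (d : ℝ) ^ 3 * (s⁻¹) ^ 4 / (R : ℝ) ^ 2) ≤
            16 * 16 ^ 4 * (16 * (d : ℝ) ^ 3 * (s * c ^ (15 / 8 : ℝ))) := by gcongr
        _ = (256 * 16 ^ 5 * (d : ℝ) ^ 3 * c ^ (15 / 8 : ℝ)) * (s / 16) := by ring
        _ ≤ m * (s / 16) := by gcongr
    · rw [← hLc]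
      exact hB2
  · intro ι _ u En hEF hwin hloc
    refine hup ι u En hEF hwin fun n => ?_
    obtain ⟨xc, hxc⟩ := hloc n
    have h2 : 0 < Real.sqrt s := Real.sqrt_pos.2 hs0
    obtain ⟨ξ, hξd⟩ : ∃ ξ, ξ = c ^ (1 / 1000 : ℝ) / (Real.sqrt s * c) := ⟨_, rfl⟩
    have hξ : 0 < ξ := by rw [hξd]; positivity
    rw [← hξd] at hxc
    have h3 := exp_loc hd1 (Bx (0 : Zd d) L) (u n) xc (Real.exp (c ^ (-(1 / 2000) : ℝ))) ξ
      (c1 / (Real.sqrt s * c)) (Real.exp_pos _).le hξ hxc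
    have h4 : c1 / (Real.sqrt s * c) / (2 * ξ) = c1 * c ^ (-(1 / 1000) : ℝ) / 2 := by
      rw [hξd, Real.rpow_neg hc.le]
      field_simp
    have hsq1 : Real.sqrt s ≤ 1 := by
      rw [← Real.sqrt_one]
      exact Real.sqrt_le_sqrt hs1
    have h5 : ξ ≤ c ^ (-4 : ℝ) := by
      have h6 : s ≤ Real.sqrt s := by
        nlinarith [Real.sq_sqrt hs0.le]
      have h7 : c ^ (3 : ℝ) ≤ s := by
        refine le_trans ?_ hs81'
        exact Real.rpow_le_rpow_of_exponent_ge hc hcle (by norm_num)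
      have h8 : c ^ (1 / 1000 : ℝ) ≤ 1 := Real.rpow_le_one hc.le hcle (by norm_num)
      have h9 : c ^ (3 : ℝ) * c = c ^ (4 : ℝ) := by
        rw [← Real.rpow_add_one hc.ne']
        norm_num
      have h10 : c ^ (4 : ℝ) ≤ Real.sqrt s * c := by
        rw [← h9]
        gcongr
        exact h7.trans h6
      rw [hξd, Real.rpow_neg hc.le]
      rw [div_eq_mul_inv]
      calc c ^ (1 / 1000 : ℝ) * (Real.sqrt s * c)⁻¹ ≤ 1 * (c ^ (4 : ℝ))⁻¹ := by gcongr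
        _ = _ := one_mul _
    rw [h4] at h3
    have h6 : Real.exp (c ^ (-(1 / 2000) : ℝ)) ^ 2 *
        Real.exp (-(c1 * c ^ (-(1 / 1000) : ℝ) / 2)) * ((2 * (1 + d * (2 * ξ))) ^ d) ^ 2 ≤
        Real.exp (c ^ (-(1 / 2000) : ℝ)) ^ 2 *
        Real.exp (-(c1 * c ^ (-(1 / 1000) : ℝ) / 2)) *
        ((2 * (1 + d * (2 * c ^ (-4 : ℝ)))) ^ d) ^ 2 := by gcongr
    have h7 : c1 ≤ c1 / Real.sqrt s := by
      rw [le_div_iff₀ h2]
      nlinarith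
    unfold lc
    exact h3.trans (h6.trans (n9.trans h7))

end Pool.Agent.X133.LL
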